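import Pool.Agent.MP_a6a2ff_al.Complex

/-!
# Homogeneous components and exactness of the Koszul complex
-/

set_option linter.unusedSimpArgs false
set_option linter.unusedVariables false

universe u

open DirectSum

namespace Pool.Agent.MP_a6a2ff_al

section Shift

variable {k : Type u} [Field k] {R : Type u} [Ring R] [Algebra k R]

/-- the grading shifted by one -/
def shiftGr (𝒜 : ℕ → Submodule k R) : ℕ → Submodule k R
  | 0 => ⊥
  | (j + 1) => 𝒜 j

variable (𝒜 : ℕ → Submodule k R) [GradedAlgebra 𝒜]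

/-- the projections onto the components of the shifted grading -/
noncomputable def pr : ℕ → R →ₗ[k] R
  | 0 => 0
  | (j + 1) => GradedAlgebra.proj 𝒜 j

lemma pr_mem (j : ℕ) (a : R) : pr 𝒜 j a ∈ shiftGr 𝒜 j := by
  cases j with
  | zero => simp [pr, shiftGr]
  | succ j => simp [pr, shiftGr, GradedAlgebra.proj_apply]

lemma pr_of_mem {j : ℕ} {a : R} (ha : a ∈ shiftGr 𝒜 j) : pr 𝒜 j a = a := by
  cases j with
  | zero =>
    have : a = 0 := by simpa [shiftGr] using ha
    simp [this]
  | succ j =>
    change GradedAlgebra.proj 𝒜 j a = a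
    rw [GradedAlgebra.proj_apply]
    exact DirectSum.decompose_of_mem_same 𝒜 ha

lemma pr_of_mem_ne {i j : ℕ} {a : R} (ha : a ∈ shiftGr 𝒜 j) (hij : j ≠ i) : pr 𝒜 i a = 0 := by
  cases i with
  | zero => simp [pr]
  | succ i =>
    cases j with
    | zero =>
      have : a = 0 := by simpa [shiftGr] using ha
      simp [this]
    | succ j =>
      change GradedAlgebra.proj 𝒜 i a = 0
      rw [GradedAlgebra.proj_apply]
      exact DirectSum.decompose_of_mem_ne 𝒜 ha (by omega)

lemma pr_mul {v : R} (hv : v ∈ 𝒜 1) (j : ℕ) (a : R) :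
    pr 𝒜 (j + 1) (a * v) = pr 𝒜 j a * v := by
  cases j with
  | zero =>
    change GradedAlgebra.proj 𝒜 0 (a * v) = 0 * v
    rw [GradedAlgebra.proj_apply, zero_mul]
    exact DirectSum.coe_decompose_mul_of_right_mem_of_not_le 𝒜 hv (by omega)
  | succ j =>
    change GradedAlgebra.proj 𝒜 (j + 1) (a * v) = GradedAlgebra.proj 𝒜 j a * v
    rw [GradedAlgebra.proj_apply, GradedAlgebra.proj_apply]
    exact DirectSum.coe_decompose_mul_add_of_right_mem 𝒜 hv

lemma pr_vecMul {m n : ℕ} (M : Matrix (Fin m) (Fin n) R) (hM : ∀ i j, M i j ∈ 𝒜 1)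
    (a : Fin m → R) (j : ℕ) :
    (fun i => pr 𝒜 (j + 1) (Matrix.vecMul a M i)) =
      Matrix.vecMul (fun i => pr 𝒜 j (a i)) M := by
  ext i
  simp only [Matrix.vecMul, dotProduct, map_sum]
  exact Finset.sum_congr rfl fun l _ => pr_mul 𝒜 (hM l i) j (a l)

lemma mem_of_pr {m : ℕ} (P : AddSubgroup (Fin m → R)) (n : Fin m → R)
    (h : ∀ j, (fun i => pr 𝒜 (j + 1) (n i)) ∈ P) : n ∈ P := by
  classical
  let s : Finset ℕ := Finset.univ.biUnion fun i => (DirectSum.decompose 𝒜 (n i)).support
  have : n = ∑ j ∈ s, (fun i => pr 𝒜 (j + 1) (n i)) := by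
    ext i
    rw [Finset.sum_apply]
    change n i = ∑ j ∈ s, GradedAlgebra.proj 𝒜 j (n i)
    conv_lhs => rw [← DirectSum.sum_support_decompose 𝒜 (n i)]
    simp only [GradedAlgebra.proj_apply]
    refine Finset.sum_subset ?_ ?_
    · exact Finset.subset_biUnion_of_mem (fun i => (DirectSum.decompose 𝒜 (n i)).support)
        (Finset.mem_univ i)
    · intro j _ hj
      have := DFinsupp.notMem_support_iff.mp hj
      rw [this]; rfl
  rw [this]
  exact sum_mem fun j _ => h j

end Shift

section Exactness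

variable {k : Type u} [Field k] {R : Type u} [Ring R] [Algebra k R] {d ω : k} {x y X T : R}

lemma mat0_mem (i : Fin 1) (j : Fin 4) : mat0 x y X T i j ∈ genSpan k x y X T := by
  fin_cases i; fin_cases j
  · exact x_mem
  · exact y_mem
  · exact X_mem
  · exact T_mem

lemma mat3_mem (i : Fin 4) (j : Fin 1) : mat3 x y X T i j ∈ genSpan k x y X T := by
  fin_cases j; fin_cases i
  · exact x_mem
  · exact y_mem
  · exact X_mem
  · exact T_mem

lemma mat1_mem (i : Fin 4) (j : Fin 6) : mat1 d x y X T i j ∈ genSpan k x y X T := by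
  have hx : x ∈ genSpan k x y X T := x_mem
  have hy : y ∈ genSpan k x y X T := y_mem
  have hX : X ∈ genSpan k x y X T := X_mem
  have hT : T ∈ genSpan k x y X T := T_mem
  have hs : ∀ (c : k) (z : R), z ∈ genSpan k x y X T → c • z ∈ genSpan k x y X T :=
    fun c z hz => Submodule.smul_mem _ c hz
  fin_cases i <;> fin_cases j <;>
    simp only [mat1, Matrix.of_apply, Matrix.cons_val', Matrix.cons_val_zero,
      Matrix.cons_val_one, Matrix.cons_val, Fin.isValue, Fin.mk_one, Fin.zero_eta,
      Fin.reduceFinMk] <;>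
    first
      | exact zero_mem _
      | exact neg_mem hX
      | exact neg_mem hx
      | exact neg_mem (hs _ _ hT)
      | exact neg_mem (hs _ _ hx)
      | exact neg_mem (hs _ _ hy)
      | exact neg_mem (add_mem (hs _ _ hx) (hs _ _ hy))
      | exact sub_mem (hs _ _ hT) (hs _ _ hX)
      | exact hx
      | exact hy
      | exact hX
      | exact hs _ _ (sub_mem hX hT)
      | exact neg_mem (hs _ _ (add_mem (hs _ _ hX) (hs _ _ hT)))
      | exact neg_mem (sub_mem (hs _ _ hx) (hs _ _ hy))

lemma mat2_mem (i : Fin 6) (j : Fin 4) : mat2 d x y X T i j ∈ genSpan k x y X T := by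
  have hx : x ∈ genSpan k x y X T := x_mem
  have hy : y ∈ genSpan k x y X T := y_mem
  have hX : X ∈ genSpan k x y X T := X_mem
  have hT : T ∈ genSpan k x y X T := T_mem
  have hs : ∀ (c : k) (z : R), z ∈ genSpan k x y X T → c • z ∈ genSpan k x y X T :=
    fun c z hz => Submodule.smul_mem _ c hz
  fin_cases i <;> fin_cases j <;>
    simp only [mat2, Matrix.of_apply, Matrix.cons_val', Matrix.cons_val_zero,
      Matrix.cons_val_one, Matrix.cons_val, Fin.isValue, Fin.mk_one, Fin.zero_eta,
      Fin.reduceFinMk] <;>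
    first
      | exact zero_mem _
      | exact neg_mem hx
      | exact sub_mem (hs _ _ hT) (hs _ _ hX)
      | exact hx
      | exact hy
      | exact hX
      | exact hs _ _ hT
      | exact add_mem (hs _ _ hx) (hs _ _ hy)
      | exact sub_mem (hs _ _ hx) (hs _ _ hy)
      | exact neg_mem (add_mem hX (hs _ _ hT))

theorem IsPres.setup (h : IsPres k R d x y X T) (hγ : 1 + d ≠ 0)
    (hω : ω ^ 2 * (1 + d) = 1 - d) :
    Setup d ω x y X T (shiftGr (powGrading k x y X T)) := by
  let := h.gradedAlgebra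
  have hmul : ∀ (v : R), v ∈ genSpan k x y X T → ∀ j a, a ∈ shiftGr (powGrading k x y X T) j →
      a * v ∈ shiftGr (powGrading k x y X T) (j + 1) := by
    intro v hv j a ha
    cases j with
    | zero =>
      have : a = 0 := by simpa [shiftGr] using ha
      simp [this]
    | succ j =>
      change a * v ∈ genSpan k x y X T ^ (j + 1)
      rw [pow_succ]
      exact Submodule.mul_mem_mul ha hv
  refine ⟨h.rel, hγ, hω, rfl, hmul x x_mem, hmul y y_mem, hmul X X_mem, hmul T T_mem, ?_⟩
  intro j a b c e ha hb hc he hn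
  obtain ⟨p, hp⟩ := h.mem_rowSpan ![a, b, c, e] (by simpa using hn)
  have hp' : Matrix.vecMul (fun i => pr (powGrading k x y X T) j (p i)) (mat2 d x y X T) =
      ![a, b, c, e] := by
    rw [← pr_vecMul _ _ (fun i j => mem_one_of_mem (mat2_mem i j))]
    rw [Matrix.vecMulLinear_apply] at hp
    rw [hp]
    ext i
    fin_cases i
    · exact pr_of_mem _ ha
    · exact pr_of_mem _ hb
    · exact pr_of_mem _ hc
    · exact pr_of_mem _ he
  rw [vecMul_mat2] at hp'
  refine ⟨_, pr_mem _ j (p 0), _, pr_mem _ j (p 1), _, pr_mem _ j (p 2), _, pr_mem _ j (p 3),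
    _, pr_mem _ j (p 4), _, pr_mem _ j (p 5), ?_, ?_, ?_, ?_⟩
  · exact (congrFun hp' 0).symm
  · exact (congrFun hp' 1).symm
  · exact (congrFun hp' 2).symm
  · exact (congrFun hp' 3).symm

lemma mat0_mul_mat1 (h : Rels d x y X T) : mat0 x y X T * mat1 d x y X T = 0 := by
  have h1 := h.h1
  have h2 := h.h2
  have h3 := h.h3
  have h4 := h.h4
  have h5 := h.h5
  have h6 := h.h6
  simp only [mul_add, add_mul, mul_sub, sub_mul, smul_add, smul_sub, mul_smul_comm,
    smul_mul_assoc] at h1 h2 h3 h4 h5 h6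
  ext i j
  fin_cases i <;> fin_cases j <;>
    simp [Matrix.mul_apply, Fin.sum_univ_succ, mat0, mat1, mat2, mat3, mul_add, add_mul, mul_sub,
      sub_mul, smul_add, smul_sub, mul_smul]
  · linear_combination (norm := module) h1
  · linear_combination (norm := module) -d • h3 + (1 + d) • h4
  · linear_combination (norm := module) h2
  · linear_combination (norm := module) -((1 + d) • (h5 - d • (h3 - h4)))
  · linear_combination (norm := module) -((1 + d) • ((1 - d) • h3 + d • h4))
  · linear_combination (norm := module) -h6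

lemma mat1_mul_mat2 (h : Rels d x y X T) : mat1 d x y X T * mat2 d x y X T = 0 := by
  have h1 := h.h1
  have h2 := h.h2
  have h3 := h.h3
  have h4 := h.h4
  have h5 := h.h5
  have h6 := h.h6
  simp only [mul_add, add_mul, mul_sub, sub_mul, smul_add, smul_sub, mul_smul_comm,
    smul_mul_assoc] at h1 h2 h3 h4 h5 h6
  ext i j
  fin_cases i <;> fin_cases j <;>
    simp [Matrix.mul_apply, Fin.sum_univ_succ, mat0, mat1, mat2, mat3, mul_add, add_mul, mul_sub,
      sub_mul, smul_add, smul_sub, mul_smul]
  · linear_combination (norm := module) -(h2 + (1 - d) • h6)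
  · linear_combination (norm := module) -(d • h6)
  · linear_combination (norm := module) h1
  · linear_combination (norm := module) -((1 + d) • ((1 - d) • h5 + d • h4))
  · linear_combination (norm := module) -(d • h6)
  · linear_combination (norm := module) h2 + (1 + d) • h6
  · linear_combination (norm := module) h3
  · linear_combination (norm := module) -((1 + d) • (d • h5 - (1 + d) • h4))
  · linear_combination (norm := module) -h1
  · linear_combination (norm := module) -d • h3 + (1 + d) • h4
  · linear_combination (norm := module) h2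
  · linear_combination (norm := module) -((1 + d) • ((1 - d) • h5 + d • h4))
  · linear_combination (norm := module) -((1 + d) • (d • h5 - (1 + d) • h4 - (h3 - h4)))
  · linear_combination (norm := module) -((1 + d) • h6)

lemma mat2_mul_mat3 (h : Rels d x y X T) : mat2 d x y X T * mat3 x y X T = 0 := by
  have h1 := h.h1
  have h2 := h.h2
  have h3 := h.h3
  have h4 := h.h4
  have h5 := h.h5
  have h6 := h.h6
  simp only [mul_add, add_mul, mul_sub, sub_mul, smul_add, smul_sub, mul_smul_comm,
    smul_mul_assoc] at h1 h2 h3 h4 h5 h6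
  ext i j
  fin_cases i <;> fin_cases j <;>
    simp [Matrix.mul_apply, Fin.sum_univ_succ, mat0, mat1, mat2, mat3, mul_add, add_mul, mul_sub,
      sub_mul, smul_add, smul_sub, mul_smul]
  · linear_combination (norm := module) h1
  · linear_combination (norm := module) h3
  · linear_combination (norm := module) h2
  · linear_combination (norm := module) (1 - d) • h5 + d • h4
  · linear_combination (norm := module) d • h5 - (1 + d) • h4
  · linear_combination (norm := module) h6


/-- degreewise exactness is enough -/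
lemma IsPres.exact_of_degreewise (h : IsPres k R d x y X T) {l m n : ℕ}
    (A : Matrix (Fin l) (Fin m) R) (B : Matrix (Fin m) (Fin n) R) (hAB : A * B = 0)
    (hB : ∀ i j, B i j ∈ genSpan k x y X T)
    (H : ∀ (j : ℕ) (a : Fin m → R), (∀ i, a i ∈ shiftGr (powGrading k x y X T) j) →
      Matrix.vecMul a B = 0 → ∃ b : Fin l → R, Matrix.vecMul b A = a) :
    Function.Exact A.vecMulLinear B.vecMulLinear := by
  let := h.gradedAlgebra
  intro a
  rw [Matrix.vecMulLinear_apply]
  constructor
  · intro ha
    have : a ∈ (LinearMap.range A.vecMulLinear).toAddSubgroup := by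
      refine mem_of_pr (powGrading k x y X T) _ a fun j => ?_
      obtain ⟨b, hb⟩ := H (j + 1) (fun i => pr (powGrading k x y X T) (j + 1) (a i))
        (fun i => pr_mem _ _ _) (by
          rw [← pr_vecMul _ _ (fun i j => mem_one_of_mem (hB i j)), ha]
          ext i
          simp)
      exact ⟨b, hb⟩
    exact this
  · rintro ⟨b, rfl⟩
    rw [Matrix.vecMulLinear_apply, Matrix.vecMul_vecMul, hAB, Matrix.vecMul_zero]

theorem IsPres.exact01 (h : IsPres k R d x y X T) (hγ : 1 + d ≠ 0)
    (hω : ω ^ 2 * (1 + d) = 1 - d) :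
    Function.Exact (mat0 x y X T).vecMulLinear (mat1 d x y X T).vecMulLinear := by
  refine h.exact_of_degreewise _ _ (mat0_mul_mat1 h.rel) mat1_mem fun j a ha hn => ?_
  rw [vecMul_mat1] at hn
  have e0 := congrFun hn 0
  have e1 := congrFun hn 1
  have e2 := congrFun hn 2
  have e3 := congrFun hn 3
  have e4 := congrFun hn 4
  have e5 := congrFun hn 5
  simp only [Matrix.cons_val_zero, Matrix.cons_val_one, Matrix.cons_val, Pi.zero_apply,
    neg_eq_zero] at e0 e1 e2 e3 e4 e5
  obtain ⟨r, -, h0, h1, h2, h3⟩ := (h.setup hγ hω).F1 j _ _ _ _ (ha 0) (ha 1) (ha 2) (ha 3)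
    e0 e1 e2 e3 e4 e5
  refine ⟨![r], ?_⟩
  rw [vecMul_mat0]
  ext i
  fin_cases i
  · exact h0.symm
  · exact h1.symm
  · exact h2.symm
  · exact h3.symm

theorem IsPres.exact12 (h : IsPres k R d x y X T) (hγ : 1 + d ≠ 0)
    (hω : ω ^ 2 * (1 + d) = 1 - d) :
    Function.Exact (mat1 d x y X T).vecMulLinear (mat2 d x y X T).vecMulLinear := by
  refine h.exact_of_degreewise _ _ (mat1_mul_mat2 h.rel) mat2_mem fun j a ha hn => ?_
  rw [vecMul_mat2] at hn
  have e0 := congrFun hn 0
  have e1 := congrFun hn 1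
  have e2 := congrFun hn 2
  have e3 := congrFun hn 3
  simp only [Matrix.cons_val_zero, Matrix.cons_val_one, Matrix.cons_val, Pi.zero_apply]
    at e0 e1 e2 e3
  obtain ⟨a', -, b, -, c, -, e, -, h0, h1, h2, h3, h4, h5⟩ := (h.setup hγ hω).F2 j _ _ _ _ _ _
    (ha 0) (ha 1) (ha 2) (ha 3) (ha 4) (ha 5) e0 e1 e2 e3
  refine ⟨![a', b, c, e], ?_⟩
  rw [vecMul_mat1]
  ext i
  fin_cases i
  · exact h0.symm
  · exact h1.symm
  · exact h2.symm
  · exact h3.symm
  · exact h4.symm
  · exact h5.symm

theorem IsPres.exact23 (h : IsPres k R d x y X T) :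
    Function.Exact (mat2 d x y X T).vecMulLinear (mat3 x y X T).vecMulLinear := by
  intro a
  rw [Matrix.vecMulLinear_apply]
  constructor
  · intro ha
    rw [vecMul_mat3] at ha
    exact h.mem_rowSpan a (congrFun ha 0)
  · rintro ⟨b, rfl⟩
    rw [Matrix.vecMulLinear_apply, Matrix.vecMul_vecMul, mat2_mul_mat3 h.rel, Matrix.vecMul_zero]

theorem IsPres.mul_y_eq_zero (h : IsPres k R d x y X T) (hγ : 1 + d ≠ 0)
    (hω : ω ^ 2 * (1 + d) = 1 - d) (a : R) (ha : a * y = 0) : a = 0 := by
  let := h.gradedAlgebra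
  have : (fun _ => a : Fin 1 → R) ∈ (⊥ : AddSubgroup (Fin 1 → R)) := by
    refine mem_of_pr (powGrading k x y X T) _ _ fun j => ?_
    rw [AddSubgroup.mem_bot]
    ext i
    refine ((h.setup hγ hω).ex (j + 1)).Y _ (pr_mem _ _ _) ?_
    rw [← pr_mul _ (mem_one_of_mem y_mem), ha, map_zero]
  exact congrFun this 0

theorem IsPres.injective0 (h : IsPres k R d x y X T) (hγ : 1 + d ≠ 0)
    (hω : ω ^ 2 * (1 + d) = 1 - d) : Function.Injective (mat0 x y X T).vecMulLinear := by
  rw [injective_iff_map_eq_zero]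
  intro a ha
  rw [Matrix.vecMulLinear_apply, vecMul_mat0] at ha
  ext i
  fin_cases i
  exact h.mul_y_eq_zero hγ hω (a 0) (congrFun ha 1)

end Exactness

end Pool.Agent.MP_a6a2ff_al
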