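import Pool.Agent.MP_a6a2ff_al.Gamma

/-!
# There are nineteen points
-/

set_option linter.unusedSimpArgs false
set_option linter.unusedVariables false

universe u

namespace Pool.Agent.MP_a6a2ff_al

variable {k : Type u} [Field k]

lemma card_fib {α β : Type*} (P : α → Prop) (Q : α → β → Prop) (n m : ℕ)
    (hn : Nat.card {a // P a} = n) (hn0 : n ≠ 0)
    (hm : ∀ a, P a → Nat.card {b // Q a b} = m) (hm0 : m ≠ 0) :
    Nat.card {q : α × β // P q.1 ∧ Q q.1 q.2} = n * m := by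
  have hf : Finite {a // P a} := Nat.finite_of_card_ne_zero (by rw [hn]; exact hn0)
  have hf' : ∀ a : {a // P a}, Finite {b // Q a.1 b} := fun a =>
    Nat.finite_of_card_ne_zero (by rw [hm a.1 a.2]; exact hm0)
  let e : {q : α × β // P q.1 ∧ Q q.1 q.2} ≃ Σ a : {a // P a}, {b // Q a.1 b} :=
    { toFun := fun q => ⟨⟨q.1.1, q.2.1⟩, ⟨q.1.2, q.2.2⟩⟩
      invFun := fun p => ⟨(p.1.1, p.2.1), p.1.2, p.2.2⟩
      left_inv := fun q => rfl
      right_inv := fun p => rfl }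
  have := Fintype.ofFinite {a // P a}
  rw [Nat.card_congr e, Nat.card_sigma]
  rw [Finset.sum_congr rfl (fun a _ => hm a.1 a.2)]
  rw [Finset.sum_const, Finset.card_univ, ← Nat.card_eq_fintype_card, hn, smul_eq_mul]

lemma card_sqrt [IsAlgClosed k] (h2 : (2 : k) ≠ 0) (c : k) (hc : c ≠ 0) :
    Nat.card {t : k // t ^ 2 = c} = 2 := by
  obtain ⟨r, hr⟩ := IsAlgClosed.exists_pow_nat_eq c (n := 2) (by norm_num)
  have hr0 : r ≠ 0 := by
    rintro rfl
    exact hc (by rw [← hr]; ring)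
  have hs : {t : k | t ^ 2 = c} = {r, -r} := by
    ext t
    simp only [Set.mem_ofPred_eq, Set.mem_insert_iff, Set.mem_singleton_iff]
    rw [← hr]
    exact sq_eq_sq_iff_eq_or_eq_neg
  change Nat.card ({t : k | t ^ 2 = c} : Set k) = 2
  rw [hs, Nat.card_coe_set_eq, Set.ncard_pair]
  intro h
  have : 2 * r = 0 := by linear_combination h
  exact mul_ne_zero h2 hr0 this

lemma card_E2 [IsAlgClosed k] (h2 : (2 : k) ≠ 0) (ω : k) (hω : ω ≠ 0) :
    Nat.card (E2 ω) = 4 :=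
  card_fib (fun s : k => s ^ 2 = 1) (fun _ t : k => t ^ 2 = ω ^ 2) 2 2
    (card_sqrt h2 1 one_ne_zero) (by norm_num)
    (fun _ _ => card_sqrt h2 _ (pow_ne_zero 2 hω)) (by norm_num)

lemma card_quad [IsAlgClosed k] (h2 : (2 : k) ≠ 0) (τ : k) (h0 : τ ≠ 0) (h4 : τ ≠ 4) :
    Nat.card {κ : k // κ ^ 2 - (τ - 2) * κ + 1 = 0} = 2 := by
  let e : {κ : k // κ ^ 2 - (τ - 2) * κ + 1 = 0} ≃ {t : k // t ^ 2 = τ * (τ - 4)} :=
    { toFun := fun κ => ⟨2 * κ.1 - (τ - 2), by linear_combination 4 * κ.2⟩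
      invFun := fun s => ⟨(s.1 + (τ - 2)) / 2, by
        have := s.2
        field_simp
        linear_combination this⟩
      left_inv := fun κ => by
        apply Subtype.ext
        dsimp only
        field_simp
        ring
      right_inv := fun s => by
        apply Subtype.ext
        dsimp only
        field_simp
        ring }
  exact (Nat.card_congr e).trans
    (card_sqrt h2 (τ * (τ - 4)) (mul_ne_zero h0 (sub_ne_zero.mpr h4)))

/-- the cubic -/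
def cub (d τ : k) : k :=
  d ^ 2 * τ * (2 * (1 + d) * (2 + d) - (1 + 2 * d) * τ) -
    (τ - 2 * (1 + d)) ^ 2 * (2 * (1 + d) ^ 2 - d * τ)

/-- the value of the square -/
def sqv (d τ κ : k) : k := (d * (1 + κ) / (2 * (1 + d) - τ)) ^ 2 - κ

lemma IsPt.tau {d κ x X Z : k} (hγ : 1 + d ≠ 0) (h : IsPt d κ x X Z) (τ : k)
    (hτ : τ * κ = (1 + κ) ^ 2) : x * (2 * (1 + d) - τ) = d * (1 + κ) := by
  have h1 : (κ * X) * (x * (2 * (1 + d) - τ)) = (κ * X) * (d * (1 + κ)) := by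
    linear_combination (1 + d) * κ * h.e5 - x * (1 + κ) * h.e3 - d * κ * h.e3 - x * X * hτ
  exact mul_left_cancel₀ (mul_ne_zero h.k0 h.X0) h1

lemma IsPt.tau_ne {d κ x X Z : k} (hd : d ≠ 0) (hγ : 1 + d ≠ 0) (h2 : (2 : k) ≠ 0)
    (h : IsPt d κ x X Z) (τ : k)
    (hτ : τ * κ = (1 + κ) ^ 2) : 2 * (1 + d) - τ ≠ 0 := by
  intro h0
  have h1 := h.tau hγ τ hτ
  rw [h0, mul_zero] at h1
  have h3 : 1 + κ = 0 := (mul_eq_zero.mp h1.symm).resolve_left hd
  rw [h3] at hτ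
  have h4 : τ = 0 := by
    have : τ * κ = 0 := by rw [hτ]; ring
    exact (mul_eq_zero.mp this).resolve_right h.k0
  rw [h4, sub_zero] at h0
  exact mul_ne_zero h2 hγ h0

lemma prod_aux {d κ X Z : k} (hκ : κ ≠ 0) (h3 : (1 + κ) * X = (1 + d) * κ * Z) (τ : k)
    (hτ : τ * κ = (1 + κ) ^ 2) :
    (1 + d) ^ 2 * ((X - Z) * (X - κ * Z)) = X ^ 2 * ((1 + d) ^ 2 - d * τ) := by
  have : κ ^ 2 * ((1 + d) ^ 2 * ((X - Z) * (X - κ * Z))) =
      κ ^ 2 * (X ^ 2 * ((1 + d) ^ 2 - d * τ)) := by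
    linear_combination (κ * ((1 + d) * κ * X - (1 + κ) * X) + (1 + d) * κ * (X - κ * Z)) * h3 +
      κ * X ^ 2 * d * hτ
  exact mul_left_cancel₀ (pow_ne_zero 2 hκ) this

lemma IsPt.cub_eq {d κ x X Z : k} (hγ : 1 + d ≠ 0)
    (h : IsPt d κ x X Z) (τ : k) (hτ : τ * κ = (1 + κ) ^ 2) : cub d τ = 0 := by
  have h1 := h.tau hγ τ hτ
  have hp := prod_aux h.k0 h.e3 τ hτ
  have e2 := h.e2
  have e6 := h.e6
  -- eliminate X
  have s1 : x ^ 2 * ((1 + d) ^ 2 - d * τ + (1 + d) * (1 - d) + (1 + d) * (2 * (1 + d) - τ)) * (1 + d)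
      = κ * (2 * (1 + d) ^ 2 - d * τ) * (1 + d) := by
    linear_combination (1 + d) ^ 2 * e6 - (1 + d) * hp +
      (1 + d) * ((1 + d) ^ 2 - d * τ) * (-e2) + (1 + d) ^ 2 * x * h1
  have s2 := mul_right_cancel₀ hγ s1
  have s3 : κ * cub d τ = κ * 0 := by
    unfold cub
    linear_combination (2 * (1 + d) - τ) ^ 2 * s2 -
      ((1 + d) ^ 2 - d * τ + (1 + d) * (1 - d) + (1 + d) * (2 * (1 + d) - τ)) *
        (x * (2 * (1 + d) - τ) + d * (1 + κ)) * h1 +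
      d ^ 2 * ((1 + d) ^ 2 - d * τ + (1 + d) * (1 - d) + (1 + d) * (2 * (1 + d) - τ)) * hτ
  exact mul_left_cancel₀ h.k0 s3

lemma IsPt.of_cub {d τ κ X : k} (hγ : 1 + d ≠ 0) (hτ : 2 * (1 + d) - τ ≠ 0)
    (hκ : κ ^ 2 - (τ - 2) * κ + 1 = 0) (hcub : cub d τ = 0) (hX : X ^ 2 = sqv d τ κ)
    (hX0 : X ≠ 0) : IsPt d κ (d * (1 + κ) / (2 * (1 + d) - τ)) X ((1 + κ) * X / ((1 + d) * κ)) := by
  have k0 : κ ≠ 0 := by
    rintro rfl
    exact one_ne_zero (α := k) (by linear_combination hκ)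
  have hτκ : τ * κ = (1 + κ) ^ 2 := by linear_combination -hκ
  obtain ⟨x, hx⟩ : ∃ x, x = d * (1 + κ) / (2 * (1 + d) - τ) := ⟨_, rfl⟩
  obtain ⟨Z, hZ⟩ : ∃ Z, Z = (1 + κ) * X / ((1 + d) * κ) := ⟨_, rfl⟩
  have h1 : x * (2 * (1 + d) - τ) = d * (1 + κ) := by rw [hx]; field_simp
  have e3 : (1 + κ) * X = (1 + d) * κ * Z := by rw [hZ]; field_simp
  have e2 : κ + X ^ 2 = x ^ 2 := by
    rw [hX, sqv, ← hx]; ring
  rw [← hx, ← hZ]
  refine ⟨k0, hX0, e3, e2, ?_, ?_⟩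
  · have : (1 + d) * κ * (x * (2 * X - (1 + κ) * Z)) = (1 + d) * κ * (d * κ * Z) := by
      linear_combination x * (1 + κ) * e3 + d * κ * e3 + κ * X * h1 + x * X * hτκ
    exact mul_left_cancel₀ (mul_ne_zero hγ k0) this
  · have hp := prod_aux k0 e3 τ hτκ
    have s3 : (2 * (1 + d) - τ) ^ 2 * (x ^ 2 * ((1 + d) ^ 2 - d * τ + (1 + d) * (1 - d) +
        (1 + d) * (2 * (1 + d) - τ))) =
        (2 * (1 + d) - τ) ^ 2 * (κ * (2 * (1 + d) ^ 2 - d * τ)) := by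
      unfold cub at hcub
      linear_combination κ * hcub +
        ((1 + d) ^ 2 - d * τ + (1 + d) * (1 - d) + (1 + d) * (2 * (1 + d) - τ)) *
          (x * (2 * (1 + d) - τ) + d * (1 + κ)) * h1 -
        d ^ 2 * ((1 + d) ^ 2 - d * τ + (1 + d) * (1 - d) + (1 + d) * (2 * (1 + d) - τ)) * hτκ
    have s2 := mul_left_cancel₀ (pow_ne_zero 2 hτ) s3
    have : (1 + d) ^ 2 * ((1 + d) * ((X - Z) * (X - κ * Z)) + (1 - d) * x ^ 2 +
        d * ((κ + 1) * x)) = (1 + d) ^ 2 * ((1 + d) * κ) := by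
      linear_combination (1 + d) * s2 + (1 + d) * hp +
        (1 + d) * ((1 + d) ^ 2 - d * τ) * e2 - (1 + d) ^ 2 * x * h1
    exact mul_left_cancel₀ (pow_ne_zero 2 hγ) this

lemma cub_ne_aux {d τ : k} (hd : d ≠ 0) (hγ : 1 + d ≠ 0) (h1d : 1 - d ≠ 0) (h2 : (2 : k) ≠ 0)
    (hcub : cub d τ = 0) : 2 * (1 + d) - τ ≠ 0 := by
  intro h0
  have hτ : τ = 2 * (1 + d) := by linear_combination -h0
  rw [hτ] at hcub
  unfold cub at hcub
  have : 2 * 2 * d ^ 2 * (1 + d) ^ 2 * (1 - d) = 0 := by linear_combination hcub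
  exact mul_ne_zero (mul_ne_zero (mul_ne_zero (mul_ne_zero h2 h2) (pow_ne_zero 2 hd))
    (pow_ne_zero 2 hγ)) h1d this

lemma cub_ne_zero {d τ : k} (hγ : 1 + d ≠ 0) (h2 : (2 : k) ≠ 0)
    (hcub : cub d τ = 0) : τ ≠ 0 := by
  rintro rfl
  unfold cub at hcub
  have : 2 ^ 3 * (1 + d) ^ 4 = 0 := by linear_combination -hcub
  exact mul_ne_zero (pow_ne_zero 3 h2) (pow_ne_zero 4 hγ) this

lemma sqv_ne_zero {d τ κ : k} (hd : d ≠ 0) (hγ : 1 + d ≠ 0) (h1d : 1 - d ≠ 0) (h2 : (2 : k) ≠ 0)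
    (hcub : cub d τ = 0) (hκ : κ ^ 2 - (τ - 2) * κ + 1 = 0) : sqv d τ κ ≠ 0 := by
  intro h0
  have hτ := cub_ne_aux hd hγ h1d h2 hcub
  have hτ0 := cub_ne_zero hγ h2 hcub
  have k0 : κ ≠ 0 := by
    rintro rfl
    exact one_ne_zero (α := k) (by linear_combination hκ)
  have hτκ : τ * κ = (1 + κ) ^ 2 := by linear_combination -hκ
  unfold sqv at h0
  field_simp at h0
  have h1 : κ * (d ^ 2 * τ) = κ * (2 * (1 + d) - τ) ^ 2 := by
    linear_combination h0 + d ^ 2 * hτκ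
  have h3 := mul_left_cancel₀ k0 h1
  unfold cub at hcub
  have h4 : d ^ 2 * τ * (1 + d) * (2 - τ) = 0 := by
    linear_combination hcub - (2 * (1 + d) ^ 2 - d * τ) * h3
  have h5 : τ = 2 := by
    have := (mul_eq_zero.mp h4).resolve_left
      (mul_ne_zero (mul_ne_zero (pow_ne_zero 2 hd) hτ0) hγ)
    linear_combination -this
  rw [h5] at h3
  have : 2 * d ^ 2 = 0 := by linear_combination -h3
  exact mul_ne_zero h2 (pow_ne_zero 2 hd) this

/-- the third type of points in terms of the cubic -/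
noncomputable def equivE3 {d : k} (hd : d ≠ 0) (hγ : 1 + d ≠ 0) (h1d : 1 - d ≠ 0)
    (h2 : (2 : k) ≠ 0) : E3 d ≃
    {q : k × k × k // cub d q.1 = 0 ∧ q.2.1 ^ 2 - (q.1 - 2) * q.2.1 + 1 = 0 ∧
      q.2.2 ^ 2 = sqv d q.1 q.2.1} where
  toFun p := ⟨((1 + p.1.1) ^ 2 / p.1.1, p.1.1, p.1.2.2.1), by
    obtain ⟨⟨κ, x, X, Z⟩, hp⟩ := p
    have k0 := hp.k0
    dsimp only at hp k0 ⊢
    have hτ : ((1 + κ) ^ 2 / κ) * κ = (1 + κ) ^ 2 := by field_simp
    have h1 := hp.tau hγ _ hτ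
    have h3 := hp.tau_ne hd hγ h2 _ hτ
    refine ⟨hp.cub_eq hγ _ hτ, ?_, ?_⟩
    · field_simp
      ring
    · have : d * (1 + κ) / (2 * (1 + d) - (1 + κ) ^ 2 / κ) = x := by
        rw [← h1]
        exact mul_div_cancel_right₀ _ h3
      rw [sqv, this]
      linear_combination hp.e2⟩
  invFun q := ⟨(q.1.2.1, d * (1 + q.1.2.1) / (2 * (1 + d) - q.1.1), q.1.2.2,
      (1 + q.1.2.1) * q.1.2.2 / ((1 + d) * q.1.2.1)), by
    obtain ⟨⟨τ, κ, X⟩, h1, h3, h4⟩ := q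
    dsimp only at h1 h3 h4 ⊢
    refine IsPt.of_cub hγ (cub_ne_aux hd hγ h1d h2 h1) h3 h1 h4 ?_
    rintro rfl
    exact sqv_ne_zero hd hγ h1d h2 h1 h3 (by rw [← h4]; ring)⟩
  left_inv p := by
    obtain ⟨⟨κ, x, X, Z⟩, hp⟩ := p
    have k0 := hp.k0
    have e3 := hp.e3
    dsimp only at hp k0 e3
    have hτ : ((1 + κ) ^ 2 / κ) * κ = (1 + κ) ^ 2 := by field_simp
    have h1 := hp.tau hγ _ hτ
    have h3 := hp.tau_ne hd hγ h2 _ hτ
    apply Subtype.ext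
    dsimp only
    have e1 : d * (1 + κ) / (2 * (1 + d) - (1 + κ) ^ 2 / κ) = x := by
      rw [← h1]
      exact mul_div_cancel_right₀ _ h3
    have e4 : (1 + κ) * X / ((1 + d) * κ) = Z := by
      rw [e3]
      field_simp
    rw [e1, e4]
  right_inv q := by
    obtain ⟨⟨τ, κ, X⟩, h1, h3, h4⟩ := q
    dsimp only at h1 h3 h4
    have k0 : κ ≠ 0 := by
      rintro rfl
      exact one_ne_zero (α := k) (by linear_combination h3)
    apply Subtype.ext
    dsimp only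
    congr 1
    field_simp
    linear_combination h3

lemma card_E3 [IsAlgClosed k] {d : k} (hd : d ≠ 0) (hγ : 1 + d ≠ 0) (h1d : 1 - d ≠ 0)
    (h2 : (2 : k) ≠ 0) (h4 : cub d 4 ≠ 0) (h3 : Nat.card {τ : k // cub d τ = 0} = 3) :
    Nat.card (E3 d) = 12 := by
  rw [Nat.card_congr (equivE3 hd hγ h1d h2)]
  refine card_fib (fun τ : k => cub d τ = 0) (fun τ (q : k × k) =>
    q.1 ^ 2 - (τ - 2) * q.1 + 1 = 0 ∧ q.2 ^ 2 = sqv d τ q.1) 3 4 h3 (by norm_num) ?_ (by norm_num)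
  intro τ hτ
  refine card_fib (fun κ : k => κ ^ 2 - (τ - 2) * κ + 1 = 0) (fun κ X => X ^ 2 = sqv d τ κ) 2 2
    (card_quad h2 τ (cub_ne_zero hγ h2 hτ) ?_) (by norm_num) ?_ (by norm_num)
  · rintro rfl
    exact h4 hτ
  · intro κ hκ
    exact card_sqrt h2 _ (sqv_ne_zero hd hγ h1d h2 hτ hκ)

/-- the cubic at a square root of minus one -/
def cubP (d : k) : Cubic k := ⟨d, 5 - 6 * d, -26 + 10 * d, 32⟩

lemma card_cub [IsAlgClosed k] {d : k} (h2 : (2 : k) ≠ 0) (hd : d ^ 2 = -1)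
    (hdisc : 212 - 13 * d ≠ 0) : Nat.card {τ : k // cub d τ = 0} = 3 := by
  classical
  have hd0 : d ≠ 0 := by
    rintro rfl
    exact one_ne_zero (α := k) (by linear_combination hd)
  have hval : ∀ τ : k, cub d τ = (cubP d).a * τ ^ 3 + (cubP d).b * τ ^ 2 + (cubP d).c * τ +
      (cubP d).d := by
    intro τ
    simp only [cub, cubP]
    linear_combination (-40 + 34 * τ - 7 * τ ^ 2 - 32 * d + 18 * d * τ - 2 * d * τ ^ 2 -
      8 * d ^ 2 + 2 * d ^ 2 * τ) * hd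
  have ha : (cubP d).a ≠ 0 := hd0
  have hD : (cubP d).discr ≠ 0 := by
    have : (cubP d).discr = 2 ^ 3 * (212 - 13 * d) := by
      simp only [Cubic.discr, cubP]
      linear_combination (-796 - 432 * d - 400 * d ^ 2) * hd
    rw [this]
    exact mul_ne_zero (pow_ne_zero 3 h2) hdisc
  have h3 := Cubic.card_roots_of_discr_ne_zero (φ := RingHom.id k) ha
    (IsAlgClosed.splits _) hD
  have hs : {τ : k | cub d τ = 0} = ((Cubic.map (RingHom.id k) (cubP d)).roots.toFinset : Set k) := by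
    ext τ
    rw [Finset.mem_coe, Multiset.mem_toFinset, Set.mem_ofPred_eq]
    have hm : Cubic.map (RingHom.id k) (cubP d) = cubP d := rfl
    rw [hm, Cubic.mem_roots_iff (Cubic.ne_zero_of_a_ne_zero ha), hval]
  change Nat.card ({τ : k | cub d τ = 0} : Set k) = 3
  rw [hs, Nat.card_coe_set_eq, Set.ncard_coe_finset]
  exact h3

/-- the number of points -/
theorem card_Idx [IsAlgClosed k] {d ω : k} (h2 : (2 : k) ≠ 0) (hd : d ^ 2 = -1)
    (hdisc : 212 - 13 * d ≠ 0) (hω : ω ^ 2 * (1 + d) = 1 - d) :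
    Nat.card (Idx d ω) = 19 := by
  have hd0 : d ≠ 0 := by
    rintro rfl
    exact one_ne_zero (α := k) (by linear_combination hd)
  have hγ : 1 + d ≠ 0 := by
    intro h
    exact h2 (by linear_combination (1 - d) * h + hd)
  have h1d : 1 - d ≠ 0 := by
    intro h
    exact h2 (by linear_combination (1 + d) * h + hd)
  have hω0 : ω ≠ 0 := by
    rintro rfl
    exact h1d (by linear_combination -hω)
  have h4 : cub d 4 ≠ 0 := by
    have : cub d 4 = 2 ^ 3 * (1 + d) := by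
      simp only [cub]
      linear_combination (-16 + 8 * d) * hd
    rw [this]
    exact mul_ne_zero (pow_ne_zero 3 h2) hγ
  have c2 := card_E2 h2 ω hω0
  have c3 := card_E3 hd0 hγ h1d h2 h4 (card_cub h2 hd hdisc)
  have f2 : Finite (E2 ω) := Nat.finite_of_card_ne_zero (by rw [c2]; norm_num)
  have f3 : Finite (E3 d) := Nat.finite_of_card_ne_zero (by rw [c3]; norm_num)
  rw [Nat.card_sum, Nat.card_sum, c2, c3, Nat.card_eq_fintype_card, Fintype.card_fin]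

/-- a suitable parameter exists -/
lemma exists_param [IsAlgClosed k] (h2 : (2 : k) ≠ 0) :
    ∃ d ω : k, d ^ 2 = -1 ∧ 212 - 13 * d ≠ 0 ∧ 1 + d ≠ 0 ∧ ω ^ 2 * (1 + d) = 1 - d := by
  obtain ⟨i, hi⟩ := IsAlgClosed.exists_pow_nat_eq (-1 : k) (n := 2) (by norm_num)
  obtain ⟨d, hd, hdisc⟩ : ∃ d : k, d ^ 2 = -1 ∧ 212 - 13 * d ≠ 0 := by
    by_cases h : 212 - 13 * i = 0
    · refine ⟨-i, by rw [neg_sq]; exact hi, fun h' => ?_⟩
      have e1 : (53 : k) = 0 := by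
        have : (2 : k) ^ 3 * 53 = 0 := by linear_combination h + h'
        exact (mul_eq_zero.mp this).resolve_left (pow_ne_zero 3 h2)
      have e2 : (13 : k) = 0 := by
        have hi0 : i ≠ 0 := by
          rintro rfl
          exact one_ne_zero (α := k) (by linear_combination hi)
        have : (2 * i) * 13 = 0 := by linear_combination h' - h
        exact (mul_eq_zero.mp this).resolve_left (mul_ne_zero h2 hi0)
      exact one_ne_zero (α := k) (by linear_combination e1 - 4 * e2)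
    · exact ⟨i, hi, h⟩
  have hγ : 1 + d ≠ 0 := by
    intro h
    exact h2 (by linear_combination (1 - d) * h + hd)
  obtain ⟨ω, hω⟩ := IsAlgClosed.exists_pow_nat_eq ((1 - d) / (1 + d)) (n := 2) (by norm_num)
  exact ⟨d, ω, hd, hdisc, hγ, by rw [hω]; field_simp⟩

end Pool.Agent.MP_a6a2ff_al
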