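import Pool.Agent.MP_a6a2ff_al.Pres

/-!
# The Koszul complex as a complex of free modules and its exactness
-/

set_option linter.unusedSimpArgs false
set_option linter.unusedVariables false

universe u

open DirectSum

namespace Pool.Agent.MP_a6a2ff_al

section Matrices

variable {k : Type*} [Field k] {R : Type*} [Ring R] [Algebra k R]

/-- first matrix -/
def mat0 (x y X T : R) : Matrix (Fin 1) (Fin 4) R := !![x, y, X, T]

/-- second matrix -/
def mat1 (d : k) (x y X T : R) : Matrix (Fin 4) (Fin 6) R :=
  !![-X, 0, -x, -((1 + d) • T), 0, -((1 - d) • x + d • y);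
    0, (1 + d) • T - d • X, y, ((1 + d) * d) • (X - T), -((1 + d) • ((1 - d) • X + d • T)),
      -(d • x - (1 + d) • y);
    x, y, X, 0, 0, 0;
    0, 0, 0, -((1 + d) • x), -((1 + d) • y), -((1 + d) • T)]

/-- third matrix -/
def mat2 (d : k) (x y X T : R) : Matrix (Fin 6) (Fin 4) R :=
  !![X, 0, -x, 0;
    0, (1 + d) • T - d • X, y, 0;
    -x, y, X, 0;
    (1 - d) • T, d • T, 0, (1 - d) • x + d • y;
    d • T, -(X + d • T), 0, d • x - (1 + d) • y;
    (1 - d) • x + d • y, d • x - (1 + d) • y, 0, (1 + d) • T]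

/-- fourth matrix -/
def mat3 (x y X T : R) : Matrix (Fin 4) (Fin 1) R := !![x; y; X; T]

lemma vecMul_mat0 (x y X T : R) (n : Fin 1 → R) :
    Matrix.vecMul n (mat0 x y X T) = ![n 0 * x, n 0 * y, n 0 * X, n 0 * T] := by
  ext i
  fin_cases i <;> simp [Matrix.vecMul, dotProduct, mat0]

lemma vecMul_mat3 (x y X T : R) (n : Fin 4 → R) :
    Matrix.vecMul n (mat3 x y X T) = ![n 0 * x + n 1 * y + n 2 * X + n 3 * T] := by
  ext i
  fin_cases i
  simp [Matrix.vecMul, dotProduct, mat3, Fin.sum_univ_succ]
  abel

lemma vecMul_mat2 (d : k) (x y X T : R) (n : Fin 6 → R) :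
    Matrix.vecMul n (mat2 d x y X T) =
      ![n 0 * X - n 2 * x + ((1 - d) • (n 3 * T) + d • (n 4 * T) +
          n 5 * ((1 - d) • x + d • y)),
        n 1 * ((1 + d) • T - d • X) + n 2 * y +
          (d • (n 3 * T) - n 4 * (X + d • T) + n 5 * (d • x - (1 + d) • y)),
        -(n 0 * x) + n 1 * y + n 2 * X,
        n 3 * ((1 - d) • x + d • y) + n 4 * (d • x - (1 + d) • y) + (1 + d) • (n 5 * T)] := by
  ext i
  fin_cases i <;>
    simp [Matrix.vecMul, dotProduct, mat2, Fin.sum_univ_succ, mul_add, mul_sub] <;> abel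

lemma vecMul_mat1 (d : k) (x y X T : R) (n : Fin 4 → R) :
    Matrix.vecMul n (mat1 d x y X T) =
      ![n 2 * x - n 0 * X,
        n 1 * ((1 + d) • T - d • X) + n 2 * y,
        -(n 0 * x) + n 1 * y + n 2 * X,
        -((1 + d) • (n 0 * T - d • (n 1 * (X - T)) + n 3 * x)),
        -((1 + d) • (n 1 * ((1 - d) • X + d • T) + n 3 * y)),
        -(n 0 * ((1 - d) • x + d • y) + n 1 * (d • x - (1 + d) • y) + (1 + d) • (n 3 * T))] := by
  ext i
  fin_cases i <;>
    simp [Matrix.vecMul, dotProduct, mat1, Fin.sum_univ_succ, mul_add, mul_sub, mul_smul] <;>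
    module

end Matrices

section Presentation

variable {k : Type u} [Field k] {R : Type u} [Ring R] [Algebra k R] {d : k} {x y X T : R}

/-- the left submodule spanned by the rows of the third matrix -/
abbrev rowSpan (d : k) (x y X T : R) : Submodule R (Fin 4 → R) :=
  LinearMap.range (mat2 d x y X T).vecMulLinear

/-- the operator `(b, e) ↦ (b v, [b e_j])` -/
def actOp (d : k) (x y X T : R) (v : R) (j : Fin 4) :
    Module.End k (R × ((Fin 4 → R) ⧸ rowSpan d x y X T)) :=
  LinearMap.prod (LinearMap.mulRight k v ∘ₗ LinearMap.fst k _ _)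
    (((rowSpan d x y X T).mkQ.restrictScalars k) ∘ₗ
      (LinearMap.single k (fun _ : Fin 4 => R) j) ∘ₗ LinearMap.fst k _ _)

lemma actOp_apply (d : k) (x y X T : R) (v : R) (j : Fin 4)
    (p : R × ((Fin 4 → R) ⧸ rowSpan d x y X T)) :
    actOp d x y X T v j p = (p.1 * v, (rowSpan d x y X T).mkQ (Pi.single j p.1)) := rfl

lemma mkQ_row (d : k) (x y X T : R) (b : R) (i : Fin 6) :
    (rowSpan d x y X T).mkQ (fun j => b * mat2 d x y X T i j) = 0 := by
  rw [Submodule.mkQ_apply, Submodule.Quotient.mk_eq_zero]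
  refine ⟨Pi.single i b, ?_⟩
  ext j
  simp [Matrix.vecMul, dotProduct, Pi.single_apply]

lemma mkQ_comb (d : k) (x y X T : R) (b : R) (c : Fin 6 → k) (v : Fin 4 → R)
    (hv : v = ∑ i, c i • (fun j => b * mat2 d x y X T i j)) :
    ((rowSpan d x y X T).mkQ.restrictScalars k) v = 0 := by
  rw [hv, map_sum]
  refine Finset.sum_eq_zero fun i _ => ?_
  rw [map_smul, LinearMap.restrictScalars_apply, mkQ_row, smul_zero]

lemma actOp_rels (h : Rels d x y X T) :
    Rels d (MulOpposite.op (actOp d x y X T x 0)) (MulOpposite.op (actOp d x y X T y 1))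
      (MulOpposite.op (actOp d x y X T X 2)) (MulOpposite.op (actOp d x y X T T 3)) := by
  have hl : ∀ (v : R) (j : Fin 4) (p : R × ((Fin 4 → R) ⧸ rowSpan d x y X T)),
      actOp d x y X T v j p = (p.1 * v, ((rowSpan d x y X T).mkQ.restrictScalars k)
        (Pi.single j p.1)) := fun v j p => rfl
  constructor
  · apply MulOpposite.unop_injective
    refine LinearMap.ext fun p => ?_
    obtain ⟨b, e⟩ := p
    simp only [MulOpposite.unop_mul, MulOpposite.unop_op, Module.End.mul_apply, hl]
    refine Prod.ext ?_ ?_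
    · simp only [mul_assoc, h.h1]
    · dsimp only
      rw [← sub_eq_zero, ← map_sub]
      apply mkQ_comb d x y X T b ![1, 0, 0, 0, 0, 0]
      ext j
      fin_cases j <;> simp [Fin.sum_univ_succ, mat2]
  · apply MulOpposite.unop_injective
    refine LinearMap.ext fun p => ?_
    obtain ⟨b, e⟩ := p
    simp only [MulOpposite.unop_mul, MulOpposite.unop_add, MulOpposite.unop_op,
      Module.End.mul_apply, LinearMap.add_apply, hl]
    refine Prod.ext ?_ ?_
    · simp only [mul_assoc, ← mul_add, Prod.fst_add, h.h2]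
    · simp only [Prod.snd_add]
      rw [← sub_eq_zero, ← map_add, ← map_sub]
      apply mkQ_comb d x y X T b ![0, 0, 1, 0, 0, 0]
      ext j
      fin_cases j <;> simp [Fin.sum_univ_succ, mat2]
  · apply MulOpposite.unop_injective
    refine LinearMap.ext fun p => ?_
    obtain ⟨b, e⟩ := p
    simp only [MulOpposite.unop_mul, MulOpposite.unop_add, MulOpposite.unop_sub,
      MulOpposite.unop_smul, MulOpposite.unop_op,
      Module.End.mul_apply, LinearMap.add_apply, LinearMap.sub_apply, LinearMap.smul_apply, hl]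
    refine Prod.ext ?_ ?_
    · have := congrArg (b * ·) h.h3
      simp only [Prod.fst_add, Prod.smul_fst, Prod.fst_sub]
      simp only [mul_add, add_mul, mul_sub, sub_mul, smul_add, smul_sub, mul_smul_comm,
        smul_mul_assoc, mul_assoc, mul_neg, neg_mul, smul_neg] at this ⊢
      exact this
    · simp only [Prod.snd_add, Prod.smul_snd, Prod.fst_sub]
      rw [← sub_eq_zero, ← map_add, ← map_smul, ← map_sub]
      apply mkQ_comb d x y X T b ![0, 1, 0, 0, 0, 0]
      ext j
      fin_cases j <;> simp [Fin.sum_univ_succ, mat2, mul_sub, smul_sub]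
      module
  · apply MulOpposite.unop_injective
    refine LinearMap.ext fun p => ?_
    obtain ⟨b, e⟩ := p
    simp only [MulOpposite.unop_mul, MulOpposite.unop_add, MulOpposite.unop_sub,
      MulOpposite.unop_smul, MulOpposite.unop_op,
      Module.End.mul_apply, LinearMap.add_apply, LinearMap.sub_apply, LinearMap.smul_apply, hl]
    refine Prod.ext ?_ ?_
    · have := congrArg (b * ·) h.h4
      simp only [Prod.fst_add, Prod.smul_fst, Prod.fst_sub]
      simp only [mul_add, add_mul, mul_sub, sub_mul, smul_add, smul_sub, mul_smul_comm,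
        smul_mul_assoc, mul_assoc, mul_neg, neg_mul, smul_neg] at this ⊢
      exact this
    · simp only [Prod.snd_add, Prod.smul_snd, Prod.fst_sub]
      rw [← sub_eq_zero, ← map_add, ← map_smul, ← map_sub]
      apply mkQ_comb d x y X T b ![0, 0, 0, d, -(1 - d), 0]
      ext j
      fin_cases j <;> simp [Fin.sum_univ_succ, mat2, mul_sub, mul_add, smul_sub] <;> module
  · apply MulOpposite.unop_injective
    refine LinearMap.ext fun p => ?_
    obtain ⟨b, e⟩ := p
    simp only [MulOpposite.unop_mul, MulOpposite.unop_add, MulOpposite.unop_sub,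
      MulOpposite.unop_smul, MulOpposite.unop_op,
      Module.End.mul_apply, LinearMap.add_apply, LinearMap.sub_apply, LinearMap.smul_apply, hl]
    refine Prod.ext ?_ ?_
    · have := congrArg (b * ·) h.h5
      simp only [Prod.fst_add, Prod.smul_fst, Prod.fst_sub]
      simp only [mul_add, add_mul, mul_sub, sub_mul, smul_add, smul_sub, mul_smul_comm,
        smul_mul_assoc, mul_assoc, mul_neg, neg_mul, smul_neg] at this ⊢
      exact this
    · simp only [Prod.snd_add, Prod.smul_snd, Prod.fst_sub]
      rw [← sub_eq_zero, ← map_add, ← map_smul, ← map_sub]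
      apply mkQ_comb d x y X T b ![0, 0, 0, 1 + d, d, 0]
      ext j
      fin_cases j <;> simp [Fin.sum_univ_succ, mat2, mul_sub, mul_add, smul_sub] <;> module
  · apply MulOpposite.unop_injective
    refine LinearMap.ext fun p => ?_
    obtain ⟨b, e⟩ := p
    simp only [MulOpposite.unop_mul, MulOpposite.unop_add, MulOpposite.unop_sub,
      MulOpposite.unop_smul, MulOpposite.unop_op,
      Module.End.mul_apply, LinearMap.add_apply, LinearMap.sub_apply, LinearMap.smul_apply, hl]
    refine Prod.ext ?_ ?_
    · have := congrArg (b * ·) h.h6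
      simp only [Prod.fst_add, Prod.smul_fst, Prod.fst_sub]
      simp only [mul_add, add_mul, mul_sub, sub_mul, smul_add, smul_sub, mul_smul_comm,
        smul_mul_assoc, mul_assoc, mul_neg, neg_mul, smul_neg] at this ⊢
      linear_combination (norm := module) this
    · simp only [Prod.snd_add, Prod.smul_snd, Prod.fst_sub]
      rw [← sub_eq_zero, ← map_add, ← map_smul, ← map_smul, ← map_smul, ← map_smul, ← map_add,
        ← map_add, ← map_sub]
      apply mkQ_comb d x y X T b ![0, 0, 0, 0, 0, 1]
      ext j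
      fin_cases j <;> simp [Fin.sum_univ_succ, mat2, mul_sub, mul_add, smul_sub]

/-- The kernel of `R⁴ → R` is generated by the relations. -/
theorem IsPres.mem_rowSpan (h : IsPres k R d x y X T) (n : Fin 4 → R)
    (hn : n 0 * x + n 1 * y + n 2 * X + n 3 * T = 0) : n ∈ rowSpan d x y X T := by
  obtain ⟨ψ, e0, e1, e2, e3⟩ := h.univ _ _ _ _ _ (actOp_rels h.rel)
  -- first components
  have hfst : ∀ r : R, ∀ p : R × ((Fin 4 → R) ⧸ rowSpan d x y X T),
      ((ψ r).unop p).1 = p.1 * r := by
    intro r
    have hr : r ∈ Algebra.adjoin k ({x, y, X, T} : Set R) := by rw [h.gen]; trivial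
    induction hr using Algebra.adjoin_induction with
    | mem z hz =>
      intro p
      simp only [Set.mem_insert_iff, Set.mem_singleton_iff] at hz
      rcases hz with rfl | rfl | rfl | rfl
      · rw [e0]; rfl
      · rw [e1]; rfl
      · rw [e2]; rfl
      · rw [e3]; rfl
    | algebraMap c =>
      intro p
      rw [AlgHom.commutes, MulOpposite.algebraMap_apply, MulOpposite.unop_op,
        Module.algebraMap_end_apply, Prod.smul_fst, Algebra.smul_def, Algebra.commutes]
    | add a b _ _ iha ihb =>
      intro p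
      rw [map_add, MulOpposite.unop_add, LinearMap.add_apply, Prod.fst_add, iha, ihb, mul_add]
    | mul a b _ _ iha ihb =>
      intro p
      rw [map_mul, MulOpposite.unop_mul, Module.End.mul_apply, ihb, iha, mul_assoc]
  let δ : R →ₗ[k] ((Fin 4 → R) ⧸ rowSpan d x y X T) :=
    { toFun := fun r => ((ψ r).unop (1, 0)).2
      map_add' := fun a b => by
        rw [map_add, MulOpposite.unop_add, LinearMap.add_apply, Prod.snd_add]
      map_smul' := fun c a => by
        rw [map_smul, MulOpposite.unop_smul, LinearMap.smul_apply, Prod.smul_snd]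
        rfl }
  have hδ : ∀ (r v : R) (j : Fin 4), ψ v = MulOpposite.op (actOp d x y X T v j) →
      δ (r * v) = (rowSpan d x y X T).mkQ (Pi.single j r) := by
    intro r v j hv
    change ((ψ (r * v)).unop (1, 0)).2 = _
    rw [map_mul, MulOpposite.unop_mul, Module.End.mul_apply, hv, MulOpposite.unop_op, actOp_apply,
      hfst, one_mul]
  have h0 : δ (n 0 * x + n 1 * y + n 2 * X + n 3 * T) = 0 := by rw [hn, map_zero]
  rw [map_add, map_add, map_add, hδ _ _ 0 e0, hδ _ _ 1 e1, hδ _ _ 2 e2, hδ _ _ 3 e3, ← map_add,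
    ← map_add, ← map_add, Submodule.mkQ_apply, Submodule.Quotient.mk_eq_zero] at h0
  convert h0 using 1
  ext j
  fin_cases j <;> simp

end Presentation

end Pool.Agent.MP_a6a2ff_al
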