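import Mathlib

/-!
# Definitions for MP_a6a2ff_al (point modules of quadratic regular algebras)

All notions are stated for an arbitrary `k`-algebra `A` with an `ℕ`-grading
`𝒜 : ℕ → Submodule k A`.
-/

universe u

open CategoryTheory

namespace Pool.Agent.MP_a6a2ff_al

section Regular

variable {k : Type u} [Field k] {A : Type u} [Ring A] [Algebra k A]

/-- The left ideal generated by the homogeneous elements of positive degree. -/
def augIdeal (𝒜 : ℕ → Submodule k A) : Submodule A A :=
  Submodule.span A {a | ∃ n : ℕ, 0 < n ∧ a ∈ 𝒜 n}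

/-- The trivial left module `k = A / A₊`. -/
abbrev TrivialModule (𝒜 : ℕ → Submodule k A) : Type u := A ⧸ augIdeal 𝒜

/-- The grading of the opposite algebra. -/
def opGrading (𝒜 : ℕ → Submodule k A) : ℕ → Submodule k Aᵐᵒᵖ := fun n =>
  (𝒜 n).map (MulOpposite.opLinearEquiv k : A ≃ₗ[k] Aᵐᵒᵖ).toLinearMap

/-- The left-hand half of Artin-Schelter regularity in dimension `d`: the category of all left
modules has global dimension exactly `d`, and `Ext^i(k, A)` vanishes for `i ≠ d` and is one
dimensional for `i = d`. -/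
structure IsLeftRegular (𝒜 : ℕ → Submodule k A) (d : ℕ) : Prop where
  gldim_le : ∀ M : ModuleCat.{u} A, HasProjectiveDimensionLE M d
  gldim_ge : ∃ M : ModuleCat.{u} A, ¬ HasProjectiveDimensionLT M d
  ext_eq_zero : ∀ i : ℕ, i ≠ d → Subsingleton
    (Abelian.Ext (ModuleCat.of A (TrivialModule 𝒜)) (ModuleCat.of A A) i)
  ext_finrank : Module.finrank k
    (Abelian.Ext (ModuleCat.of A (TrivialModule 𝒜)) (ModuleCat.of A A) d) = 1

/-- Artin-Schelter regularity of dimension `d` of the graded algebra `(A, 𝒜)`: connected, locally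
finite, finite Gelfand-Kirillov dimension (polynomial growth), global dimension `d`
(for left and for right modules) and the Gorenstein condition (on both sides). -/
structure IsASRegular (𝒜 : ℕ → Submodule k A) (d : ℕ) : Prop where
  connected : 𝒜 0 = 1
  nontrivial : Nontrivial A
  finite : ∀ n, Module.Finite k (𝒜 n)
  growth : ∃ C e : ℕ, ∀ n : ℕ, Module.finrank k (𝒜 n) ≤ C * (n + 1) ^ e
  left : IsLeftRegular 𝒜 d
  right : IsLeftRegular (opGrading 𝒜) d

/-- `(A, 𝒜)` is a quadratic algebra: the canonical map from the tensor algebra of `𝒜 1` to `A` is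
surjective, and its kernel is the two-sided ideal generated by its elements of degree two. -/
structure IsQuadratic (𝒜 : ℕ → Submodule k A) : Prop where
  surjective : Function.Surjective (TensorAlgebra.lift k (𝒜 1).subtype)
  relations : TwoSidedIdeal.ker (TensorAlgebra.lift k (𝒜 1).subtype) =
    TwoSidedIdeal.span {t : TensorAlgebra k (𝒜 1) |
      t ∈ (LinearMap.range (TensorAlgebra.ι k : 𝒜 1 →ₗ[k] TensorAlgebra k (𝒜 1))) ^ 2 ∧
      TensorAlgebra.lift k (𝒜 1).subtype t = 0}

end Regular

section Points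

variable {k : Type u} [Field k] {A : Type u} [Ring A] [Algebra k A]

/-- A point module over `(A, 𝒜)`: a graded right `A`-module `M = ⨁ Mᵢ` (`i ≥ 0`), generated by
`M₀`, with `dim Mᵢ = 1` for all `i`. Right modules are modules over `Aᵐᵒᵖ`. -/
structure PointModule (𝒜 : ℕ → Submodule k A) where
  /-- the underlying type -/
  M : Type u
  [addCommGroup : AddCommGroup M]
  [kmodule : Module k M]
  [rmodule : Module Aᵐᵒᵖ M]
  [tower : IsScalarTower k Aᵐᵒᵖ M]
  /-- the homogeneous components -/
  comp : ℕ → Submodule k M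
  isInternal : DirectSum.IsInternal comp
  smul_mem : ∀ (i j : ℕ) (a : A) (m : M), a ∈ 𝒜 i → m ∈ comp j →
    MulOpposite.op a • m ∈ comp (j + i)
  generated : Submodule.span Aᵐᵒᵖ (comp 0 : Set M) = ⊤
  finrank_comp : ∀ i : ℕ, Module.finrank k (comp i) = 1

attribute [instance] PointModule.addCommGroup PointModule.kmodule PointModule.rmodule
  PointModule.tower

/-- Graded isomorphism of point modules. -/
def PointModule.Iso {𝒜 : ℕ → Submodule k A} (P Q : PointModule 𝒜) : Prop :=
  ∃ f : P.M ≃ₗ[Aᵐᵒᵖ] Q.M, ∀ (i : ℕ) (m : P.M), m ∈ P.comp i ↔ f m ∈ Q.comp i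

/-- Graded isomorphism is an equivalence relation. -/
def PointModule.setoid (𝒜 : ℕ → Submodule k A) : Setoid (PointModule 𝒜) where
  r := PointModule.Iso
  iseqv :=
    { refl := fun _ => ⟨LinearEquiv.refl _ _, fun _ _ => Iff.rfl⟩
      symm := fun {P Q} ⟨f, hf⟩ => ⟨f.symm, fun i m => by
        rw [hf i (f.symm m), LinearEquiv.apply_symm_apply]⟩
      trans := fun {P Q R} ⟨f, hf⟩ ⟨g, hg⟩ => ⟨f.trans g, fun i m => by
        rw [hf i m, hg i (f m), LinearEquiv.trans_apply]⟩ }

/-- The set of graded isomorphism classes of point modules. -/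
def PointModuleClass (𝒜 : ℕ → Submodule k A) := Quotient (PointModule.setoid 𝒜)

end Points

end Pool.Agent.MP_a6a2ff_al
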