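import Mathlib

/-!
# The zero locus of the multilinearised relations
-/

set_option linter.unusedSimpArgs false
set_option linter.unusedVariables false

universe u

namespace Pool.Agent.MP_a6a2ff_al

variable {k : Type u} [Field k]

/-- the multilinearised relations -/
structure Gam (d : k) (a b : Fin 4 → k) : Prop where
  g1 : a 2 * b 0 = a 0 * b 2
  g2 : a 1 * b 1 + a 2 * b 2 = a 0 * b 0
  g3 : a 1 * b 2 + a 2 * b 1 = (1 + d) * ((a 2 - a 3) * b 1)
  g4 : a 1 * b 3 + a 3 * b 1 = (d - 1) * ((a 2 - a 3) * b 1)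
  g5 : a 0 * b 3 + a 3 * b 0 = d * ((a 2 - a 3) * b 1)
  g6 : (1 + d) * (a 3 * b 3) + (1 - d) * (a 0 * b 0) + d * (a 0 * b 1 + a 1 * b 0) =
    (1 + d) * (a 1 * b 1)

lemma Gam.smul {d : k} {a b : Fin 4 → k} (h : Gam d a b) (c e : k) :
    Gam d (c • a) (e • b) := by
  obtain ⟨g1, g2, g3, g4, g5, g6⟩ := h
  constructor <;> simp only [Pi.smul_apply, smul_eq_mul]
  · linear_combination c * e * g1
  · linear_combination c * e * g2
  · linear_combination c * e * g3
  · linear_combination c * e * g4
  · linear_combination c * e * g5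
  · linear_combination c * e * g6

/-- the equations for the points with nonvanishing second coordinate -/
structure IsPt (d κ x X Z : k) : Prop where
  k0 : κ ≠ 0
  X0 : X ≠ 0
  e3 : (1 + κ) * X = (1 + d) * κ * Z
  e2 : κ + X ^ 2 = x ^ 2
  e5 : x * (2 * X - (1 + κ) * Z) = d * κ * Z
  e6 : (1 + d) * ((X - Z) * (X - κ * Z)) + (1 - d) * x ^ 2 + d * ((κ + 1) * x) = (1 + d) * κ

/-- the points of the second type -/
abbrev E2 (ω : k) : Type u := {p : k × k // p.1 ^ 2 = 1 ∧ p.2 ^ 2 = ω ^ 2}

/-- the points of the third type -/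
abbrev E3 (d : k) : Type u := {p : k × k × k × k // IsPt d p.1 p.2.1 p.2.2.1 p.2.2.2}

/-- the index set of the points -/
abbrev Idx (d ω : k) : Type u := Fin 3 ⊕ (E2 ω ⊕ E3 d)

/-- the points -/
def pt (d ω : k) : Idx d ω → Fin 4 → k
  | Sum.inl 0 => ![1, 1, 0, 0]
  | Sum.inl 1 => ![0, 0, 1, 0]
  | Sum.inl 2 => ![0, 0, 0, 1]
  | Sum.inr (Sum.inl p) => ![1, 0, p.1.1, p.1.2]
  | Sum.inr (Sum.inr p) => ![p.1.2.1, 1, p.1.2.2.1, p.1.2.2.1 - p.1.2.2.2]

lemma IsPt.inv {d κ x X Z : k} (h : IsPt d κ x X Z) :
    IsPt d κ⁻¹ (x * κ⁻¹) (X * κ⁻¹) Z := by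
  obtain ⟨k0, X0, e3, e2, e5, e6⟩ := h
  refine ⟨inv_ne_zero k0, mul_ne_zero X0 (inv_ne_zero k0), ?_, ?_, ?_, ?_⟩ <;> field_simp
  · linear_combination e3
  · linear_combination e2
  · linear_combination e5
  · linear_combination e6

/-- the automorphism -/
def sig (d ω : k) : Idx d ω → Idx d ω
  | Sum.inl 0 => Sum.inl 0
  | Sum.inl 1 => Sum.inl 2
  | Sum.inl 2 => Sum.inl 1
  | Sum.inr (Sum.inl p) => Sum.inr (Sum.inl ⟨(p.1.1, -p.1.2), p.2.1, by
      rw [neg_sq]; exact p.2.2⟩)
  | Sum.inr (Sum.inr p) => Sum.inr (Sum.inr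
      ⟨(p.1.1⁻¹, p.1.2.1 * p.1.1⁻¹, p.1.2.2.1 * p.1.1⁻¹, p.1.2.2.2), p.2.inv⟩)

lemma pt_ne_zero (d ω : k) (i : Idx d ω) : pt d ω i ≠ 0 := by
  rcases i with i | p | p
  · fin_cases i
    · exact fun h => one_ne_zero (congrFun h 0)
    · exact fun h => one_ne_zero (congrFun h 2)
    · exact fun h => one_ne_zero (congrFun h 3)
  · exact fun h => one_ne_zero (congrFun h 0)
  · exact fun h => one_ne_zero (congrFun h 1)

lemma gam_pt {d ω : k} (hω : ω ^ 2 * (1 + d) = 1 - d) (i : Idx d ω) :
    Gam d (pt d ω i) (pt d ω (sig d ω i)) := by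
  rcases i with i | ⟨⟨s, t⟩, hs, ht⟩ | ⟨⟨κ, x, X, Z⟩, hp⟩
  · fin_cases i <;> constructor <;> simp [pt, sig]
    ring
  · dsimp only at hs ht
    constructor <;> simp only [pt, sig, Matrix.cons_val_zero, Matrix.cons_val_one,
      Matrix.cons_val]
    · ring
    · linear_combination hs
    · ring
    · ring
    · ring
    · linear_combination -(1 + d) * ht - hω
  · obtain ⟨k0, X0, e3, e2, e5, e6⟩ := hp
    dsimp only at k0 X0 e3 e2 e5 e6
    constructor <;> simp only [pt, sig, Matrix.cons_val_zero, Matrix.cons_val_one,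
      Matrix.cons_val] <;> field_simp
    · linear_combination e2
    · linear_combination e3
    · linear_combination e3
    · linear_combination e5
    · linear_combination e6

lemma IsPt.kappa_unique {d κ κ' x x' X Z : k} (h : IsPt d κ x X Z) (h' : IsPt d κ' x' X Z) :
    κ = κ' := by
  have h1 : κ * ((1 + d) * Z - X) = X := by linear_combination -h.e3
  have h2 : κ' * ((1 + d) * Z - X) = X := by linear_combination -h'.e3
  have h3 : (1 + d) * Z - X ≠ 0 := by
    intro h0
    rw [h0, mul_zero] at h1
    exact h.X0 h1.symm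
  exact mul_right_cancel₀ h3 (h1.trans h2.symm)

lemma pt_inj {d ω : k} (i j : Idx d ω) (c : k) (h : pt d ω i = c • pt d ω j) : i = j := by
  have h0 := congrFun h 0
  have h1 := congrFun h 1
  have h2 := congrFun h 2
  have h3 := congrFun h 3
  rcases i with i | ⟨⟨s, t⟩, hs⟩ | ⟨⟨κ, x, X, Z⟩, hp⟩ <;>
    rcases j with j | ⟨⟨s', t'⟩, hs'⟩ | ⟨⟨κ', x', X', Z'⟩, hp'⟩
  · fin_cases i <;> fin_cases j <;> simp [pt] at h0 h1 h2 h3 ⊢
  · fin_cases i <;> simp [pt] at h0 h1 h2 h3
    · rw [← h0] at h2
      simp at h2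
    · rw [← h0] at h3
      simp at h3
  · fin_cases i <;> simp [pt] at h0 h1 h2 h3
    · have := hp'.X0
      dsimp only at this
      rw [← h1] at h2
      exact absurd (by simpa using h2) this
    · rw [← h1] at h2
      simp at h2
    · rw [← h1] at h3
      simp at h3
  · fin_cases j <;> simp [pt] at h0 h1 h2 h3
    rw [← h0] at h1
    simp at h1
  · simp [pt] at h0 h1 h2 h3
    rw [← h0, one_mul] at h2 h3
    congr 2
    ext
    · exact h2
    · exact h3
  · simp [pt] at h0 h1 h2 h3
    rw [← h1] at h0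
    simp at h0
  · fin_cases j <;> simp [pt] at h0 h1 h2 h3
    exact absurd h2 hp.X0
  · simp [pt] at h0 h1 h2 h3
  · simp [pt] at h0 h1 h2 h3
    rw [← h1, one_mul] at h0 h2 h3
    subst h0 h2
    have hZ : Z = Z' := by linear_combination -h3
    subst hZ
    have hκ : κ = κ' := hp.kappa_unique hp'
    subst hκ
    rfl

/-- The pairs of points satisfying the multilinearised relations. -/
theorem gam_classify {d ω : k} (hd : d ≠ 0) (hγ : 1 + d ≠ 0)
    (hω : ω ^ 2 * (1 + d) = 1 - d) (a b : Fin 4 → k) (ha : a ≠ 0) (hb : b ≠ 0)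
    (h : Gam d a b) : ∃ (i : Idx d ω) (c e : k), c ≠ 0 ∧ e ≠ 0 ∧ a = c • pt d ω i ∧
      b = e • pt d ω (sig d ω i) := by
  have hne : ∀ v : Fin 4 → k, v ≠ 0 → v 0 = 0 → v 1 = 0 → v 2 = 0 → v 3 ≠ 0 := by
    intro v hv h0 h1 h2 h3
    apply hv
    ext i
    fin_cases i <;> assumption
  by_cases ha1 : a 1 = 0
  · by_cases hb1 : b 1 = 0
    · -- both second coordinates vanish
      have g1 := h.g1
      have g2 := h.g2
      have g5 := h.g5
      have g6 := h.g6
      rw [ha1, hb1] at g2 g6
      rw [hb1] at g5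
      by_cases ha0 : a 0 = 0
      · rw [ha0] at g1 g2 g5 g6
        by_cases ha2 : a 2 = 0
        · have ha3 : a 3 ≠ 0 := hne a ha ha0 ha1 ha2
          have hb0 : b 0 = 0 := by
            have : a 3 * b 0 = 0 := by linear_combination g5
            exact (mul_eq_zero.mp this).resolve_left ha3
          have hb3 : b 3 = 0 := by
            have : (1 + d) * a 3 * b 3 = 0 := by linear_combination g6
            exact (mul_eq_zero.mp this).resolve_left (mul_ne_zero hγ ha3)
          have hb2 : b 2 ≠ 0 := fun hb2 => hne b hb hb0 hb1 hb2 hb3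
          refine ⟨Sum.inl 2, a 3, b 2, ha3, hb2, ?_, ?_⟩
          · ext i; fin_cases i <;> simp [pt, ha0, ha1, ha2]
          · ext i; fin_cases i <;> simp [pt, sig, hb0, hb1, hb3]
        · have hb0 : b 0 = 0 := by
            have : a 2 * b 0 = 0 := by linear_combination g1
            exact (mul_eq_zero.mp this).resolve_left ha2
          have hb2 : b 2 = 0 := by
            have : a 2 * b 2 = 0 := by linear_combination g2
            exact (mul_eq_zero.mp this).resolve_left ha2
          have hb3 : b 3 ≠ 0 := hne b hb hb0 hb1 hb2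
          have ha3 : a 3 = 0 := by
            have : (1 + d) * b 3 * a 3 = 0 := by linear_combination g6
            exact (mul_eq_zero.mp this).resolve_left (mul_ne_zero hγ hb3)
          refine ⟨Sum.inl 1, a 2, b 3, ha2, hb3, ?_, ?_⟩
          · ext i; fin_cases i <;> simp [pt, ha0, ha1, ha3]
          · ext i; fin_cases i <;> simp [pt, sig, hb0, hb1, hb2]
      · have hb0 : b 0 ≠ 0 := by
          intro hb0
          have hb2 : b 2 = 0 := by
            have : a 0 * b 2 = 0 := by rw [hb0] at g1; linear_combination -g1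
            exact (mul_eq_zero.mp this).resolve_left ha0
          have hb3 : b 3 = 0 := by
            have : a 0 * b 3 = 0 := by rw [hb0] at g5; linear_combination g5
            exact (mul_eq_zero.mp this).resolve_left ha0
          exact hne b hb hb0 hb1 hb2 hb3
        have e1 : a 2 ^ 2 = a 0 ^ 2 := by
          have : (a 2 ^ 2 - a 0 ^ 2) * b 0 = 0 := by
            linear_combination a 2 * g1 + a 0 * g2
          exact sub_eq_zero.mp ((mul_eq_zero.mp this).resolve_right hb0)
        have e2 : a 3 ^ 2 = ω ^ 2 * a 0 ^ 2 := by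
          have : ((1 + d) * b 0) * (a 3 ^ 2 - ω ^ 2 * a 0 ^ 2) = 0 := by
            linear_combination (1 + d) * a 3 * g5 - a 0 * g6 - a 0 ^ 2 * b 0 * hω
          exact sub_eq_zero.mp ((mul_eq_zero.mp this).resolve_left (mul_ne_zero hγ hb0))
        refine ⟨Sum.inr (Sum.inl ⟨(a 2 / a 0, a 3 / a 0), ?_, ?_⟩), a 0, b 0, ha0, hb0, ?_, ?_⟩
        · dsimp only
          rw [div_pow, e1, div_self (pow_ne_zero 2 ha0)]
        · dsimp only
          rw [div_pow, e2, mul_div_assoc, div_self (pow_ne_zero 2 ha0), mul_one]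
        · ext i
          fin_cases i <;> simp [pt, ha1] <;> field_simp
        · ext i
          fin_cases i <;> simp [pt, sig, hb1] <;> field_simp
          · linear_combination -g1
          · linear_combination g5
    · exfalso
      have g1 := h.g1
      have g2 := h.g2
      have g3 := h.g3
      have g4 := h.g4
      have g5 := h.g5
      have g6 := h.g6
      rw [ha1] at g2 g3 g4 g6
      have e1 : (a 2 - a 3) * b 1 = 0 := by linear_combination g4 - g3
      have e2 : a 2 - a 3 = 0 := (mul_eq_zero.mp e1).resolve_right hb1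
      have e3 : a 2 * b 1 = 0 := by rw [e2] at g3; linear_combination g3
      have ha2 : a 2 = 0 := (mul_eq_zero.mp e3).resolve_right hb1
      have ha3 : a 3 = 0 := by linear_combination ha2 - e2
      have ha0 : a 0 ≠ 0 := by
        intro ha0
        apply ha
        ext i
        fin_cases i <;> assumption
      rw [ha2] at g2
      have hb0 : b 0 = 0 := by
        have : a 0 * b 0 = 0 := by linear_combination -g2
        exact (mul_eq_zero.mp this).resolve_left ha0
      rw [ha3, hb0] at g6
      have : d * a 0 * b 1 = 0 := by linear_combination g6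
      exact mul_ne_zero (mul_ne_zero hd ha0) hb1 this
  · by_cases hb1 : b 1 = 0
    · exfalso
      have g1 := h.g1
      have g2 := h.g2
      have g3 := h.g3
      have g4 := h.g4
      have g5 := h.g5
      have g6 := h.g6
      rw [hb1] at g2 g3 g4 g5 g6
      have hb2 : b 2 = 0 := by
        have : a 1 * b 2 = 0 := by linear_combination g3
        exact (mul_eq_zero.mp this).resolve_left ha1
      have hb3 : b 3 = 0 := by
        have : a 1 * b 3 = 0 := by linear_combination g4
        exact (mul_eq_zero.mp this).resolve_left ha1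
      have hb0 : b 0 ≠ 0 := by
        intro hb0
        apply hb
        ext i
        fin_cases i <;> assumption
      rw [hb2] at g2
      have ha0 : a 0 = 0 := by
        have : a 0 * b 0 = 0 := by linear_combination -g2
        exact (mul_eq_zero.mp this).resolve_right hb0
      rw [hb3, ha0] at g6
      have : d * a 1 * b 0 = 0 := by linear_combination g6
      exact mul_ne_zero (mul_ne_zero hd ha1) hb0 this
    · -- both second coordinates are nonzero
      obtain ⟨μ, hμ, hμ0, hμ2⟩ : ∃ μ : k, μ ≠ 0 ∧ b 0 = μ * a 0 ∧ b 2 = μ * a 2 := by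
        by_cases ha0 : a 0 = 0
        · have g1 := h.g1
          have g2 := h.g2
          rw [ha0] at g1 g2
          have ha2 : a 2 ≠ 0 := by
            intro ha2
            rw [ha2] at g2
            have : a 1 * b 1 = 0 := by linear_combination g2
            exact mul_ne_zero ha1 hb1 this
          have hb0 : b 0 = 0 := by
            have : a 2 * b 0 = 0 := by linear_combination g1
            exact (mul_eq_zero.mp this).resolve_left ha2
          have hb2 : b 2 ≠ 0 := by
            intro hb2
            rw [hb2] at g2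
            have : a 1 * b 1 = 0 := by linear_combination g2
            exact mul_ne_zero ha1 hb1 this
          exact ⟨b 2 / a 2, div_ne_zero hb2 ha2, by rw [hb0, ha0, mul_zero], by field_simp⟩
        · have g1 := h.g1
          have g2 := h.g2
          have hb0 : b 0 ≠ 0 := by
            intro hb0
            rw [hb0] at g1 g2
            have hb2 : b 2 = 0 := by
              have : a 0 * b 2 = 0 := by linear_combination -g1
              exact (mul_eq_zero.mp this).resolve_left ha0
            rw [hb2] at g2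
            have : a 1 * b 1 = 0 := by linear_combination g2
            exact mul_ne_zero ha1 hb1 this
          refine ⟨b 0 / a 0, div_ne_zero hb0 ha0, by field_simp, ?_⟩
          field_simp
          linear_combination -g1
      -- normalise
      obtain ⟨x, hx⟩ : ∃ x, x = a 0 / a 1 := ⟨_, rfl⟩
      obtain ⟨X, hX⟩ : ∃ X, X = a 2 / a 1 := ⟨_, rfl⟩
      obtain ⟨Z, hZ⟩ : ∃ Z, Z = (a 2 - a 3) / a 1 := ⟨_, rfl⟩
      obtain ⟨κ, hκ⟩ : ∃ κ, κ = b 1 / (μ * a 1) := ⟨_, rfl⟩
      have hμa : μ * a 1 ≠ 0 := mul_ne_zero hμ ha1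
      have ea0 : a 0 = a 1 * x := by rw [hx]; field_simp
      have ea2 : a 2 = a 1 * X := by rw [hX]; field_simp
      have ea3 : a 3 = a 1 * (X - Z) := by rw [hX, hZ]; field_simp; ring
      have eb0 : b 0 = μ * a 1 * x := by rw [hμ0, ea0]; ring
      have eb2 : b 2 = μ * a 1 * X := by rw [hμ2, ea2]; ring
      have eb1 : b 1 = μ * a 1 * κ := by rw [hκ]; field_simp
      have hκ0 : κ ≠ 0 := by
        intro h0
        rw [h0, mul_zero] at eb1
        exact hb1 eb1
      have eb3 : b 3 = μ * a 1 * (X - κ * Z) := by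
        have g3 := h.g3
        have g4 := h.g4
        rw [eb2, eb1, ea2, ea3] at g3
        rw [eb1, ea2, ea3] at g4
        have : a 1 * b 3 = a 1 * (μ * a 1 * (X - κ * Z)) := by
          linear_combination g4 - g3
        exact mul_left_cancel₀ ha1 this
      have hc : a 1 * (μ * a 1) ≠ 0 := mul_ne_zero ha1 hμa
      have e3 : (1 + κ) * X = (1 + d) * κ * Z := by
        have g3 := h.g3
        rw [eb2, eb1, ea2, ea3] at g3
        refine mul_left_cancel₀ hc ?_
        linear_combination g3
      have e2 : κ + X ^ 2 = x ^ 2 := by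
        have g2 := h.g2
        rw [eb2, eb1, ea2, eb0, ea0] at g2
        refine mul_left_cancel₀ hc ?_
        linear_combination g2
      have e5 : x * (2 * X - (1 + κ) * Z) = d * κ * Z := by
        have g5 := h.g5
        rw [eb3, eb1, ea2, eb0, ea0, ea3] at g5
        refine mul_left_cancel₀ hc ?_
        linear_combination g5
      have e6 : (1 + d) * ((X - Z) * (X - κ * Z)) + (1 - d) * x ^ 2 + d * ((κ + 1) * x) =
          (1 + d) * κ := by
        have g6 := h.g6
        rw [eb3, eb1, eb0, ea0, ea3] at g6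
        refine mul_left_cancel₀ hc ?_
        linear_combination g6
      by_cases hX0 : X = 0
      · -- the fixed point
        have hZ0 : Z = 0 := by
          rw [hX0, mul_zero] at e3
          exact (mul_eq_zero.mp e3.symm).resolve_left (mul_ne_zero hγ hκ0)
        have hκx : κ = x ^ 2 := by rw [hX0] at e2; linear_combination e2
        have hx0 : x ≠ 0 := by
          intro h0
          rw [h0] at hκx
          exact hκ0 (by rw [hκx]; ring)
        have hx1 : x = 1 := by
          rw [hX0, hZ0, hκx] at e6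
          have : (d * x) * (x - 1) ^ 2 = 0 := by linear_combination e6
          have h2 := (mul_eq_zero.mp this).resolve_left (mul_ne_zero hd hx0)
          exact sub_eq_zero.mp (pow_eq_zero_iff (two_ne_zero) |>.mp h2)
        have hκ1 : κ = 1 := by rw [hκx, hx1, one_pow]
        refine ⟨Sum.inl 0, a 1, μ * a 1, ha1, hμa, ?_, ?_⟩
        · ext i
          fin_cases i <;> simp [pt, ea0, ea2, ea3, hx1, hX0, hZ0]
        · ext i
          fin_cases i <;> simp [pt, sig, eb0, eb1, eb2, eb3, hx1, hX0, hZ0, hκ1]
      · refine ⟨Sum.inr (Sum.inr ⟨(κ, x, X, Z), hκ0, hX0, e3, e2, e5, e6⟩), a 1, μ * a 1 * κ, ha1,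
          mul_ne_zero hμa hκ0, ?_, ?_⟩
        · ext i
          fin_cases i <;> simp [pt, ea0, ea2, ea3]
        · ext i
          fin_cases i <;> simp [pt, sig, eb0, eb1, eb2, eb3] <;> field_simp

end Pool.Agent.MP_a6a2ff_al
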