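import Pool.Agent.MP_a6a2ff_al.GlobalDim

/-!
# Every module has projective dimension at most four
-/

set_option linter.unusedSimpArgs false
set_option linter.unusedVariables false
set_option linter.unusedSectionVars false

universe u

open CategoryTheory TensorProduct

namespace Pool.Agent.MP_a6a2ff_al

section Matrices

variable {k : Type*} [Field k] {R : Type*} [Ring R] [Algebra k R]

/-- second matrix, left form -/
def nat1 (d : k) (x y X T : R) : Matrix (Fin 4) (Fin 6) R :=
  !![X, 0, -x, -((1 + d) • T), 0, -((1 - d) • x + d • y);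
    0, X, y, 0, -((1 + d) • T), -(d • x - (1 + d) • y);
    -x, -(d • y), X, (d * (1 + d)) • y, -(((1 - d) * (1 + d)) • y), 0;
    0, (1 + d) • y, 0, -((1 + d) • x + (d * (1 + d)) • y), -((d * (1 + d)) • y), -((1 + d) • T)]

/-- third matrix, left form -/
def nat2 (d : k) (x y X T : R) : Matrix (Fin 6) (Fin 4) R :=
  !![-X, 0, x, 0;
    0, X, -(d • y), (1 + d) • y;
    -x, y, X, 0;
    (1 - d) • T, d • T, 0, (1 - d) • x + d • y;
    d • T, -((1 + d) • T), -y, d • x - d • y;
    (1 - d) • x + d • y, d • x - (1 + d) • y, 0, (1 + d) • T]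

end Matrices

section

variable {k : Type u} [Field k] {R : Type u} [Ring R] [Algebra k R] {d : k} {x y X T : R}

lemma cross01 : Cross k (mat0 x y X T) (mat0 x y X T) (mat1 d x y X T) (nat1 d x y X T) := by
  intro P _ _ β i j
  fin_cases i <;> fin_cases j <;>
    simp [Fin.sum_univ_succ, mat0, mat1, nat1] <;> module

lemma cross12 : Cross k (mat1 d x y X T) (nat1 d x y X T) (mat2 d x y X T) (nat2 d x y X T) := by
  intro P _ _ β i j
  fin_cases i <;> fin_cases j <;>
    simp [Fin.sum_univ_succ, mat1, nat1, mat2, nat2] <;> module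

lemma cross23 : Cross k (mat2 d x y X T) (nat2 d x y X T) (mat3 x y X T) (mat3 x y X T) := by
  intro P _ _ β i j
  fin_cases i <;> fin_cases j <;>
    simp [Fin.sum_univ_succ, mat2, nat2, mat3] <;> module

lemma natl01 (h : Rels d x y X T) (i : Fin 1) (j : Fin 6) :
    ∑ s, nat1 d x y X T s j * mat0 x y X T i s = 0 := by
  have h1 := h.h1
  have h2 := h.h2
  have h3 := h.h3
  have h4 := h.h4
  have h5 := h.h5
  have h6 := h.h6
  simp only [mul_add, add_mul, mul_sub, sub_mul, smul_add, smul_sub, mul_smul_comm,
    smul_mul_assoc] at h1 h2 h3 h4 h5 h6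
  fin_cases i
  fin_cases j <;>
    simp [Fin.sum_univ_succ, mat0, nat1, mul_add, add_mul, mul_sub,
      sub_mul, smul_add, smul_sub, mul_smul]
  · linear_combination (norm := module) h1
  · linear_combination (norm := module) h3 - (1 + d) • h3 + (1 + d) • h4
  · linear_combination (norm := module) h2
  · linear_combination (norm := module) -((1 + d) • (h5 - d • (h3 - h4)))
  · linear_combination (norm := module) -((1 + d) • ((1 - d) • h3 + d • h4))
  · linear_combination (norm := module) -h6

lemma natl12 (h : Rels d x y X T) (i : Fin 4) (j : Fin 4) :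
    ∑ s, nat2 d x y X T s j * nat1 d x y X T i s = 0 := by
  have h1 := h.h1
  have h2 := h.h2
  have h3 := h.h3
  have h4 := h.h4
  have h5 := h.h5
  have h6 := h.h6
  simp only [mul_add, add_mul, mul_sub, sub_mul, smul_add, smul_sub, mul_smul_comm,
    smul_mul_assoc] at h1 h2 h3 h4 h5 h6
  fin_cases i <;> fin_cases j <;>
    simp [Fin.sum_univ_succ, nat1, nat2, mul_add, add_mul, mul_sub,
      sub_mul, smul_add, smul_sub, mul_smul]
  · linear_combination (norm := module) -h2 - (1 - d) • h6
  · linear_combination (norm := module) -(d • h6)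
  · linear_combination (norm := module) -h1
  · linear_combination (norm := module) -((d + d ^ 2) • h4) - (1 - d ^ 2) • h5
  · linear_combination (norm := module) -(d • h6)
  · linear_combination (norm := module) h2 + (1 + d) • h6
  · linear_combination (norm := module) -(d • h3) + (1 + d) • h4
  · linear_combination (norm := module) (1 + d) • h3 + (d + d ^ 2) • h4 - (d + d ^ 2) • h5
  · linear_combination (norm := module) h1
  · linear_combination (norm := module) h3
  · linear_combination (norm := module) h2
  · module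
  · linear_combination (norm := module) -((d + d ^ 2) • h4) - (1 - d ^ 2) • h5
  · linear_combination (norm := module) (1 + d) ^ 2 • h4 - (d + d ^ 2) • h5
  · module
  · linear_combination (norm := module) -((1 + d) • h6)

lemma natl23 (h : Rels d x y X T) (i : Fin 6) (j : Fin 1) :
    ∑ s, mat3 x y X T s j * nat2 d x y X T i s = 0 := by
  have h1 := h.h1
  have h2 := h.h2
  have h3 := h.h3
  have h4 := h.h4
  have h5 := h.h5
  have h6 := h.h6
  simp only [mul_add, add_mul, mul_sub, sub_mul, smul_add, smul_sub, mul_smul_comm,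
    smul_mul_assoc] at h1 h2 h3 h4 h5 h6
  fin_cases j
  fin_cases i <;>
    simp [Fin.sum_univ_succ, nat2, mat3, mul_add, add_mul, mul_sub,
      sub_mul, smul_add, smul_sub, mul_smul]
  · linear_combination (norm := module) h1
  · linear_combination (norm := module) h3
  · linear_combination (norm := module) h2
  · linear_combination (norm := module) d • h4 + (1 - d) • h5
  · linear_combination (norm := module) -((1 + d) • h4) + d • h5
  · linear_combination (norm := module) h6

section LastMap

variable (k)
variable (M : Type u) [AddCommGroup M] [Module k M] [Module R M] [IsScalarTower k R M]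

/-- the evaluation map onto the module -/
noncomputable def evMap : ((Fin 1 → R) ⊗[k] M) →ₗ[R] M :=
  AlgebraTensorModule.lift
    { toFun := fun f =>
        { toFun := fun z => f 0 • z
          map_add' := fun a b => smul_add _ _ _
          map_smul' := fun c a => by
            rw [RingHom.id_apply, ← algebraMap_smul R c a, smul_smul, ← Algebra.commutes,
              ← smul_smul, algebraMap_smul] }
      map_add' := fun f g => LinearMap.ext fun z => by
        change (f 0 + g 0) • z = _
        rw [add_smul]; rfl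
      map_smul' := fun r f => LinearMap.ext fun z => by
        change (r * f 0) • z = r • (f 0 • z)
        rw [mul_smul] }

lemma evMap_tmul (f : Fin 1 → R) (z : M) : evMap k M (f ⊗ₜ z) = f 0 • z := rfl

lemma evMap_surjective : Function.Surjective (evMap (R := R) k M) := fun z =>
  ⟨(fun _ => 1) ⊗ₜ z, by rw [evMap_tmul, one_smul]⟩

lemma evMap_exact (h : IsPres k R d x y X T) :
    Function.Exact (dL k M (mat3 x y X T) - dR k M (mat3 x y X T)) (evMap (R := R) k M) := by
  have hgen : ∀ (i : Fin 4) (s : R) (z : M),
      (dL k M (mat3 x y X T) - dR k M (mat3 x y X T)) ((Pi.single i s : Fin 4 → R) ⊗ₜ z) =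
        (fun _ : Fin 1 => s * mat3 x y X T i 0) ⊗ₜ[k] z -
          (fun _ : Fin 1 => s) ⊗ₜ[k] (mat3 x y X T i 0 • z) := by
    intro i s z
    rw [LinearMap.sub_apply, dL_single, dR_single, Fin.sum_univ_one, Fin.sum_univ_one]
    congr 2
    · ext j; fin_cases j; rfl
    · ext j; fin_cases j; rfl
  have key : ∀ (r : R) (s : R) (z : M), ∃ t : (Fin 4 → R) ⊗[k] M,
      (dL k M (mat3 x y X T) - dR k M (mat3 x y X T)) t =
        (fun _ : Fin 1 => s * r) ⊗ₜ[k] z - (fun _ : Fin 1 => s) ⊗ₜ[k] (r • z) := by
    intro r
    have hr : r ∈ Algebra.adjoin k ({x, y, X, T} : Set R) := by rw [h.gen]; trivial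
    induction hr using Algebra.adjoin_induction with
    | mem w hw =>
      intro s z
      simp only [Set.mem_insert_iff, Set.mem_singleton_iff] at hw
      rcases hw with rfl | rfl | rfl | rfl
      · exact ⟨_, hgen 0 s z⟩
      · exact ⟨_, hgen 1 s z⟩
      · exact ⟨_, hgen 2 s z⟩
      · exact ⟨_, hgen 3 s z⟩
    | algebraMap c =>
      intro s z
      refine ⟨0, ?_⟩
      rw [map_zero, eq_comm, sub_eq_zero, algebraMap_smul, TensorProduct.tmul_smul,
        TensorProduct.smul_tmul', ← Algebra.commutes]
      congr 1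
      ext j
      exact (Algebra.smul_def c s).symm
    | add a b _ _ iha ihb =>
      intro s z
      obtain ⟨t1, h1⟩ := iha s z
      obtain ⟨t2, h2⟩ := ihb s z
      refine ⟨t1 + t2, ?_⟩
      rw [map_add, h1, h2, add_smul, tmul_add]
      have : (fun _ : Fin 1 => s * (a + b)) = (fun _ : Fin 1 => s * a) + fun _ => s * b := by
        ext j; exact mul_add _ _ _
      rw [this, add_tmul]
      abel
    | mul a b _ _ iha ihb =>
      intro s z
      obtain ⟨t1, h1⟩ := iha s (b • z)
      obtain ⟨t2, h2⟩ := ihb (s * a) z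
      refine ⟨t2 + t1, ?_⟩
      rw [map_add, h1, h2, mul_smul, ← mul_assoc]
      abel
  intro t
  constructor
  · intro ht
    have : ∀ t : (Fin 1 → R) ⊗[k] M, ∃ u,
        (dL k M (mat3 x y X T) - dR k M (mat3 x y X T)) u =
          t - (fun _ : Fin 1 => (1 : R)) ⊗ₜ[k] (evMap k M t) := by
      intro t
      induction t using TensorProduct.induction_on with
      | zero => exact ⟨0, by simp⟩
      | tmul f z =>
        obtain ⟨u, hu⟩ := key (f 0) 1 z
        refine ⟨u, ?_⟩
        rw [hu, evMap_tmul, one_mul]
        congr 2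
        ext j; fin_cases j; rfl
      | add a b ha hb =>
        obtain ⟨u, hu⟩ := ha
        obtain ⟨v, hv⟩ := hb
        refine ⟨u + v, ?_⟩
        rw [map_add, hu, hv, map_add, tmul_add]
        abel
    obtain ⟨u, hu⟩ := this t
    rw [ht, tmul_zero, sub_zero] at hu
    exact ⟨u, hu⟩
  · rintro ⟨u, rfl⟩
    refine hom_ext_single (F := (((evMap k M).comp (dL k M (mat3 x y X T) -
      dR k M (mat3 x y X T))).toAddMonoidHom : _ →+ M)) (G := 0) (fun i s z => ?_) u
    have : evMap k M ((dL k M (mat3 x y X T) - dR k M (mat3 x y X T))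
        ((Pi.single i s : Fin 4 → R) ⊗ₜ z)) = 0 := by
      rw [hgen, map_sub, evMap_tmul, evMap_tmul, mul_smul, sub_self]
    exact this

end LastMap

theorem IsPres.pd_le (h : IsPres k R d x y X T) {ω : k} (hγ : 1 + d ≠ 0)
    (hω : ω ^ 2 * (1 + d) = 1 - d) (M : ModuleCat.{u} R) : HasProjectiveDimensionLE M 4 := by
  let := h.gradedAlgebra
  let : Module k M := Module.compHom M (algebraMap k R)
  have : IsScalarTower k R M := IsScalarTower.of_algebraMap_smul fun _ _ => rfl
  have g0 : ∀ i j, mat0 x y X T i j ∈ powGrading k x y X T 1 := fun i j =>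
    mem_one_of_mem (mat0_mem i j)
  have g1 : ∀ i j, mat1 d x y X T i j ∈ powGrading k x y X T 1 := fun i j =>
    mem_one_of_mem (mat1_mem i j)
  have g2 : ∀ i j, mat2 d x y X T i j ∈ powGrading k x y X T 1 := fun i j =>
    mem_one_of_mem (mat2_mem i j)
  have g3 : ∀ i j, mat3 x y X T i j ∈ powGrading k x y X T 1 := fun i j =>
    mem_one_of_mem (mat3_mem i j)
  have e0 := injective_perturbed (M := M) (powGrading k x y X T) (mat0 x y X T) (mat0 x y X T) g0
    (h.injective0 hγ hω)
  have e1 := exact_perturbed (M := M) (powGrading k x y X T) (mat0 x y X T) (mat0 x y X T)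
    (mat1 d x y X T) (nat1 d x y X T) g0 g1 (h.exact01 hγ hω) (mat0_mul_mat1 h.rel)
    (natl01 h.rel) cross01 1 (by norm_num)
  have e2 := exact_perturbed (M := M) (powGrading k x y X T) (mat1 d x y X T) (nat1 d x y X T)
    (mat2 d x y X T) (nat2 d x y X T) g1 g2 (h.exact12 hγ hω) (mat1_mul_mat2 h.rel)
    (natl12 h.rel) cross12 (-1) (by norm_num)
  have e3 := exact_perturbed (M := M) (powGrading k x y X T) (mat2 d x y X T) (nat2 d x y X T)
    (mat3 x y X T) (mat3 x y X T) g2 g3 h.exact23 (mat2_mul_mat3 h.rel)
    (natl23 h.rel) cross23 1 (by norm_num)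
  have e4 := evMap_exact k M h
  simp only [one_smul, neg_smul, sub_neg_eq_add, ← sub_eq_add_neg] at e1 e2 e3
  exact pd_le_four _ _ _ _ _ e0 e1 e2 e3 e4 (evMap_surjective k M)

end

end Pool.Agent.MP_a6a2ff_al
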