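import Pool.Agent.MP_a6a2ff_al.GorExt

/-!
# Global dimension: a resolution of an arbitrary module
-/

set_option linter.unusedSimpArgs false
set_option linter.unusedVariables false
set_option linter.unusedSectionVars false

universe u

open CategoryTheory TensorProduct

namespace Pool.Agent.MP_a6a2ff_al

section Perturb

/-- Perturbation lemma. -/
lemma perturb {L N P : Type*} [AddCommGroup L] [AddCommGroup N] [AddCommGroup P]
    (pL : ℕ → L →+ L) (pN : ℕ → N →+ N) (pP : ℕ → P →+ P)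
    (Dl Dr : L →+ N) (Dl' Dr' : N →+ P)
    (hLorth : ∀ i j l, i ≠ j → pL i (pL j l) = 0)
    (hLidem : ∀ i l, pL i (pL i l) = pL i l)
    (hNidem : ∀ i n, pN i (pN i n) = pN i n)
    (hNfin : ∀ n, ∃ m, ∀ j, m ≤ j → pN j n = 0)
    (hNzero : ∀ n, (∀ j, pN j n = 0) → n = 0)
    (hN0 : ∀ n, pN 0 n = 0)
    (h1 : ∀ j l, pN (j + 1) (Dl l) = Dl (pL j l))
    (h2 : ∀ j l, pN j (Dr l) = Dr (pL j l))
    (h3 : ∀ j n, pP (j + 1) (Dl' n) = Dl' (pN j n))
    (h4 : ∀ j n, pP j (Dr' n) = Dr' (pN j n))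
    (hex : ∀ n, Dl' n = 0 → ∃ l, Dl l = n)
    (hcomp : ∀ l, Dl' (Dl l + Dr l) + Dr' (Dl l + Dr l) = 0)
    (n : N) (hn : Dl' n + Dr' n = 0) : ∃ l, Dl l + Dr l = n := by
  obtain ⟨m, hm⟩ := hNfin n
  induction m generalizing n with
  | zero => exact ⟨0, by rw [hNzero n fun j => hm j (Nat.zero_le j)]; simp⟩
  | succ m ih =>
    have e1 : Dl' (pN m n) = 0 := by
      have := congrArg (pP (m + 1)) hn
      rw [map_add, map_zero, h3, h4, hm (m + 1) le_rfl, map_zero, add_zero] at this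
      exact this
    obtain ⟨l, hl⟩ := hex _ e1
    cases m with
    | zero =>
      refine ih n hn fun j _ => ?_
      rcases Nat.eq_zero_or_pos j with rfl | hj
      · exact hN0 n
      · exact hm j (by omega)
    | succ m =>
      have e2 : Dl (pL m l) = pN (m + 1) n := by rw [← h1, hl, hNidem]
      obtain ⟨l'', hl''⟩ := ih (n - (Dl (pL m l) + Dr (pL m l))) (by
        have := hcomp (pL m l)
        rw [map_sub, map_sub, sub_add_sub_comm, hn, this, sub_zero]) (by
        intro j hj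
        obtain ⟨j, rfl⟩ : ∃ i, j = i + 1 := ⟨j - 1, by omega⟩
        rw [map_sub, map_add, h1, h2]
        rw [hLorth (j + 1) m l (by omega), map_zero, add_zero]
        rcases Nat.eq_or_lt_of_le (Nat.le_of_succ_le_succ hj) with h | h
        · subst h
          rw [hLidem, e2, sub_self]
        · rw [hLorth j m l (by omega), map_zero, hm (j + 1) (by omega), sub_zero])
      refine ⟨pL m l + l'', ?_⟩
      rw [map_add, map_add, add_add_add_comm, hl'']
      abel

end Perturb

section Tensor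

variable {k : Type u} [Field k] {R : Type u} [Ring R] [Algebra k R]
variable {M : Type u} [AddCommGroup M] [Module k M] [Module R M] [IsScalarTower k R M]

/-- the left differential -/
noncomputable def dL (k : Type u) [Field k] {R : Type u} [Ring R] [Algebra k R]
    (M : Type u) [AddCommGroup M] [Module k M] {m n : ℕ} (A : Matrix (Fin m) (Fin n) R) :
    ((Fin m → R) ⊗[k] M) →ₗ[R] ((Fin n → R) ⊗[k] M) :=
  AlgebraTensorModule.map A.vecMulLinear LinearMap.id

/-- the right differential -/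
noncomputable def dR (k : Type u) [Field k] {R : Type u} [Ring R] [Algebra k R]
    (M : Type u) [AddCommGroup M] [Module k M] [Module R M] [IsScalarTower k R M]
    {m n : ℕ} (B : Matrix (Fin m) (Fin n) R) :
    ((Fin m → R) ⊗[k] M) →ₗ[R] ((Fin n → R) ⊗[k] M) :=
  ∑ i, ∑ j, AlgebraTensorModule.map (LinearMap.single R (fun _ => R) j ∘ₗ LinearMap.proj i)
    (Algebra.lsmul k k M (B i j))

lemma dL_tmul {m n : ℕ} (A : Matrix (Fin m) (Fin n) R) (f : Fin m → R) (z : M) :
    dL k M A (f ⊗ₜ z) = (Matrix.vecMul f A) ⊗ₜ z := rfl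

lemma dR_tmul {m n : ℕ} (B : Matrix (Fin m) (Fin n) R) (f : Fin m → R) (z : M) :
    dR k M B (f ⊗ₜ z) = ∑ i, ∑ j, (Pi.single j (f i) : Fin n → R) ⊗ₜ[k] (B i j • z) := by
  unfold dR
  rw [LinearMap.sum_apply]
  refine Finset.sum_congr rfl fun i _ => ?_
  rw [LinearMap.sum_apply]
  refine Finset.sum_congr rfl fun j _ => ?_
  rfl

lemma tmul_eq_sum {m : ℕ} (f : Fin m → R) (z : M) :
    f ⊗ₜ[k] z = ∑ i, (Pi.single i (f i) : Fin m → R) ⊗ₜ[k] z := by
  rw [← TensorProduct.sum_tmul, Finset.univ_sum_single]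

lemma hom_ext_single {m : ℕ} {P : Type*} [AddCommGroup P]
    {F G : ((Fin m → R) ⊗[k] M) →+ P}
    (h : ∀ (i : Fin m) (r : R) (z : M), F ((Pi.single i r : Fin m → R) ⊗ₜ z) =
      G ((Pi.single i r : Fin m → R) ⊗ₜ z)) (t : (Fin m → R) ⊗[k] M) : F t = G t := by
  induction t using TensorProduct.induction_on with
  | zero => simp
  | tmul f z =>
    rw [tmul_eq_sum, map_sum, map_sum]
    exact Finset.sum_congr rfl fun i _ => h i (f i) z
  | add a b ha hb => rw [map_add, map_add, ha, hb]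

lemma dL_single {m n : ℕ} (A : Matrix (Fin m) (Fin n) R) (i : Fin m) (r : R) (z : M) :
    dL k M A ((Pi.single i r : Fin m → R) ⊗ₜ z) =
      ∑ j, (Pi.single j (r * A i j) : Fin n → R) ⊗ₜ[k] z := by
  rw [dL_tmul, tmul_eq_sum]
  refine Finset.sum_congr rfl fun j _ => ?_
  congr 2
  simp [Matrix.vecMul, dotProduct, Pi.single_apply]

lemma dR_single {m n : ℕ} (B : Matrix (Fin m) (Fin n) R) (i : Fin m) (r : R) (z : M) :
    dR k M B ((Pi.single i r : Fin m → R) ⊗ₜ z) =
      ∑ j, (Pi.single j r : Fin n → R) ⊗ₜ[k] (B i j • z) := by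
  rw [dR_tmul, Finset.sum_eq_single i]
  · simp
  · intro b _ hb
    simp [Pi.single_eq_of_ne hb]
  · simp

lemma dL_dL {l m n : ℕ} (A : Matrix (Fin l) (Fin m) R) (A' : Matrix (Fin m) (Fin n) R)
    (h : A * A' = 0) (t : (Fin l → R) ⊗[k] M) : dL k M A' (dL k M A t) = 0 := by
  induction t using TensorProduct.induction_on with
  | zero => simp
  | tmul f z =>
    rw [dL_tmul, dL_tmul, Matrix.vecMul_vecMul, h, Matrix.vecMul_zero, zero_tmul]
  | add a b ha hb => rw [map_add, map_add, ha, hb, add_zero]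

lemma dR_dR {l m n : ℕ} (B : Matrix (Fin l) (Fin m) R) (B' : Matrix (Fin m) (Fin n) R)
    (h : ∀ i j, ∑ s, B' s j * B i s = 0) (t : (Fin l → R) ⊗[k] M) :
    dR k M B' (dR k M B t) = 0 := by
  refine hom_ext_single (F := ((dR k M B').comp (dR k M B)).toAddMonoidHom) (G := 0) ?_ t
  intro i r z
  change dR k M B' (dR k M B _) = 0
  rw [dR_single, map_sum]
  simp_rw [dR_single]
  rw [Finset.sum_comm]
  refine Finset.sum_eq_zero fun j _ => ?_
  rw [← TensorProduct.tmul_sum]
  simp_rw [smul_smul]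
  rw [← Finset.sum_smul, h, zero_smul, tmul_zero]

/-- the condition for commutation of left and right differentials -/
def Cross (k : Type u) [Field k] {R : Type u} [Ring R] [Algebra k R] {l m n : ℕ}
    (A B : Matrix (Fin l) (Fin m) R) (A' B' : Matrix (Fin m) (Fin n) R) : Prop :=
  ∀ (P : Type u) [AddCommGroup P] [Module k P] (β : R →ₗ[k] R →ₗ[k] P) (i : Fin l) (j : Fin n),
    ∑ s, β (A' s j) (B i s) = ∑ s, β (A i s) (B' s j)

/-- the bilinear map used in the commutation -/
noncomputable def crossMap {n : ℕ} (j : Fin n) (r : R) (z : M) :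
    R →ₗ[k] R →ₗ[k] ((Fin n → R) ⊗[k] M) :=
  LinearMap.mk₂ k (fun a b => (Pi.single j (r * a) : Fin n → R) ⊗ₜ[k] (b • z))
    (fun a a' b => by rw [mul_add, Pi.single_add, add_tmul])
    (fun c a b => by rw [mul_smul_comm, Pi.single_smul, smul_tmul'])
    (fun a b b' => by rw [add_smul, tmul_add])
    (fun c a b => by rw [smul_assoc, tmul_smul])

lemma dL_dR {l m n : ℕ} (A B : Matrix (Fin l) (Fin m) R) (A' B' : Matrix (Fin m) (Fin n) R)
    (h : Cross k A B A' B') (t : (Fin l → R) ⊗[k] M) :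
    dL k M A' (dR k M B t) = dR k M B' (dL k M A t) := by
  refine hom_ext_single (F := ((dL k M A').comp (dR k M B)).toAddMonoidHom)
    (G := ((dR k M B').comp (dL k M A)).toAddMonoidHom) ?_ t
  intro i r z
  change dL k M A' (dR k M B _) = dR k M B' (dL k M A _)
  rw [dR_single, dL_single, map_sum, map_sum]
  simp_rw [dR_single, dL_single]
  rw [Finset.sum_comm, Finset.sum_comm (s := Finset.univ (α := Fin m))]
  refine Finset.sum_congr rfl fun j _ => ?_
  exact h _ (crossMap j r z) i j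

/-- the componentwise projections -/
noncomputable def prT (k : Type u) [Field k] {R : Type u} [Ring R] [Algebra k R]
    (𝒜 : ℕ → Submodule k R) [GradedAlgebra 𝒜] (M : Type u) [AddCommGroup M] [Module k M]
    (n : ℕ) (j : ℕ) : ((Fin n → R) ⊗[k] M) →ₗ[k] ((Fin n → R) ⊗[k] M) :=
  LinearMap.rTensor M ((pr 𝒜 j).compLeft (Fin n))

variable (𝒜 : ℕ → Submodule k R) [GradedAlgebra 𝒜]

lemma prT_tmul {n : ℕ} (j : ℕ) (f : Fin n → R) (z : M) :
    prT k 𝒜 M n j (f ⊗ₜ z) = (fun i => pr 𝒜 j (f i)) ⊗ₜ z := rfl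

lemma pr_pr (j : ℕ) (a : R) : pr 𝒜 j (pr 𝒜 j a) = pr 𝒜 j a :=
  pr_of_mem 𝒜 (pr_mem 𝒜 j a)

lemma pr_pr_ne (i j : ℕ) (h : i ≠ j) (a : R) : pr 𝒜 i (pr 𝒜 j a) = 0 :=
  pr_of_mem_ne 𝒜 (pr_mem 𝒜 j a) h.symm

lemma prT_prT {n : ℕ} (j : ℕ) (t : (Fin n → R) ⊗[k] M) :
    prT k 𝒜 M n j (prT k 𝒜 M n j t) = prT k 𝒜 M n j t := by
  induction t using TensorProduct.induction_on with
  | zero => simp
  | tmul f z => simp only [prT_tmul, pr_pr]
  | add a b ha hb => rw [map_add, map_add, ha, hb]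

lemma prT_prT_ne {n : ℕ} (i j : ℕ) (h : i ≠ j) (t : (Fin n → R) ⊗[k] M) :
    prT k 𝒜 M n i (prT k 𝒜 M n j t) = 0 := by
  induction t using TensorProduct.induction_on with
  | zero => simp
  | tmul f z =>
    simp only [prT_tmul, pr_pr_ne 𝒜 i j h]
    exact zero_tmul _ _
  | add a b ha hb => rw [map_add, map_add, ha, hb, add_zero]

lemma prT_zero {n : ℕ} (t : (Fin n → R) ⊗[k] M) : prT k 𝒜 M n 0 t = 0 := by
  induction t using TensorProduct.induction_on with
  | zero => simp
  | tmul f z =>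
    rw [prT_tmul]
    exact zero_tmul _ _
  | add a b ha hb => rw [map_add, ha, hb, add_zero]

lemma exists_sum_pr {n : ℕ} (f : Fin n → R) :
    ∃ m, (∀ m', m ≤ m' → ∑ j ∈ Finset.range m', (fun i => pr 𝒜 j (f i)) = f) ∧
      ∀ j, m ≤ j → (fun i => pr 𝒜 j (f i)) = 0 := by
  classical
  let s : Finset ℕ := Finset.univ.biUnion fun i => (DirectSum.decompose 𝒜 (f i)).support
  obtain ⟨m, hm⟩ := s.exists_nat_subset_range
  have hz : ∀ j, m ≤ j → ∀ i, pr 𝒜 (j + 1) (f i) = 0 := by
    intro j hj i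
    change GradedAlgebra.proj 𝒜 j (f i) = 0
    rw [GradedAlgebra.proj_apply]
    have : j ∉ (DirectSum.decompose 𝒜 (f i)).support := by
      intro h
      have h2 := hm (Finset.mem_biUnion.mpr ⟨i, Finset.mem_univ i, h⟩)
      rw [Finset.mem_range] at h2
      omega
    rw [DFinsupp.notMem_support_iff.mp this]
    rfl
  refine ⟨m + 1, ?_, ?_⟩
  · intro m' hm'
    obtain ⟨m', rfl⟩ : ∃ i, m' = i + 1 := ⟨m' - 1, by omega⟩
    ext i
    rw [Finset.sum_apply, Finset.sum_range_succ']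
    have h0 : pr 𝒜 0 (f i) = 0 := rfl
    rw [h0, add_zero]
    change ∑ j ∈ Finset.range m', GradedAlgebra.proj 𝒜 j (f i) = f i
    conv_rhs => rw [← DirectSum.sum_support_decompose 𝒜 (f i)]
    simp only [GradedAlgebra.proj_apply]
    symm
    refine Finset.sum_subset ?_ ?_
    · refine (Finset.subset_biUnion_of_mem (fun i => (DirectSum.decompose 𝒜 (f i)).support)
        (Finset.mem_univ i)).trans (hm.trans ?_)
      exact Finset.range_mono (by omega)
    · intro j _ hj
      have := DFinsupp.notMem_support_iff.mp hj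
      rw [this]; rfl
  · intro j hj
    obtain ⟨j, rfl⟩ : ∃ i, j = i + 1 := ⟨j - 1, by omega⟩
    ext i
    exact hz j (by omega) i

lemma exists_sum_prT {n : ℕ} (t : (Fin n → R) ⊗[k] M) :
    ∃ m, (∀ m', m ≤ m' → ∑ j ∈ Finset.range m', prT k 𝒜 M n j t = t) ∧
      ∀ j, m ≤ j → prT k 𝒜 M n j t = 0 := by
  induction t using TensorProduct.induction_on with
  | zero => exact ⟨0, by simp, by simp⟩
  | tmul f z =>
    obtain ⟨m, h1, h2⟩ := exists_sum_pr 𝒜 f
    refine ⟨m, fun m' hm' => ?_, fun j hj => ?_⟩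
    · simp only [prT_tmul]
      rw [← TensorProduct.sum_tmul, h1 m' hm']
    · rw [prT_tmul, h2 j hj, zero_tmul]
  | add a b ha hb =>
    obtain ⟨m1, h1, h1'⟩ := ha
    obtain ⟨m2, h2, h2'⟩ := hb
    refine ⟨max m1 m2, fun m' hm' => ?_, fun j hj => ?_⟩
    · simp only [map_add]
      rw [Finset.sum_add_distrib, h1 m' (le_of_max_le_left hm'), h2 m' (le_of_max_le_right hm')]
    · rw [map_add, h1' j (le_of_max_le_left hj), h2' j (le_of_max_le_right hj), add_zero]

lemma eq_zero_of_prT {n : ℕ} (t : (Fin n → R) ⊗[k] M) (h : ∀ j, prT k 𝒜 M n j t = 0) :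
    t = 0 := by
  obtain ⟨m, h1, -⟩ := exists_sum_prT 𝒜 t
  rw [← h1 m le_rfl]
  exact Finset.sum_eq_zero fun j _ => h j

lemma prT_dL {m n : ℕ} (A : Matrix (Fin m) (Fin n) R) (hA : ∀ i j, A i j ∈ 𝒜 1) (j : ℕ)
    (t : (Fin m → R) ⊗[k] M) :
    prT k 𝒜 M n (j + 1) (dL k M A t) = dL k M A (prT k 𝒜 M m j t) := by
  induction t using TensorProduct.induction_on with
  | zero => simp
  | tmul f z =>
    rw [dL_tmul, prT_tmul, prT_tmul, dL_tmul, pr_vecMul 𝒜 A hA]
  | add a b ha hb => simp only [map_add, ha, hb]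

lemma prT_dR {m n : ℕ} (B : Matrix (Fin m) (Fin n) R) (j : ℕ)
    (t : (Fin m → R) ⊗[k] M) :
    prT k 𝒜 M n j (dR k M B t) = dR k M B (prT k 𝒜 M m j t) := by
  induction t using TensorProduct.induction_on with
  | zero => simp
  | tmul f z =>
    rw [dR_tmul, prT_tmul, dR_tmul]
    simp only [map_sum, prT_tmul]
    refine Finset.sum_congr rfl fun i _ => Finset.sum_congr rfl fun l _ => ?_
    congr 1
    ext s
    by_cases hs : s = l
    · subst hs; simp
    · simp [Pi.single_eq_of_ne hs]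
  | add a b ha hb => simp only [map_add, ha, hb]

/-- exactness of the perturbed complex -/
theorem exact_perturbed {l m n : ℕ} (A B : Matrix (Fin l) (Fin m) R)
    (A' B' : Matrix (Fin m) (Fin n) R) (hA : ∀ i j, A i j ∈ 𝒜 1) (hA' : ∀ i j, A' i j ∈ 𝒜 1)
    (hex : Function.Exact A.vecMulLinear A'.vecMulLinear) (hAA : A * A' = 0)
    (hBB : ∀ i j, ∑ s, B' s j * B i s = 0) (hc : Cross k A B A' B') (ε : ℤ) (hε : ε * ε = 1) :
    Function.Exact (dL k M A + ε • dR k M B) (dL k M A' - ε • dR k M B') := by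
  have hcomp : ∀ t, (dL k M A' - ε • dR k M B') ((dL k M A + ε • dR k M B) t) = 0 := by
    intro t
    simp only [LinearMap.add_apply, LinearMap.sub_apply, LinearMap.smul_apply, map_add,
      map_zsmul, dL_dL A A' hAA, dR_dR B B' hBB, dL_dR A B A' B' hc]
    simp
  intro t
  constructor
  · intro ht
    have hexT : Function.Exact (dL k M A) (dL k M A') := by
      have := Module.Flat.rTensor_exact (R := k) M
        (f := A.vecMulLinear.restrictScalars k) (g := A'.vecMulLinear.restrictScalars k) hex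
      exact this
    obtain ⟨t', ht'⟩ := perturb (L := (Fin l → R) ⊗[k] M) (N := (Fin m → R) ⊗[k] M)
      (P := (Fin n → R) ⊗[k] M)
      (fun j => (prT k 𝒜 M l j).toAddMonoidHom) (fun j => (prT k 𝒜 M m j).toAddMonoidHom)
      (fun j => (prT k 𝒜 M n j).toAddMonoidHom)
      (dL k M A).toAddMonoidHom (ε • dR k M B).toAddMonoidHom
      (dL k M A').toAddMonoidHom (-(ε • dR k M B')).toAddMonoidHom
      (fun i j t h => prT_prT_ne 𝒜 i j h t) (fun j t => prT_prT 𝒜 j t)
      (fun j t => prT_prT 𝒜 j t)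
      (fun t => by obtain ⟨m, -, h⟩ := exists_sum_prT 𝒜 t; exact ⟨m, h⟩)
      (fun t h => eq_zero_of_prT 𝒜 t h) (fun t => prT_zero 𝒜 t)
      (fun j t => prT_dL 𝒜 A hA j t)
      (fun j t => by
        change prT k 𝒜 M m j (ε • dR k M B t) = ε • dR k M B (prT k 𝒜 M l j t)
        rw [map_zsmul, prT_dR])
      (fun j t => prT_dL 𝒜 A' hA' j t)
      (fun j t => by
        change prT k 𝒜 M n j (-(ε • dR k M B' t)) = -(ε • dR k M B' (prT k 𝒜 M m j t))
        rw [map_neg, map_zsmul, prT_dR])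
      (fun t h => (hexT t).mp h)
      (fun t => by
        have := hcomp t
        change dL k M A' (dL k M A t + ε • dR k M B t) +
          -(ε • dR k M B' (dL k M A t + ε • dR k M B t)) = 0
        rw [← sub_eq_add_neg]
        exact this)
      t (by
        change dL k M A' t + -(ε • dR k M B' t) = 0
        rw [← sub_eq_add_neg]
        exact ht)
    exact ⟨t', ht'⟩
  · rintro ⟨t', rfl⟩
    exact hcomp t'

theorem injective_perturbed {m n : ℕ} (A B : Matrix (Fin m) (Fin n) R)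
    (hA : ∀ i j, A i j ∈ 𝒜 1)
    (hinj : Function.Injective A.vecMulLinear) :
    Function.Injective (dL k M A + dR k M B) := by
  have hinjT : Function.Injective (dL k M A) := by
    have := Module.Flat.rTensor_preserves_injective_linearMap (R := k) (M := M)
      (A.vecMulLinear.restrictScalars k) hinj
    exact this
  rw [injective_iff_map_eq_zero]
  intro t ht
  obtain ⟨t', ht'⟩ := perturb (L := PUnit.{1}) (N := (Fin m → R) ⊗[k] M)
      (P := (Fin n → R) ⊗[k] M)
      (fun j => 0) (fun j => (prT k 𝒜 M m j).toAddMonoidHom)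
      (fun j => (prT k 𝒜 M n j).toAddMonoidHom) 0 0
      (dL k M A).toAddMonoidHom (dR k M B).toAddMonoidHom
      (fun i j t h => rfl) (fun j t => rfl)
      (fun j t => prT_prT 𝒜 j t)
      (fun t => by obtain ⟨m, -, h⟩ := exists_sum_prT 𝒜 t; exact ⟨m, h⟩)
      (fun t h => eq_zero_of_prT 𝒜 t h) (fun t => prT_zero 𝒜 t)
      (fun j t => by simp)
      (fun j t => by simp)
      (fun j t => prT_dL 𝒜 A hA j t)
      (fun j t => prT_dR 𝒜 B j t)
      (fun t h => ⟨0, by
        have : t = 0 := (injective_iff_map_eq_zero (dL k M A)).mp hinjT t h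
        rw [this]; simp⟩)
      (fun t => by simp) t ht
  rw [← ht']
  simp

end Tensor

end Pool.Agent.MP_a6a2ff_al
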