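import Pool.Agent.MP_a6a2ff_al.Gorenstein

/-!
# Computation of `Ext(k, R)`
-/

set_option linter.unusedSimpArgs false
set_option linter.unusedVariables false

universe u

open CategoryTheory Abelian

namespace Pool.Agent.MP_a6a2ff_al

section General

variable {R : Type u} [Ring R]

lemma hom_eq_sum {m : ℕ} (ψ : (Fin m → R) →ₗ[R] R) (a : Fin m → R) :
    ψ a = ∑ i, a i * ψ (Pi.single i 1) := by
  rw [LinearMap.pi_apply_eq_sum_univ]
  refine Finset.sum_congr rfl fun i _ => ?_
  rw [smul_eq_mul]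
  congr 2
  ext j
  simp [Pi.single_apply, eq_comm]

lemma dual_exact_of_mulVec {l m n : ℕ} (A : Matrix (Fin l) (Fin m) R)
    (B : Matrix (Fin m) (Fin n) R)
    (hdual : ∀ b : Fin m → R, A.mulVec b = 0 → ∃ c : Fin n → R, b = B.mulVec c)
    (ψ : (Fin m → R) →ₗ[R] R) (hψ : ψ ∘ₗ A.vecMulLinear = 0) :
    ∃ χ : (Fin n → R) →ₗ[R] R, ψ = χ ∘ₗ B.vecMulLinear := by
  obtain ⟨c, hc⟩ := hdual (fun i => ψ (Pi.single i 1)) (by
    ext i
    have h1 := LinearMap.congr_fun hψ (Pi.single i 1)
    rw [LinearMap.comp_apply, Matrix.vecMulLinear_apply, hom_eq_sum] at h1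
    simpa [Matrix.mulVec, dotProduct, Matrix.vecMul, Pi.single_apply] using h1)
  refine ⟨Fintype.linearCombination R c, ?_⟩
  refine LinearMap.ext fun a => ?_
  rw [hom_eq_sum, LinearMap.comp_apply, Fintype.linearCombination_apply,
    Matrix.vecMulLinear_apply]
  have h2 : ∑ i, a i * ψ (Pi.single i 1) = dotProduct a (B.mulVec c) := by
    rw [← hc]; rfl
  rw [h2, Matrix.dotProduct_mulVec]
  rfl

lemma extend_of_dual_exact {Q' Q P M Y : Type u} [AddCommGroup Q'] [AddCommGroup Q]
    [AddCommGroup P] [AddCommGroup M] [AddCommGroup Y] [Module R Q'] [Module R Q] [Module R P]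
    [Module R M] [Module R Y] (D' : Q' →ₗ[R] Q) (D : Q →ₗ[R] P) (g : P →ₗ[R] M)
    (hDg : Function.Exact D g) (hDD : D ∘ₗ D' = 0)
    (hdual : ∀ ψ : Q →ₗ[R] Y, ψ ∘ₗ D' = 0 → ∃ χ : P →ₗ[R] Y, ψ = χ ∘ₗ D)
    (φ : LinearMap.ker g →ₗ[R] Y) : ∃ ψ : P →ₗ[R] Y, ψ ∘ₗ (LinearMap.ker g).subtype = φ := by
  obtain ⟨χ, hχ⟩ := hdual (φ ∘ₗ kerMap D g hDg) (by
    refine LinearMap.ext fun q => ?_
    have : kerMap D g hDg (D' q) = 0 := Subtype.ext (LinearMap.congr_fun hDD q)
    rw [LinearMap.comp_apply, LinearMap.comp_apply, this, map_zero, LinearMap.zero_apply])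
  refine ⟨χ, LinearMap.ext fun z => ?_⟩
  obtain ⟨q, rfl⟩ := kerMap_surjective D g hDg z
  exact (LinearMap.congr_fun hχ q).symm

lemma exact_kerMap {Q' Q P M : Type u} [AddCommGroup Q'] [AddCommGroup Q]
    [AddCommGroup P] [AddCommGroup M] [Module R Q'] [Module R Q] [Module R P]
    [Module R M] (D' : Q' →ₗ[R] Q) (D : Q →ₗ[R] P) (g : P →ₗ[R] M)
    (hDg : Function.Exact D g) (hD : Function.Exact D' D) :
    Function.Exact D' (kerMap D g hDg) := by
  intro q
  rw [← hD q]
  constructor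
  · intro h; exact congrArg Subtype.val h
  · intro h; exact Subtype.ext h

end General

section Aug

variable {k : Type u} [Field k] {R : Type u} [Ring R] [Algebra k R] {d ω : k} {x y X T : R}

/-- the augmentation -/
lemma IsPres.exists_aug (h : IsPres k R d x y X T) :
    ∃ ε : R →ₐ[k] k, ε x = 0 ∧ ε y = 0 ∧ ε X = 0 ∧ ε T = 0 :=
  h.univ k 0 0 0 0 ⟨by simp, by simp, by simp, by simp, by simp, by simp⟩

lemma IsPres.aug_right (h : IsPres k R d x y X T) (ε : R →ₐ[k] k) (b : R) :
    ∃ c : Fin 4 → R, b - algebraMap k R (ε b) =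
      (x - algebraMap k R (ε x)) * c 0 + (y - algebraMap k R (ε y)) * c 1 +
      (X - algebraMap k R (ε X)) * c 2 + (T - algebraMap k R (ε T)) * c 3 := by
  have hb : b ∈ Algebra.adjoin k ({x, y, X, T} : Set R) := by rw [h.gen]; trivial
  induction hb using Algebra.adjoin_induction with
  | mem z hz =>
    simp only [Set.mem_insert_iff, Set.mem_singleton_iff] at hz
    rcases hz with rfl | rfl | rfl | rfl
    · exact ⟨![1, 0, 0, 0], by simp⟩
    · exact ⟨![0, 1, 0, 0], by simp⟩
    · exact ⟨![0, 0, 1, 0], by simp⟩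
    · exact ⟨![0, 0, 0, 1], by simp⟩
  | algebraMap r => exact ⟨0, by simp⟩
  | add a b _ _ iha ihb =>
    obtain ⟨c, hc⟩ := iha
    obtain ⟨e, he⟩ := ihb
    refine ⟨c + e, ?_⟩
    have : a + b - algebraMap k R (ε (a + b)) =
        (a - algebraMap k R (ε a)) + (b - algebraMap k R (ε b)) := by
      rw [map_add, map_add]; abel
    rw [this, hc, he]
    simp only [Pi.add_apply, mul_add]
    abel
  | mul a b _ _ iha ihb =>
    obtain ⟨c, hc⟩ := iha
    obtain ⟨e, he⟩ := ihb
    refine ⟨fun i => c i * b + e i * algebraMap k R (ε a), ?_⟩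
    have hcomm := Algebra.commutes (ε a) (b - algebraMap k R (ε b))
    have : a * b - algebraMap k R (ε (a * b)) =
        (a - algebraMap k R (ε a)) * b + (b - algebraMap k R (ε b)) * algebraMap k R (ε a) := by
      rw [← hcomm, map_mul, map_mul, sub_mul, mul_sub]; abel
    rw [this, hc, he]
    simp only [add_mul, mul_add, mul_assoc]
    abel

lemma IsPres.aug_left (h : IsPres k R d x y X T) (ε : R →ₐ[k] k) (b : R) :
    ∃ c : Fin 4 → R, b - algebraMap k R (ε b) =
      c 0 * (x - algebraMap k R (ε x)) + c 1 * (y - algebraMap k R (ε y)) +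
      c 2 * (X - algebraMap k R (ε X)) + c 3 * (T - algebraMap k R (ε T)) := by
  have hb : b ∈ Algebra.adjoin k ({x, y, X, T} : Set R) := by rw [h.gen]; trivial
  induction hb using Algebra.adjoin_induction with
  | mem z hz =>
    simp only [Set.mem_insert_iff, Set.mem_singleton_iff] at hz
    rcases hz with rfl | rfl | rfl | rfl
    · exact ⟨![1, 0, 0, 0], by simp⟩
    · exact ⟨![0, 1, 0, 0], by simp⟩
    · exact ⟨![0, 0, 1, 0], by simp⟩
    · exact ⟨![0, 0, 0, 1], by simp⟩
  | algebraMap r => exact ⟨0, by simp⟩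
  | add a b _ _ iha ihb =>
    obtain ⟨c, hc⟩ := iha
    obtain ⟨e, he⟩ := ihb
    refine ⟨c + e, ?_⟩
    have : a + b - algebraMap k R (ε (a + b)) =
        (a - algebraMap k R (ε a)) + (b - algebraMap k R (ε b)) := by
      rw [map_add, map_add]; abel
    rw [this, hc, he]
    simp only [Pi.add_apply, add_mul]
    abel
  | mul a b _ _ iha ihb =>
    obtain ⟨c, hc⟩ := iha
    obtain ⟨e, he⟩ := ihb
    refine ⟨fun i => algebraMap k R (ε b) * c i + a * e i, ?_⟩
    have hcomm := Algebra.commutes (ε b) (a - algebraMap k R (ε a))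
    have : a * b - algebraMap k R (ε (a * b)) =
        algebraMap k R (ε b) * (a - algebraMap k R (ε a)) + a * (b - algebraMap k R (ε b)) := by
      rw [hcomm, map_mul, map_mul, sub_mul, mul_sub]; abel
    rw [this, hc, he]
    simp only [add_mul, mul_add, mul_assoc]
    abel

lemma mem_augIdeal_iff (h : IsPres k R d x y X T) (ε : R →ₐ[k] k)
    (hx : ε x = 0) (hy : ε y = 0) (hX : ε X = 0) (hT : ε T = 0)
    (ℬ : ℕ → Submodule k R) (hℬ : ∀ n, ℬ n = genSpan k x y X T ^ n) (b : R) :
    b ∈ augIdeal ℬ ↔ ε b = 0 := by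
  constructor
  · intro hb
    unfold augIdeal at hb
    induction hb using Submodule.span_induction with
    | mem z hz =>
      obtain ⟨n, hn, hz⟩ := hz
      obtain ⟨m, rfl⟩ : ∃ m, n = m + 1 := ⟨n - 1, by omega⟩
      rw [hℬ, pow_succ] at hz
      induction hz using Submodule.mul_induction_on' with
      | mem_mul_mem p _ v hv =>
        have : ε v = 0 := by
          unfold genSpan at hv
          induction hv using Submodule.span_induction with
          | mem w hw =>
            simp only [Set.mem_insert_iff, Set.mem_singleton_iff] at hw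
            rcases hw with rfl | rfl | rfl | rfl <;> assumption
          | zero => simp
          | add a b _ _ iha ihb => rw [map_add, iha, ihb, add_zero]
          | smul c a _ iha => rw [map_smul, iha, smul_zero]
        rw [map_mul, this, mul_zero]
      | add a _ b _ iha ihb => rw [map_add, iha, ihb, add_zero]
    | zero => simp
    | add a b _ _ iha ihb => rw [map_add, iha, ihb, add_zero]
    | smul c a _ iha => rw [smul_eq_mul, map_mul, iha, mul_zero]
  · intro hb
    obtain ⟨c, hc⟩ := h.aug_left ε b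
    rw [hb, hx, hy, hX, hT] at hc
    simp only [map_zero, sub_zero] at hc
    rw [hc]
    have hm : ∀ v ∈ genSpan k x y X T, ∀ c : R, c * v ∈ augIdeal ℬ := by
      intro v hv c
      refine Submodule.smul_mem _ c (Submodule.subset_span ⟨1, one_pos, ?_⟩)
      rw [hℬ, pow_one]; exact hv
    exact add_mem (add_mem (add_mem (hm _ x_mem _) (hm _ y_mem _)) (hm _ X_mem _))
      (hm _ T_mem _)

/-- the last map of the resolution of the trivial module -/
def lastMap (ℬ : ℕ → Submodule k R) : (Fin 1 → R) →ₗ[R] TrivialModule ℬ :=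
  (augIdeal ℬ).mkQ ∘ₗ LinearMap.proj 0

lemma lastMap_surjective (ℬ : ℕ → Submodule k R) : Function.Surjective (lastMap ℬ) := by
  intro q
  obtain ⟨r, rfl⟩ := Submodule.mkQ_surjective _ q
  exact ⟨fun _ => r, rfl⟩

lemma IsPres.exact34 (h : IsPres k R d x y X T)
    (ℬ : ℕ → Submodule k R) (hℬ : ∀ n, ℬ n = genSpan k x y X T ^ n) :
    Function.Exact (mat3 x y X T).vecMulLinear (lastMap ℬ) := by
  obtain ⟨ε, hx, hy, hX, hT⟩ := h.exists_aug
  intro a
  have h1 : lastMap ℬ a = 0 ↔ a 0 ∈ augIdeal ℬ := by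
    change (augIdeal ℬ).mkQ (a 0) = 0 ↔ _
    rw [Submodule.mkQ_apply, Submodule.Quotient.mk_eq_zero]
  rw [h1, mem_augIdeal_iff h ε hx hy hX hT ℬ hℬ]
  constructor
  · intro ha
    obtain ⟨c, hc⟩ := h.aug_left ε (a 0)
    rw [ha, hx, hy, hX, hT] at hc
    simp only [map_zero, sub_zero] at hc
    refine ⟨c, ?_⟩
    rw [Matrix.vecMulLinear_apply, vecMul_mat3]
    ext i
    fin_cases i
    exact hc.symm
  · rintro ⟨c, rfl⟩
    rw [Matrix.vecMulLinear_apply, vecMul_mat3]
    simp [hx, hy, hX, hT]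

theorem IsPres.pd_trivial (h : IsPres k R d x y X T) (hγ : 1 + d ≠ 0)
    (hω : ω ^ 2 * (1 + d) = 1 - d)
    (ℬ : ℕ → Submodule k R) (hℬ : ∀ n, ℬ n = genSpan k x y X T ^ n) :
    HasProjectiveDimensionLE (ModuleCat.of R (TrivialModule ℬ)) 4 :=
  pd_le_four _ _ _ _ (lastMap ℬ) (h.injective0 hγ hω) (h.exact01 hγ hω) (h.exact12 hγ hω)
    h.exact23 (h.exact34 ℬ hℬ) (lastMap_surjective ℬ)

lemma comp_eq_zero_of_exact {R : Type*} [Ring R] {M N P : Type*} [AddCommGroup M]
    [AddCommGroup N] [AddCommGroup P] [Module R M] [Module R N] [Module R P]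
    {f : M →ₗ[R] N} {g : N →ₗ[R] P} (h : Function.Exact f g) : g ∘ₗ f = 0 :=
  LinearMap.ext fun m => (h (f m)).mpr ⟨m, rfl⟩

theorem IsPres.ext_zero (h : IsPres k R d x y X T) (hγ : 1 + d ≠ 0)
    (hω : ω ^ 2 * (1 + d) = 1 - d)
    (ℬ : ℕ → Submodule k R) (hℬ : ∀ n, ℬ n = genSpan k x y X T ^ n) :
    Subsingleton (Ext (ModuleCat.of R (TrivialModule ℬ)) (ModuleCat.of R R) 0) := by
  have hsub : Subsingleton (ModuleCat.of R (TrivialModule ℬ) ⟶ ModuleCat.of R R) := by
    refine ⟨fun φ ψ => ?_⟩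
    suffices H : ∀ φ : TrivialModule ℬ →ₗ[R] R, φ = 0 by
      ext1
      rw [H φ.hom, H ψ.hom]
    intro φ
    have hb : ((mat3 x y X T).mulVec fun _ => φ (lastMap ℬ fun _ => 1)) = 0 := by
      have hv : ∀ v ∈ genSpan k x y X T, v * φ (lastMap ℬ fun _ => 1) = 0 := by
        intro v hv
        rw [← smul_eq_mul, ← map_smul, ← map_smul]
        have : lastMap ℬ (v • fun _ => 1) = 0 := by
          change (augIdeal ℬ).mkQ (v • (1 : R)) = 0
          rw [Submodule.mkQ_apply, Submodule.Quotient.mk_eq_zero]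
          rw [smul_eq_mul, mul_one]
          exact Submodule.subset_span ⟨1, one_pos, by rw [hℬ, pow_one]; exact hv⟩
        rw [this, map_zero]
      rw [mulVec_mat3]
      ext i
      fin_cases i
      · exact hv _ x_mem
      · exact hv _ y_mem
      · exact hv _ X_mem
      · exact hv _ T_mem
    have h0 := congrFun (h.dual0 hγ hω _ hb) 0
    refine LinearMap.ext fun q => ?_
    obtain ⟨a, rfl⟩ := lastMap_surjective ℬ q
    have : a = a 0 • (fun _ => 1) := by ext i; fin_cases i; simp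
    rw [this, map_smul, map_smul]
    change a 0 • φ (lastMap ℬ fun _ => 1) = 0
    have h0' : φ (lastMap ℬ fun _ => 1) = 0 := h0
    rw [h0', smul_zero]
  exact (Ext.linearEquiv₀ (R := k)).injective.subsingleton

theorem IsPres.ext_one (h : IsPres k R d x y X T) (hγ : 1 + d ≠ 0)
    (hω : ω ^ 2 * (1 + d) = 1 - d)
    (ℬ : ℕ → Submodule k R) (hℬ : ∀ n, ℬ n = genSpan k x y X T ^ n) :
    Subsingleton (Ext (ModuleCat.of R (TrivialModule ℬ)) (ModuleCat.of R R) 1) := by
  refine ext_one_subsingleton k (lastMap ℬ) (lastMap_surjective ℬ) R ?_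
  exact extend_of_dual_exact (mat2 d x y X T).vecMulLinear (mat3 x y X T).vecMulLinear _
    (h.exact34 ℬ hℬ) (comp_eq_zero_of_exact h.exact23)
    (dual_exact_of_mulVec _ _ (h.dual1 hγ hω))

theorem IsPres.ext_two (h : IsPres k R d x y X T) (hγ : 1 + d ≠ 0)
    (hω : ω ^ 2 * (1 + d) = 1 - d)
    (ℬ : ℕ → Submodule k R) (hℬ : ∀ n, ℬ n = genSpan k x y X T ^ n) :
    Subsingleton (Ext (ModuleCat.of R (TrivialModule ℬ)) (ModuleCat.of R R) 2) := by
  refine ext_shift_subsingleton k (lastMap ℬ) (lastMap_surjective ℬ) _ 0 ?_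
  refine ext_one_subsingleton k (kerMap (mat3 x y X T).vecMulLinear (lastMap ℬ) (h.exact34 ℬ hℬ))
    (kerMap_surjective _ _ _) R ?_
  exact extend_of_dual_exact (mat1 d x y X T).vecMulLinear (mat2 d x y X T).vecMulLinear _
    (exact_kerMap _ _ _ _ h.exact23) (comp_eq_zero_of_exact (h.exact12 hγ hω))
    (dual_exact_of_mulVec _ _ (h.dual2 hγ hω))

theorem IsPres.ext_three (h : IsPres k R d x y X T) (hγ : 1 + d ≠ 0)
    (hω : ω ^ 2 * (1 + d) = 1 - d)
    (ℬ : ℕ → Submodule k R) (hℬ : ∀ n, ℬ n = genSpan k x y X T ^ n) :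
    Subsingleton (Ext (ModuleCat.of R (TrivialModule ℬ)) (ModuleCat.of R R) 3) := by
  refine ext_shift_subsingleton k (lastMap ℬ) (lastMap_surjective ℬ) _ 1 ?_
  refine ext_shift_subsingleton k (kerMap (mat3 x y X T).vecMulLinear (lastMap ℬ)
    (h.exact34 ℬ hℬ)) (kerMap_surjective _ _ _) _ 0 ?_
  refine ext_one_subsingleton k (kerMap (mat2 d x y X T).vecMulLinear _
    (exact_kerMap _ _ _ _ h.exact23)) (kerMap_surjective _ _ _) R ?_
  exact extend_of_dual_exact (mat0 x y X T).vecMulLinear (mat1 d x y X T).vecMulLinear _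
    (exact_kerMap _ _ _ _ (h.exact12 hγ hω)) (comp_eq_zero_of_exact (h.exact01 hγ hω))
    (dual_exact_of_mulVec _ _ (h.dual3 hγ hω))

/-- General computation of the top `Ext`. -/
lemma top_ext_finrank (h : IsPres k R d x y X T) (ε : R →ₐ[k] k)
    (hx : ε x = 0) (hy : ε y = 0) (hX : ε X = 0) (hT : ε T = 0) {N : Type u} [AddCommGroup N]
    [Module R N] (g : (Fin 4 → R) →ₗ[R] N) (hg : Function.Surjective g)
    (hD : Function.Exact (mat0 x y X T).vecMulLinear g)
    (hinj : Function.Injective (mat0 x y X T).vecMulLinear) :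
    Module.finrank k (Ext (ModuleCat.of R N) (ModuleCat.of R R) 1) = 1 := by
  have hbij : Function.Bijective (kerMap (mat0 x y X T).vecMulLinear g hD) := by
    refine ⟨?_, kerMap_surjective _ _ _⟩
    rw [← LinearMap.ker_eq_bot, ker_kerMap, LinearMap.ker_eq_bot]
    exact hinj
  let e := LinearEquiv.ofBijective _ hbij
  let F : R → (ModuleCat.of R (LinearMap.ker g) ⟶ ModuleCat.of R R) := fun b => ModuleCat.ofHom
        ((Fintype.linearCombination R (fun _ : Fin 1 => b)) ∘ₗ e.symm.toLinearMap)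
  have hFadd : ∀ b c, F (b + c) = F b + F c := fun b c => by
    ext z
    simp [F, Fintype.linearCombination_apply, mul_add]
  have hFsmul : ∀ (t : k) (b : R), F (t • b) =
      (Linear.homModule (R := k) (ModuleCat.of R (LinearMap.ker g)) (ModuleCat.of R R)).smul
        t (F b) := fun t b => by
    ext z
    change (F (t • b)).hom z = (algebraMap k R t) • ((F b).hom z : R)
    simp [F, Fintype.linearCombination_apply, Algebra.smul_def]
    rw [← mul_assoc, ← Algebra.commutes, mul_assoc]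
  let c : R →ₗ[k] Ext (ModuleCat.of R N) (ModuleCat.of R R) 1 :=
    { toFun := fun b => extOneMap k g hg (ModuleCat.of R R) (F b)
      map_add' := fun b c => by rw [hFadd, map_add]
      map_smul' := fun t b => by
        rw [hFsmul]
        exact extOneMap_smul g hg (ModuleCat.of R R) t (F b) }
  have hc : Function.Surjective c := by
    intro z
    obtain ⟨φ, rfl⟩ := extOneMap_surjective (k := k) g hg (ModuleCat.of R R) z
    refine ⟨φ.hom (e ![1]), ?_⟩
    change extOneMap k g hg (ModuleCat.of R R) (F _) = _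
    congr 1
    ext z
    obtain ⟨n, rfl⟩ := e.surjective z
    have hn : n = n 0 • ![1] := by
      ext i; fin_cases i; simp
    change (Fintype.linearCombination R (fun _ : Fin 1 => (φ.hom (e ![1]) : R))) (e.symm (e n)) = _
    rw [LinearEquiv.symm_apply_apply]
    conv_rhs => rw [hn, map_smul, map_smul]
    simp [Fintype.linearCombination_apply]
  have hker : LinearMap.ker c = LinearMap.ker ε.toLinearMap := by
    ext b
    rw [LinearMap.mem_ker, LinearMap.mem_ker]
    change extOneMap k g hg (ModuleCat.of R R) (F b) = 0 ↔ ε b = 0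
    rw [extOneMap_eq_zero_iff]
    have hval : ∀ n : Fin 1 → R, (F b).hom (e n) = n 0 * b := by
      intro n
      change (Fintype.linearCombination R (fun _ : Fin 1 => b)) (e.symm (e n)) = _
      rw [LinearEquiv.symm_apply_apply]
      simp [Fintype.linearCombination_apply]
    constructor
    · rintro ⟨ψ, hψ⟩
      have h1 : ψ ((mat0 x y X T).vecMulLinear ![1]) = b := by
        have h2 := LinearMap.congr_fun hψ (e ![1])
        rw [hval] at h2
        have h3 : ((![1] : Fin 1 → R) 0) * b = b := by simp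
        rw [h3] at h2
        exact h2
      rw [hom_eq_sum, Matrix.vecMulLinear_apply, vecMul_mat0] at h1
      simp only [Fin.sum_univ_succ, Matrix.cons_val_zero, one_mul, Matrix.cons_val_succ,
        Fin.sum_univ_zero, add_zero] at h1
      rw [← h1]
      simp [hx, hy, hX, hT]
    · intro hb
      obtain ⟨a, ha⟩ := h.aug_right ε b
      rw [hb, hx, hy, hX, hT] at ha
      simp only [map_zero, sub_zero] at ha
      refine ⟨Fintype.linearCombination R a, ?_⟩
      refine LinearMap.ext fun z => ?_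
      obtain ⟨n, rfl⟩ := e.surjective z
      rw [hval]
      change Fintype.linearCombination R a ((mat0 x y X T).vecMulLinear n) = _
      rw [Fintype.linearCombination_apply, Matrix.vecMulLinear_apply, vecMul_mat0, ha]
      simp [Fin.sum_univ_succ, mul_add, mul_assoc]
      abel
  have h1 := (LinearMap.quotKerEquivOfSurjective c hc).finrank_eq
  have hε : Function.Surjective ε.toLinearMap := fun t => ⟨algebraMap k R t, by simp⟩
  have h2 := (LinearMap.quotKerEquivOfSurjective ε.toLinearMap hε).finrank_eq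
  rw [← h1, hker, h2, Module.finrank_self]

theorem IsPres.ext_four (h : IsPres k R d x y X T) (hγ : 1 + d ≠ 0)
    (hω : ω ^ 2 * (1 + d) = 1 - d)
    (ℬ : ℕ → Submodule k R) (hℬ : ∀ n, ℬ n = genSpan k x y X T ^ n) :
    Module.finrank k (Ext (ModuleCat.of R (TrivialModule ℬ)) (ModuleCat.of R R) 4) = 1 := by
  obtain ⟨ε, hx, hy, hX, hT⟩ := h.exists_aug
  rw [ext_shift_finrank (k := k) (lastMap ℬ) (lastMap_surjective ℬ) _ 2,
    ext_shift_finrank (k := k) (kerMap (mat3 x y X T).vecMulLinear (lastMap ℬ)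
      (h.exact34 ℬ hℬ)) (kerMap_surjective _ _ _) _ 1,
    ext_shift_finrank (k := k) (kerMap (mat2 d x y X T).vecMulLinear _
      (exact_kerMap _ _ _ _ h.exact23)) (kerMap_surjective _ _ _) _ 0]
  exact top_ext_finrank h ε hx hy hX hT (kerMap (mat1 d x y X T).vecMulLinear _
    (exact_kerMap _ _ _ _ (h.exact12 hγ hω))) (kerMap_surjective _ _ _)
    (exact_kerMap _ _ _ _ (h.exact01 hγ hω)) (h.injective0 hγ hω)

theorem IsPres.ext_ne_four (h : IsPres k R d x y X T) (hγ : 1 + d ≠ 0)
    (hω : ω ^ 2 * (1 + d) = 1 - d)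
    (ℬ : ℕ → Submodule k R) (hℬ : ∀ n, ℬ n = genSpan k x y X T ^ n) (i : ℕ) (hi : i ≠ 4) :
    Subsingleton (Ext (ModuleCat.of R (TrivialModule ℬ)) (ModuleCat.of R R) i) := by
  rcases Nat.lt_or_ge 4 i with h4 | h4
  · have := h.pd_trivial hγ hω ℬ hℬ
    exact HasProjectiveDimensionLT.subsingleton (ModuleCat.of R (TrivialModule ℬ)) 5 i h4
      (ModuleCat.of R R)
  · have : i < 4 := lt_of_le_of_ne h4 hi
    interval_cases i
    · exact h.ext_zero hγ hω ℬ hℬ
    · exact h.ext_one hγ hω ℬ hℬ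
    · exact h.ext_two hγ hω ℬ hℬ
    · exact h.ext_three hγ hω ℬ hℬ

theorem IsPres.not_pd_lt_four (h : IsPres k R d x y X T) (hγ : 1 + d ≠ 0)
    (hω : ω ^ 2 * (1 + d) = 1 - d)
    (ℬ : ℕ → Submodule k R) (hℬ : ∀ n, ℬ n = genSpan k x y X T ^ n) :
    ¬ HasProjectiveDimensionLT (ModuleCat.of R (TrivialModule ℬ)) 4 := by
  intro hlt
  have hs := HasProjectiveDimensionLT.subsingleton (ModuleCat.of R (TrivialModule ℬ)) 4 4 le_rfl
    (ModuleCat.of R R)
  have h1 := h.ext_four hγ hω ℬ hℬ
  rw [Module.finrank_zero_of_subsingleton] at h1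
  exact one_ne_zero h1.symm

end Aug

end Pool.Agent.MP_a6a2ff_al
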