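import Mathlib

/-!
# General homological lemmas for modules over a ring
-/

universe u

open CategoryTheory Abelian

namespace Pool.Agent.MP_a6a2ff_al

section Pd

variable {R : Type u} [Ring R]

lemma pd_step {P M : Type u} [AddCommGroup P] [AddCommGroup M] [Module R P] [Module R M]
    [Module.Projective R P] (g : P →ₗ[R] M) (hg : Function.Surjective g) (n : ℕ)
    (h : HasProjectiveDimensionLT (ModuleCat.of R (LinearMap.ker g)) n) :
    HasProjectiveDimensionLT (ModuleCat.of R M) (n + 1) := by
  have hS := LinearMap.shortExact_shortComplexKer hg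
  have hP : Projective (ModuleCat.of R P) := (IsProjective.iff_projective P).mp inferInstance
  exact hS.hasProjectiveDimensionLT_X₃ n h
    (hasProjectiveDimensionLT_of_ge (ModuleCat.of R P) 1 (n + 1) (by omega))

/-- the map onto the kernel of the next map -/
def kerMap {Q P M : Type u} [AddCommGroup Q] [AddCommGroup P] [AddCommGroup M] [Module R Q]
    [Module R P] [Module R M] (f : Q →ₗ[R] P) (g : P →ₗ[R] M) (hfg : Function.Exact f g) :
    Q →ₗ[R] LinearMap.ker g :=
  f.codRestrict (LinearMap.ker g) (fun q => by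
    rw [LinearMap.mem_ker]; exact (hfg (f q)).mpr ⟨q, rfl⟩)

lemma kerMap_surjective {Q P M : Type u} [AddCommGroup Q] [AddCommGroup P] [AddCommGroup M]
    [Module R Q] [Module R P] [Module R M] (f : Q →ₗ[R] P) (g : P →ₗ[R] M)
    (hfg : Function.Exact f g) : Function.Surjective (kerMap f g hfg) := by
  rintro ⟨p, hp⟩
  obtain ⟨q, rfl⟩ := (hfg p).mp hp
  exact ⟨q, rfl⟩

lemma ker_kerMap {Q P M : Type u} [AddCommGroup Q] [AddCommGroup P] [AddCommGroup M]
    [Module R Q] [Module R P] [Module R M] (f : Q →ₗ[R] P) (g : P →ₗ[R] M)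
    (hfg : Function.Exact f g) : LinearMap.ker (kerMap f g hfg) = LinearMap.ker f :=
  LinearMap.ker_codRestrict _ _ _

lemma pd_ker_step {Q P M : Type u} [AddCommGroup Q] [AddCommGroup P] [AddCommGroup M]
    [Module R Q] [Module R P] [Module R M] [Module.Projective R Q] (f : Q →ₗ[R] P)
    (g : P →ₗ[R] M) (hfg : Function.Exact f g) (n : ℕ)
    (h : HasProjectiveDimensionLT (ModuleCat.of R (LinearMap.ker f)) n) :
    HasProjectiveDimensionLT (ModuleCat.of R (LinearMap.ker g)) (n + 1) := by
  apply pd_step (kerMap f g hfg) (kerMap_surjective f g hfg) n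
  rw [ker_kerMap]
  exact h

/-- A module with a projective resolution of length four has projective dimension at most
four. -/
theorem pd_le_four {P0 P1 P2 P3 P4 M : Type u} [AddCommGroup P0] [AddCommGroup P1]
    [AddCommGroup P2] [AddCommGroup P3] [AddCommGroup P4] [AddCommGroup M]
    [Module R P0] [Module R P1] [Module R P2] [Module R P3] [Module R P4] [Module R M]
    [Module.Projective R P0] [Module.Projective R P1] [Module.Projective R P2]
    [Module.Projective R P3] [Module.Projective R P4]
    (f0 : P0 →ₗ[R] P1) (f1 : P1 →ₗ[R] P2) (f2 : P2 →ₗ[R] P3) (f3 : P3 →ₗ[R] P4)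
    (f4 : P4 →ₗ[R] M) (h0 : Function.Injective f0) (h01 : Function.Exact f0 f1)
    (h12 : Function.Exact f1 f2) (h23 : Function.Exact f2 f3) (h34 : Function.Exact f3 f4)
    (h4 : Function.Surjective f4) : HasProjectiveDimensionLE (ModuleCat.of R M) 4 := by
  have hk0 : HasProjectiveDimensionLT (ModuleCat.of R (LinearMap.ker f0)) 0 := by
    have : Subsingleton (LinearMap.ker f0) := by
      rw [LinearMap.ker_eq_bot.mpr h0]; infer_instance
    exact (ModuleCat.isZero_of_subsingleton (ModuleCat.of R
      (LinearMap.ker f0))).hasProjectiveDimensionLT_zero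
  exact pd_step f4 h4 4 (pd_ker_step f3 f4 h34 3 (pd_ker_step f2 f3 h23 2
    (pd_ker_step f1 f2 h12 1 (pd_ker_step f0 f1 h01 0 hk0))))

end Pd

section Ext

variable {k : Type u} [Field k] {R : Type u} [Ring R] [Algebra k R]

/-- dimension shifting, bijectivity -/
lemma ext_shift_bijective {P M : Type u} [AddCommGroup P] [AddCommGroup M] [Module R P]
    [Module R M] [Module.Projective R P] (g : P →ₗ[R] M) (hg : Function.Surjective g)
    (Y : ModuleCat.{u} R) (n : ℕ) :
    Function.Bijective ((LinearMap.shortExact_shortComplexKer hg).extClass.precompOfLinear k Y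
      (add_comm 1 (n + 1)) : Ext (ModuleCat.of R (LinearMap.ker g)) Y (n + 1) →ₗ[k]
        Ext (ModuleCat.of R M) Y (n + 1 + 1)) := by
  have hP : Projective (ModuleCat.of R P) := (IsProjective.iff_projective P).mp inferInstance
  have hS := LinearMap.shortExact_shortComplexKer hg
  constructor
  · rw [injective_iff_map_eq_zero]
    intro e he
    obtain ⟨e2, he2⟩ := Ext.contravariant_sequence_exact₁ hS Y e (add_comm 1 (n + 1)) he
    have : e2 = 0 := Ext.eq_zero_of_projective (P := ModuleCat.of R P) _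
    rw [← he2, this, Ext.comp_zero]
  · intro e
    exact Ext.contravariant_sequence_exact₃ hS Y e
      (Ext.eq_zero_of_projective (P := ModuleCat.of R P) _) (add_comm 1 (n + 1))

/-- the class in `Ext¹` of a homomorphism from the kernel -/
noncomputable def extOneMap (k : Type u) [Field k] {R : Type u} [Ring R] [Algebra k R]
    {P M : Type u} [AddCommGroup P] [AddCommGroup M] [Module R P]
    [Module R M] (g : P →ₗ[R] M) (hg : Function.Surjective g) (Y : ModuleCat.{u} R) :
    (ModuleCat.of R (LinearMap.ker g) ⟶ Y) →ₗ[k] Ext (ModuleCat.of R M) Y 1 :=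
  ((LinearMap.shortExact_shortComplexKer hg).extClass.precompOfLinear k Y (add_comm 1 0)) ∘ₗ
    (Ext.linearEquiv₀ (R := k) (X := ModuleCat.of R (LinearMap.ker g)) (Y := Y)).symm.toLinearMap

lemma extOneMap_smul {P M : Type u} [AddCommGroup P] [AddCommGroup M] [Module R P]
    [Module R M] (g : P →ₗ[R] M) (hg : Function.Surjective g) (Y : ModuleCat.{u} R) (t : k)
    (φ : ModuleCat.of R (LinearMap.ker g) ⟶ Y) :
    extOneMap k g hg Y (t • φ) = t • extOneMap k g hg Y φ := map_smul _ _ _

lemma extOneMap_surjective {P M : Type u} [AddCommGroup P] [AddCommGroup M] [Module R P]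
    [Module R M] [Module.Projective R P] (g : P →ₗ[R] M) (hg : Function.Surjective g)
    (Y : ModuleCat.{u} R) : Function.Surjective (extOneMap k g hg Y) := by
  have hP : Projective (ModuleCat.of R P) := (IsProjective.iff_projective P).mp inferInstance
  intro e
  obtain ⟨e1, he1⟩ := Ext.contravariant_sequence_exact₃
      (LinearMap.shortExact_shortComplexKer hg) Y e
      (Ext.eq_zero_of_projective (P := ModuleCat.of R P) _) (add_comm 1 0)
  refine ⟨Ext.linearEquiv₀ (R := k) e1, ?_⟩
  unfold extOneMap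
  rw [LinearMap.comp_apply]
  simp only [LinearEquiv.coe_coe, LinearEquiv.symm_apply_apply]
  exact he1

lemma extOneMap_eq_zero_iff {P M : Type u} [AddCommGroup P] [AddCommGroup M] [Module R P]
    [Module R M] (g : P →ₗ[R] M) (hg : Function.Surjective g)
    (Y : ModuleCat.{u} R) (φ : ModuleCat.of R (LinearMap.ker g) ⟶ Y) :
    extOneMap k g hg Y φ = 0 ↔ ∃ ψ : P →ₗ[R] Y, ψ ∘ₗ (LinearMap.ker g).subtype = φ.hom := by
  have hS := LinearMap.shortExact_shortComplexKer hg
  unfold extOneMap
  rw [LinearMap.comp_apply]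
  constructor
  · intro h
    obtain ⟨e2, he2⟩ := Ext.contravariant_sequence_exact₁ hS Y _ (add_comm 1 0) h
    obtain ⟨ψ, rfl⟩ := (Ext.linearEquiv₀ (R := k)).symm.surjective e2
    refine ⟨ψ.hom, ?_⟩
    simp only [Ext.linearEquiv₀_symm_apply, Ext.mk₀_comp_mk₀, LinearEquiv.coe_coe] at he2
    have := (Ext.linearEquiv₀ (R := k)).symm.injective (a₁ := _) (a₂ := _) he2
    have h2 := congrArg ModuleCat.Hom.hom this
    simpa using h2
  · rintro ⟨ψ, hψ⟩
    have : φ = (LinearMap.shortComplexKer g).f ≫ ModuleCat.ofHom ψ := by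
      ext1
      rw [← hψ]
      rfl
    rw [this]
    simp only [LinearEquiv.coe_coe, Ext.linearEquiv₀_symm_apply]
    rw [← Ext.mk₀_comp_mk₀]
    exact hS.extClass_comp_assoc (Ext.mk₀ (ModuleCat.ofHom ψ)) (h := add_comm 1 0)

lemma ext_one_subsingleton (k : Type u) [Field k] {R : Type u} [Ring R] [Algebra k R]
    {P M : Type u} [AddCommGroup P] [AddCommGroup M] [Module R P]
    [Module R M] [Module.Projective R P] (g : P →ₗ[R] M) (hg : Function.Surjective g)
    (Y : Type u) [AddCommGroup Y] [Module R Y]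
    (H : ∀ φ : LinearMap.ker g →ₗ[R] Y, ∃ ψ : P →ₗ[R] Y, ψ ∘ₗ (LinearMap.ker g).subtype = φ) :
    Subsingleton (Ext (ModuleCat.of R M) (ModuleCat.of R Y) 1) := by
  refine ⟨fun a b => ?_⟩
  suffices h : ∀ e : Ext (ModuleCat.of R M) (ModuleCat.of R Y) 1, e = 0 by rw [h a, h b]
  intro e
  obtain ⟨φ, rfl⟩ := extOneMap_surjective (k := k) g hg (ModuleCat.of R Y) e
  rw [extOneMap_eq_zero_iff]
  exact H φ.hom

lemma ext_shift_subsingleton (k : Type u) [Field k] {R : Type u} [Ring R] [Algebra k R]
    {P M : Type u} [AddCommGroup P] [AddCommGroup M] [Module R P]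
    [Module R M] [Module.Projective R P] (g : P →ₗ[R] M) (hg : Function.Surjective g)
    (Y : ModuleCat.{u} R) (n : ℕ)
    (h : Subsingleton (Ext (ModuleCat.of R (LinearMap.ker g)) Y (n + 1))) :
    Subsingleton (Ext (ModuleCat.of R M) Y (n + 1 + 1)) :=
  (ext_shift_bijective (k := k) g hg Y n).2.subsingleton

lemma ext_shift_finrank {P M : Type u} [AddCommGroup P] [AddCommGroup M] [Module R P]
    [Module R M] [Module.Projective R P] (g : P →ₗ[R] M) (hg : Function.Surjective g)
    (Y : ModuleCat.{u} R) (n : ℕ) :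
    Module.finrank k (Ext (ModuleCat.of R M) Y (n + 1 + 1)) =
      Module.finrank k (Ext (ModuleCat.of R (LinearMap.ker g)) Y (n + 1)) :=
  (LinearEquiv.finrank_eq (LinearEquiv.ofBijective _ (ext_shift_bijective (k := k) g hg Y n))).symm

/-- transport of `Ext` along a linear equivalence in the first variable -/
lemma ext_subsingleton_congr {M N : Type u} [AddCommGroup M] [AddCommGroup N] [Module R M]
    [Module R N] (e : M ≃ₗ[R] N) (Y : ModuleCat.{u} R) (n : ℕ)
    (h : Subsingleton (Ext (ModuleCat.of R M) Y n)) :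
    Subsingleton (Ext (ModuleCat.of R N) Y n) := by
  refine ⟨fun a b => ?_⟩
  suffices h' : ∀ c : Ext (ModuleCat.of R N) Y n, c = 0 by rw [h' a, h' b]
  intro c
  have e1 : (Ext.mk₀ e.toModuleIso.inv).comp ((Ext.mk₀ e.toModuleIso.hom).comp c (zero_add n))
      (zero_add n) = c := by
    rw [Ext.mk₀_comp_mk₀_assoc, e.toModuleIso.inv_hom_id, Ext.mk₀_id_comp]
  rw [← e1, h.elim ((Ext.mk₀ e.toModuleIso.hom).comp c (zero_add n)) 0, Ext.comp_zero]

end Ext

end Pool.Agent.MP_a6a2ff_al
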