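import Pool.Agent.MP_a6a2ff_al.Graded
import Pool.Agent.MP_a6a2ff_al.Homol
import Pool.Agent.MP_a6a2ff_al.Defs

/-!
# The dual complex and the Gorenstein condition
-/

set_option linter.unusedSimpArgs false
set_option linter.unusedVariables false

universe u

open CategoryTheory Abelian

namespace Pool.Agent.MP_a6a2ff_al

section Dual

variable {k : Type u} [Field k] {R : Type u} [Ring R] [Algebra k R] {d ω : k} {x y X T : R}

lemma mulVec_mat3 (b : Fin 1 → R) :
    (mat3 x y X T).mulVec b = ![x * b 0, y * b 0, X * b 0, T * b 0] := by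
  ext i
  fin_cases i <;> simp [Matrix.mulVec, dotProduct, mat3]

lemma mulVec_mat0 (b : Fin 4 → R) :
    (mat0 x y X T).mulVec b = ![x * b 0 + y * b 1 + X * b 2 + T * b 3] := by
  ext i
  fin_cases i
  simp [Matrix.mulVec, dotProduct, mat0, Fin.sum_univ_succ]
  abel

lemma mulVec_mat2 (b : Fin 4 → R) :
    (mat2 d x y X T).mulVec b =
      ![X * b 0 - x * b 2,
        ((1 + d) • T - d • X) * b 1 + y * b 2,
        -(x * b 0) + y * b 1 + X * b 2,
        (1 - d) • (T * b 0) + d • (T * b 1) + ((1 - d) • x + d • y) * b 3,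
        d • (T * b 0) - (X + d • T) * b 1 + (d • x - (1 + d) • y) * b 3,
        ((1 - d) • x + d • y) * b 0 + (d • x - (1 + d) • y) * b 1 + (1 + d) • (T * b 3)] := by
  ext i
  fin_cases i <;>
    simp [Matrix.mulVec, dotProduct, mat2, Fin.sum_univ_succ, add_mul, sub_mul] <;> abel

lemma mulVec_mat1 (b : Fin 6 → R) :
    (mat1 d x y X T).mulVec b =
      ![-(X * b 0) - x * b 2 - (1 + d) • (T * b 3) - ((1 - d) • x + d • y) * b 5,
        ((1 + d) • T - d • X) * b 1 + y * b 2 + ((1 + d) * d) • ((X - T) * b 3) -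
          (1 + d) • (((1 - d) • X + d • T) * b 4) - (d • x - (1 + d) • y) * b 5,
        x * b 0 + y * b 1 + X * b 2,
        -((1 + d) • (x * b 3)) - (1 + d) • (y * b 4) - (1 + d) • (T * b 5)] := by
  ext i
  fin_cases i <;>
    simp [Matrix.mulVec, dotProduct, mat1, Fin.sum_univ_succ, add_mul, sub_mul] <;> module

theorem IsPres.dual0 (h : IsPres k R d x y X T) (hγ : 1 + d ≠ 0)
    (hω : ω ^ 2 * (1 + d) = 1 - d) (b : Fin 1 → R) (hb : (mat3 x y X T).mulVec b = 0) :
    b = 0 := by
  rw [mulVec_mat3] at hb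
  have h1 : y * b 0 = 0 := congrFun hb 1
  have h2 := h.op.mul_y_eq_zero hγ hω (MulOpposite.op (b 0)) (by rw [← MulOpposite.op_mul, h1, MulOpposite.op_zero])
  ext i
  fin_cases i
  exact MulOpposite.op_injective h2

theorem IsPres.dual1 (h : IsPres k R d x y X T) (hγ : 1 + d ≠ 0)
    (hω : ω ^ 2 * (1 + d) = 1 - d) (b : Fin 4 → R) (hb : (mat2 d x y X T).mulVec b = 0) :
    ∃ c : Fin 1 → R, b = (mat3 x y X T).mulVec c := by
  rw [mulVec_mat2] at hb
  have e0 := congrFun hb 0
  have e1 := congrFun hb 1
  have e2 := congrFun hb 2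
  have e3 := congrFun hb 3
  have e4 := congrFun hb 4
  have e5 := congrFun hb 5
  simp only [Matrix.cons_val_zero, Matrix.cons_val_one, Matrix.cons_val, Pi.zero_apply,
    mul_add, add_mul, mul_sub, sub_mul, smul_add, smul_sub, mul_smul_comm, smul_mul_assoc]
    at e0 e1 e2 e3 e4 e5
  obtain ⟨c, hc⟩ := (h.op.exact01 hγ hω (fun i => MulOpposite.op (b i))).mp (by
    rw [Matrix.vecMulLinear_apply, vecMul_mat1]
    ext i
    apply MulOpposite.unop_injective
    fin_cases i <;> simp [mul_add, add_mul, mul_sub, sub_mul, smul_add, smul_sub]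
    · linear_combination (norm := module) -e0
    · linear_combination (norm := module) e1
    · linear_combination (norm := module) e2
    · linear_combination (norm := module) -((1 + d) • ((1 + d) • e3 + d • e4))
    · linear_combination (norm := module) -((1 + d) • (d • e3 - (1 - d) • e4))
    · linear_combination (norm := module) -e5)
  rw [Matrix.vecMulLinear_apply, vecMul_mat0] at hc
  refine ⟨fun _ => MulOpposite.unop (c 0), ?_⟩
  rw [mulVec_mat3]
  ext i
  apply MulOpposite.op_injective
  rw [← congrFun hc i]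
  fin_cases i <;> simp

theorem IsPres.dual2 (h : IsPres k R d x y X T) (hγ : 1 + d ≠ 0)
    (hω : ω ^ 2 * (1 + d) = 1 - d) (b : Fin 6 → R) (hb : (mat1 d x y X T).mulVec b = 0) :
    ∃ c : Fin 4 → R, b = (mat2 d x y X T).mulVec c := by
  rw [mulVec_mat1] at hb
  have e0 := congrFun hb 0
  have e1 := congrFun hb 1
  have e2 := congrFun hb 2
  have e3 := congrFun hb 3
  simp only [Matrix.cons_val_zero, Matrix.cons_val_one, Matrix.cons_val, Pi.zero_apply,
    mul_add, add_mul, mul_sub, sub_mul, smul_add, smul_sub, mul_smul_comm, smul_mul_assoc]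
    at e0 e1 e2 e3
  obtain ⟨c, hc⟩ := (h.op.exact12 hγ hω ![MulOpposite.op (-b 0), MulOpposite.op (b 1), MulOpposite.op (b 2),
      MulOpposite.op (-((1 + d) • ((1 + d) • b 3 + d • b 4))),
      MulOpposite.op (-((1 + d) • (d • b 3 - (1 - d) • b 4))), MulOpposite.op (-b 5)]).mp (by
    rw [Matrix.vecMulLinear_apply, vecMul_mat2]
    ext i
    apply MulOpposite.unop_injective
    fin_cases i <;> simp [mul_add, add_mul, mul_sub, sub_mul, smul_add, smul_sub]
    · linear_combination (norm := module) e0
    · linear_combination (norm := module) e1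
    · linear_combination (norm := module) e2
    · linear_combination (norm := module) e3)
  rw [Matrix.vecMulLinear_apply, vecMul_mat1] at hc
  have f0 := congrArg MulOpposite.unop (congrFun hc 0)
  have f1 := congrArg MulOpposite.unop (congrFun hc 1)
  have f2 := congrArg MulOpposite.unop (congrFun hc 2)
  have f3 := congrArg MulOpposite.unop (congrFun hc 3)
  have f4 := congrArg MulOpposite.unop (congrFun hc 4)
  have f5 := congrArg MulOpposite.unop (congrFun hc 5)
  simp only [Matrix.cons_val_zero, Matrix.cons_val_one, Matrix.cons_val, MulOpposite.unop_neg,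
    MulOpposite.unop_sub, MulOpposite.unop_add, MulOpposite.unop_mul, MulOpposite.unop_smul,
    MulOpposite.unop_op, neg_inj] at f0 f1 f2 f3 f4 f5
  have g3 := smul_right_injective R hγ f3
  have g4 := smul_right_injective R hγ f4
  simp only [mul_add, add_mul, mul_sub, sub_mul, smul_add, smul_sub, mul_smul_comm,
    smul_mul_assoc] at f0 f1 f2 f5 g3 g4
  refine ⟨fun i => MulOpposite.unop (c i), ?_⟩
  rw [mulVec_mat2]
  ext i
  fin_cases i <;> simp [mul_add, add_mul, mul_sub, sub_mul, smul_add, smul_sub]
  · linear_combination (norm := module) f0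
  · linear_combination (norm := module) -f1
  · linear_combination (norm := module) -f2
  · linear_combination (norm := module) -((1 - d) • g3) - d • g4
  · linear_combination (norm := module) -(d • g3) + (1 + d) • g4
  · linear_combination (norm := module) -f5

theorem IsPres.dual3 (h : IsPres k R d x y X T) (hγ : 1 + d ≠ 0)
    (hω : ω ^ 2 * (1 + d) = 1 - d) (b : Fin 4 → R) (hb : (mat0 x y X T).mulVec b = 0) :
    ∃ c : Fin 6 → R, b = (mat1 d x y X T).mulVec c := by
  rw [mulVec_mat0] at hb
  have e0 := congrFun hb 0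
  simp only [Matrix.cons_val_zero, Matrix.cons_val_one, Matrix.cons_val, Pi.zero_apply] at e0
  obtain ⟨c, hc⟩ := (h.op.exact23 (fun i => MulOpposite.op (b i))).mp (by
    rw [Matrix.vecMulLinear_apply, vecMul_mat3]
    ext i
    apply MulOpposite.unop_injective
    fin_cases i
    simpa using e0)
  rw [Matrix.vecMulLinear_apply, vecMul_mat2] at hc
  refine ⟨![-(MulOpposite.unop (c 0)), MulOpposite.unop (c 1), MulOpposite.unop (c 2), -((1 + d)⁻¹ • ((1 - d) • MulOpposite.unop (c 3) + d • MulOpposite.unop (c 4))),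
    -((1 + d)⁻¹ • (d • MulOpposite.unop (c 3) - (1 + d) • MulOpposite.unop (c 4))), -(MulOpposite.unop (c 5))], ?_⟩
  rw [mulVec_mat1]
  ext i
  apply MulOpposite.op_injective
  rw [← congrFun hc i]
  apply MulOpposite.unop_injective
  fin_cases i <;>
    simp [mul_add, add_mul, mul_sub, sub_mul, smul_add, smul_sub, smul_smul] <;>
    match_scalars <;> field_simp <;> ring

end Dual

end Pool.Agent.MP_a6a2ff_al
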