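import Pool.Agent.MP_a6a2ff_al.Regular

/-!
# The Hilbert function
-/

set_option linter.unusedSimpArgs false
set_option linter.unusedVariables false
set_option linter.unusedSectionVars false

universe u

open Module

namespace Pool.Agent.MP_a6a2ff_al

section DegMap

variable {k : Type u} [Field k] {R : Type u} [Ring R] [Algebra k R]
variable (𝒜 : ℕ → Submodule k R) [GradedAlgebra 𝒜]

lemma degMap_rank_zero {l m n : ℕ} (A : Matrix (Fin l) (Fin m) R) (B : Matrix (Fin m) (Fin n) R)
    (hA : ∀ i j, A i j ∈ 𝒜 1) (hB : ∀ i j, B i j ∈ 𝒜 1)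
    (h : Function.Exact A.vecMulLinear B.vecMulLinear) [Module.Finite k (𝒜 0)] :
    finrank k (LinearMap.range (degMap 𝒜 B hB 0)) = m * finrank k (𝒜 0) := by
  have hinj : Function.Injective (degMap 𝒜 B hB 0) := by
    rw [injective_iff_map_eq_zero]
    intro a ha
    have h1 : B.vecMulLinear (fun l => (a l : R)) = 0 := by
      rw [Matrix.vecMulLinear_apply]
      ext i
      rw [← coe_degMap 𝒜 B hB, ha]
      rfl
    obtain ⟨b, hb⟩ := (h _).mp h1
    rw [Matrix.vecMulLinear_apply] at hb
    ext i
    have h2 : (a i : R) = pr 𝒜 1 (a i : R) := (pr_of_mem 𝒜 (j := 1) (a i).2).symm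
    rw [h2]
    have h3 := congrFun (pr_vecMul 𝒜 A hA b 0) i
    rw [hb] at h3
    refine h3.trans ?_
    have h4 : (fun i => pr 𝒜 0 (b i)) = 0 := rfl
    rw [h4, Matrix.zero_vecMul]
    rfl
  rw [LinearMap.finrank_range_of_inj hinj, Module.finrank_pi_fintype]
  simp

end DegMap

lemma choose_of_rec (f : ℕ → ℕ)
    (hf : ∀ n, f (n + 4) + 6 * f (n + 2) + f n = 4 * f (n + 3) + 4 * f (n + 1))
    (h0 : f 0 = 1) (h1 : f 1 = 4) (h2 : f 2 = 10) (h3 : f 3 = 20) (n : ℕ) :
    f n = (n + 3).choose 3 := by
  have key : ∀ n : ℕ, 6 * f n = (n + 3) * (n + 2) * (n + 1) := by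
    intro n
    induction n using Nat.strong_induction_on with
    | _ n ih =>
      match n, ih with
      | 0, _ => rw [h0]
      | 1, _ => rw [h1]
      | 2, _ => rw [h2]
      | 3, _ => rw [h3]
      | (n + 4), ih =>
        have h := hf n
        have e0 := ih n (by omega)
        have e1 := ih (n + 1) (by omega)
        have e2 := ih (n + 2) (by omega)
        have e3 := ih (n + 3) (by omega)
        zify at h e0 e1 e2 e3 ⊢
        linear_combination 6 * h + 4 * e3 + 4 * e1 - 6 * e2 - e0
  have h6 : (n + 3).descFactorial 3 = (Nat.factorial 3) * (n + 3).choose 3 :=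
    Nat.descFactorial_eq_factorial_mul_choose _ _
  have h7 : (n + 3).descFactorial 3 = (n + 3) * (n + 2) * (n + 1) := by
    simp [Nat.descFactorial]
    ring
  have h8 : Nat.factorial 3 = 6 := rfl
  rw [h7, h8, ← key n] at h6
  omega

variable {k : Type u} [Field k] {R : Type u} [Ring R] [Algebra k R] {d ω : k} {x y X T : R}

theorem IsPres.finrank_eq (h : IsPres k R d x y X T) (hγ : 1 + d ≠ 0)
    (hω : ω ^ 2 * (1 + d) = 1 - d) (n : ℕ) :
    finrank k (powGrading k x y X T n) = (n + 3).choose 3 := by
  let := h.gradedAlgebra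
  have hfin : ∀ n, Module.Finite k (powGrading k x y X T n) := finite_powGrading
  have hnt : Nontrivial R := (h.isASRegular hγ hω).nontrivial
  have g0 : ∀ i j, mat0 x y X T i j ∈ powGrading k x y X T 1 := fun i j =>
    mem_one_of_mem (mat0_mem i j)
  have g1 : ∀ i j, mat1 d x y X T i j ∈ powGrading k x y X T 1 := fun i j =>
    mem_one_of_mem (mat1_mem i j)
  have g2 : ∀ i j, mat2 d x y X T i j ∈ powGrading k x y X T 1 := fun i j =>
    mem_one_of_mem (mat2_mem i j)
  have g3 : ∀ i j, mat3 x y X T i j ∈ powGrading k x y X T 1 := fun i j =>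
    mem_one_of_mem (mat3_mem i j)
  have a0 : finrank k (powGrading k x y X T 0) = 1 := by
    have : powGrading k x y X T 0 = 1 := pow_zero _
    rw [this, Submodule.one_eq_span, finrank_span_singleton one_ne_zero]
  have s : ∀ j, finrank k (LinearMap.range (degMap (powGrading k x y X T) (mat3 x y X T) g3
      j)) = finrank k (powGrading k x y X T (j + 1)) := by
    intro j
    rw [h.degMap_surj, finrank_top, Module.finrank_pi_fintype]
    simp
  have a1 : finrank k (powGrading k x y X T 1) = 4 := by
    rw [← s 0, degMap_rank_zero (powGrading k x y X T) (mat2 d x y X T) (mat3 x y X T) g2 g3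
      h.exact23, a0]
  have r1 := degMap_rank_zero (powGrading k x y X T) (mat0 x y X T) (mat1 d x y X T) g0 g1
    (h.exact01 hγ hω)
  have r2 := degMap_rank_zero (powGrading k x y X T) (mat1 d x y X T) (mat2 d x y X T) g1 g2
    (h.exact12 hγ hω)
  rw [a0] at r1 r2
  have e2 := degMap_rank (powGrading k x y X T) (mat2 d x y X T) (mat3 x y X T) g2 g3
    h.exact23 0
  rw [s (0 + 1), r2] at e2
  have a2 : finrank k (powGrading k x y X T 2) = 10 := by
    have e2' : finrank k (powGrading k x y X T 2) + 6 * 1 =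
      4 * finrank k (powGrading k x y X T 1) := e2
    omega
  have e3 := degMap_rank (powGrading k x y X T) (mat1 d x y X T) (mat2 d x y X T) g1 g2
    (h.exact12 hγ hω) 0
  rw [r1] at e3
  have e4 := degMap_rank (powGrading k x y X T) (mat2 d x y X T) (mat3 x y X T) g2 g3
    h.exact23 1
  rw [s (1 + 1)] at e4
  have a3 : finrank k (powGrading k x y X T 3) = 20 := by
    have e3' : finrank k (LinearMap.range (degMap (powGrading k x y X T) (mat2 d x y X T) g2
      1)) + 4 * 1 = 6 * finrank k (powGrading k x y X T 1) := e3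
    have e4' : finrank k (powGrading k x y X T 3) + finrank k (LinearMap.range (degMap
      (powGrading k x y X T) (mat2 d x y X T) g2 1)) =
      4 * finrank k (powGrading k x y X T 2) := e4
    omega
  exact choose_of_rec (fun n => finrank k (powGrading k x y X T n)) (h.hilbert hγ hω) a0 a1 a2 a3 n

end Pool.Agent.MP_a6a2ff_al
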