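import Mathlib

/-!
# Exactness of the Koszul type complexes, element by element
-/

set_option linter.unusedSimpArgs false
set_option linter.unusedVariables false

namespace Pool.Agent.MP_a6a2ff_al

/-- The defining relations of the algebra. -/
structure Rels {k R : Type*} [CommRing k] [Ring R] [Algebra k R] (d : k) (x y X T : R) : Prop where
  h1 : X * x = x * X
  h2 : y * y + X * X = x * x
  h3 : y * X + X * y = (1 + d) • ((X - T) * y)
  h4 : y * T + T * y = (d - 1) • ((X - T) * y)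
  h5 : x * T + T * x = d • ((X - T) * y)
  h6 : (1 + d) • (T * T) + (1 - d) • (x * x) + d • (x * y + y * x) = (1 + d) • (y * y)

variable {k R : Type*} [Field k] [Ring R] [Algebra k R] {d ω : k} {x y X T : R}

lemma Rels.comm (h : Rels d x y X T) : y * (X - T) = (X - T) * y := by
  have h3 := h.h3
  have h4 := h.h4
  simp only [mul_add, add_mul, mul_sub, sub_mul, smul_add, smul_sub, mul_smul_comm,
    smul_mul_assoc, mul_assoc, mul_neg, neg_mul, smul_neg] at h3 h4 ⊢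
  linear_combination (norm := module) h3 - h4

/-- Data for the induction: a filtration or grading `𝒢` (shifted by one, so `𝒢 0 = 0`), and the
quadratic presentation in the form of exactness at the second last spot. -/
structure Setup (d ω : k) (x y X T : R) (𝒢 : ℕ → Submodule k R) : Prop where
  rel : Rels d x y X T
  hγ : (1 + d) ≠ 0
  hω : ω ^ 2 * (1 + d) = 1 - d
  zero : 𝒢 0 = ⊥
  mx : ∀ j a, a ∈ 𝒢 j → a * x ∈ 𝒢 (j + 1)
  my : ∀ j a, a ∈ 𝒢 j → a * y ∈ 𝒢 (j + 1)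
  mX : ∀ j a, a ∈ 𝒢 j → a * X ∈ 𝒢 (j + 1)
  mT : ∀ j a, a ∈ 𝒢 j → a * T ∈ 𝒢 (j + 1)
  F : ∀ j a b c e, a ∈ 𝒢 (j + 1) → b ∈ 𝒢 (j + 1) → c ∈ 𝒢 (j + 1) → e ∈ 𝒢 (j + 1) →
    a * x + b * y + c * X + e * T = 0 →
    ∃ p1 ∈ 𝒢 j, ∃ p2 ∈ 𝒢 j, ∃ p3 ∈ 𝒢 j, ∃ q1 ∈ 𝒢 j, ∃ q2 ∈ 𝒢 j, ∃ q3 ∈ 𝒢 j,
      a = p1 * X - p3 * x + ((1 - d) • (q1 * T) + d • (q2 * T) + q3 * ((1 - d) • x + d • y)) ∧
      b = p2 * ((1 + d) • T - d • X) + p3 * y +
        (d • (q1 * T) - q2 * (X + d • T) + q3 * (d • x - (1 + d) • y)) ∧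
      c = -(p1 * x) + p2 * y + p3 * X ∧
      e = q1 * ((1 - d) • x + d • y) + q2 * (d • x - (1 + d) • y) + (1 + d) • (q3 * T)

/-- The exactness statements at level `j`. -/
structure Ex (d ω : k) (x y X T : R) (𝒢 : ℕ → Submodule k R) (j : ℕ) : Prop where
  H : ∀ a b c, a ∈ 𝒢 j → b ∈ 𝒢 j → c ∈ 𝒢 j → a * x + b * y + c * X = 0 →
    ∃ p ∈ 𝒢 (j - 1), ∃ q ∈ 𝒢 (j - 1), ∃ r ∈ 𝒢 (j - 1),
      a = p * X - r * x ∧ b = q * ((1 + d) • T - d • X) + r * y ∧ c = -(p * x) + q * y + r * X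
  K : ∀ a b e, a ∈ 𝒢 j → b ∈ 𝒢 j → e ∈ 𝒢 j → a * x + b * y + e * T = 0 →
    ∃ p ∈ 𝒢 (j - 1), ∃ q ∈ 𝒢 (j - 1), ∃ r ∈ 𝒢 (j - 1),
      a = (1 - d) • (p * T) + d • (q * T) + r * ((1 - d) • x + d • y) ∧
      b = d • (p * T) - q * (X + d • T) + r * (d • x - (1 + d) • y) ∧
      e = p * ((1 - d) • x + d • y) + q * (d • x - (1 + d) • y) + (1 + d) • (r * T)
  U : ∀ a b, a ∈ 𝒢 j → b ∈ 𝒢 j → a * y + b * (x + X) = 0 →
    ∃ p ∈ 𝒢 (j - 1), a = p * y ∧ b = -(p * (x - X))
  V : ∀ a b, a ∈ 𝒢 j → b ∈ 𝒢 j → a * y + b * (x - X) = 0 →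
    ∃ p ∈ 𝒢 (j - 1), a = p * y ∧ b = -(p * (x + X))
  M : ∀ s : k, s = ω ∨ s = -ω → ∀ a b, a ∈ 𝒢 j → b ∈ 𝒢 j → a * y + b * (T + s • x) = 0 →
    ∃ p ∈ 𝒢 (j - 1), a = p * (d • (T + s • x) - (s * (1 + d)) • y) ∧
      b = p * ((s * (1 + d)) • (T + s • x) + d • y)
  Y : ∀ a, a ∈ 𝒢 j → a * y = 0 → a = 0
  V0 : ∀ a, a ∈ 𝒢 j → a * (x - X) = 0 → a = 0

variable {𝒢 : ℕ → Submodule k R}

lemma Setup.ex_zero (S : Setup d ω x y X T 𝒢) : Ex d ω x y X T 𝒢 0 := by
  have h0 : ∀ a, a ∈ 𝒢 0 → a = 0 := fun a ha => by simpa [S.zero] using ha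
  constructor
  · intro a b c ha hb hc _
    refine ⟨0, zero_mem _, 0, zero_mem _, 0, zero_mem _, ?_, ?_, ?_⟩ <;>
      simp [h0 a ha, h0 b hb, h0 c hc]
  · intro a b c ha hb hc _
    refine ⟨0, zero_mem _, 0, zero_mem _, 0, zero_mem _, ?_, ?_, ?_⟩ <;>
      simp [h0 a ha, h0 b hb, h0 c hc]
  · intro a b ha hb _
    refine ⟨0, zero_mem _, ?_, ?_⟩ <;> simp [h0 a ha, h0 b hb]
  · intro a b ha hb _
    refine ⟨0, zero_mem _, ?_, ?_⟩ <;> simp [h0 a ha, h0 b hb]
  · intro s _ a b ha hb _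
    refine ⟨0, zero_mem _, ?_, ?_⟩ <;> simp [h0 a ha, h0 b hb]
  · intro a ha _; exact h0 a ha
  · intro a ha _; exact h0 a ha

lemma Setup.mx' (S : Setup d ω x y X T 𝒢) {j : ℕ} {a : R} (ha : a ∈ 𝒢 (j - 1)) :
    a * x ∈ 𝒢 j := by
  cases j with
  | zero => simp [S.zero] at ha; simp [ha]
  | succ j => exact S.mx j a ha

lemma Setup.my' (S : Setup d ω x y X T 𝒢) {j : ℕ} {a : R} (ha : a ∈ 𝒢 (j - 1)) :
    a * y ∈ 𝒢 j := by
  cases j with
  | zero => simp [S.zero] at ha; simp [ha]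
  | succ j => exact S.my j a ha

lemma Setup.mX' (S : Setup d ω x y X T 𝒢) {j : ℕ} {a : R} (ha : a ∈ 𝒢 (j - 1)) :
    a * X ∈ 𝒢 j := by
  cases j with
  | zero => simp [S.zero] at ha; simp [ha]
  | succ j => exact S.mX j a ha

lemma Setup.mT' (S : Setup d ω x y X T 𝒢) {j : ℕ} {a : R} (ha : a ∈ 𝒢 (j - 1)) :
    a * T ∈ 𝒢 j := by
  cases j with
  | zero => simp [S.zero] at ha; simp [ha]
  | succ j => exact S.mT j a ha

/-- step for `H` -/
lemma Setup.step_H (S : Setup d ω x y X T 𝒢) {j : ℕ} (E : Ex d ω x y X T 𝒢 j) :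
    ∀ a b c, a ∈ 𝒢 (j + 1) → b ∈ 𝒢 (j + 1) → c ∈ 𝒢 (j + 1) → a * x + b * y + c * X = 0 →
    ∃ p ∈ 𝒢 j, ∃ q ∈ 𝒢 j, ∃ r ∈ 𝒢 j,
      a = p * X - r * x ∧ b = q * ((1 + d) • T - d • X) + r * y ∧
        c = -(p * x) + q * y + r * X := by
  intro a b c ha hb hc h
  obtain ⟨p1, hp1, p2, hp2, p3, hp3, q1, hq1, q2, hq2, q3, hq3, e1, e2, e3, e4⟩ :=
    S.F j a b c 0 ha hb hc (zero_mem _) (by simpa using h)
  set g : k := (1 + d)⁻¹ with hg
  have hgg : g * (1 + d) = 1 := inv_mul_cancel₀ S.hγ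
  obtain ⟨p, hp, q, hq, r, hr, f1, f2, f3⟩ := E.K (g • ((1 - d) • q1 + d • q2))
    (g • (d • q1 - (1 + d) • q2)) q3
    (Submodule.smul_mem _ _ (add_mem (Submodule.smul_mem _ _ hq1) (Submodule.smul_mem _ _ hq2)))
    (Submodule.smul_mem _ _ (sub_mem (Submodule.smul_mem _ _ hq1) (Submodule.smul_mem _ _ hq2)))
    hq3 (by
      have e5 : g • (q1 * ((1 - d) • x + d • y) + q2 * (d • x - (1 + d) • y) +
        (1 + d) • (q3 * T)) = 0 := by rw [← e4, smul_zero]
      have e6 : g • ((1 + d) • (q3 * T)) = q3 * T := by rw [smul_smul, hgg, one_smul]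
      simp only [mul_add, add_mul, mul_sub, sub_mul, smul_add, smul_sub, mul_smul_comm,
        smul_mul_assoc, mul_assoc, mul_neg, neg_mul, smul_neg] at e5 e6 ⊢
      linear_combination (norm := module) e5 - e6)
  refine ⟨p1 - p * X, sub_mem hp1 (S.mX' hp), p2 + q * ((1 + d) • T - d • X), ?_,
    p3 - p * x + q * y, ?_, ?_⟩
  · rw [mul_sub, mul_smul_comm, mul_smul_comm]
    exact add_mem hp2 (sub_mem (Submodule.smul_mem _ _ (S.mT' hq))
      (Submodule.smul_mem _ _ (S.mX' hq)))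
  · exact add_mem (sub_mem hp3 (S.mx' hp)) (S.my' hq)
  have f1' : (1 - d) • q1 + d • q2 = (1 + d) •
      ((1 - d) • (p * T) + d • (q * T) + r * ((1 - d) • x + d • y)) := by
    rw [← f1, smul_smul, mul_comm, hgg, one_smul]
  have f2' : d • q1 - (1 + d) • q2 = (1 + d) •
      (d • (p * T) - q * (X + d • T) + r * (d • x - (1 + d) • y)) := by
    rw [← f2, smul_smul, mul_comm, hgg, one_smul]
  have hq1' : q1 = (1 + d) • (p * T - d • (q * (X - T)) + r * x) := by
    simp only [mul_add, add_mul, mul_sub, sub_mul, smul_add, smul_sub, mul_smul_comm, smul_mul_assoc,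
    mul_assoc, mul_neg, neg_mul, smul_neg] at f1' f2' ⊢
    linear_combination (norm := module) (1 + d) • f1' + d • f2'
  have hq2' : q2 = (1 + d) • (q * ((1 - d) • X + d • T) + r * y) := by
    simp only [mul_add, add_mul, mul_sub, sub_mul, smul_add, smul_sub, mul_smul_comm, smul_mul_assoc,
    mul_assoc, mul_neg, neg_mul, smul_neg] at f1' f2' ⊢
    linear_combination (norm := module) d • f1' - (1 - d) • f2'
  rw [hq1', hq2', f3] at e1 e2
  have p1h := congrArg (p * ·) S.rel.h1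
  have p2h := congrArg (p * ·) S.rel.h2
  have p6h := congrArg (p * ·) S.rel.h6
  have q2h := congrArg (q * ·) S.rel.h2
  have q3h := congrArg (q * ·) S.rel.h3
  have q6h := congrArg (q * ·) S.rel.h6
  have r3h := congrArg (r * ·) S.rel.h3
  have r4h := congrArg (r * ·) S.rel.h4
  have r5h := congrArg (r * ·) S.rel.h5
  simp only [mul_add, add_mul, mul_sub, sub_mul, smul_add, smul_sub, mul_smul_comm, smul_mul_assoc,
    mul_assoc, mul_neg, neg_mul, smul_neg] at p1h p2h p6h q2h q3h q6h r3h r4h r5h e1 e2 e3 ⊢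
  refine ⟨?_, ?_, ?_⟩
  · linear_combination (norm := module) e1 + p2h + (1 - d) • p6h + d • q6h +
      ((1 + d) * (1 - d)) • r5h + ((1 + d) * d) • r4h
  · linear_combination (norm := module) e2 + d • p6h - q2h - (1 + d) • q6h +
      (1 + d) • (d • r5h - (1 + d) • r4h - (r3h - r4h))
  · linear_combination (norm := module) e3 - p1h - q3h

/-- step for `K` -/
lemma Setup.step_K (S : Setup d ω x y X T 𝒢) {j : ℕ} (E : Ex d ω x y X T 𝒢 j) :
    ∀ a b e, a ∈ 𝒢 (j + 1) → b ∈ 𝒢 (j + 1) → e ∈ 𝒢 (j + 1) → a * x + b * y + e * T = 0 →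
    ∃ p ∈ 𝒢 j, ∃ q ∈ 𝒢 j, ∃ r ∈ 𝒢 j,
      a = (1 - d) • (p * T) + d • (q * T) + r * ((1 - d) • x + d • y) ∧
      b = d • (p * T) - q * (X + d • T) + r * (d • x - (1 + d) • y) ∧
      e = p * ((1 - d) • x + d • y) + q * (d • x - (1 + d) • y) + (1 + d) • (r * T) := by
  intro a b e ha hb he h
  obtain ⟨p1, hp1, p2, hp2, p3, hp3, q1, hq1, q2, hq2, q3, hq3, e1, e2, e3, e4⟩ :=
    S.F j a b 0 e ha hb (zero_mem _) he (by simpa using h)
  obtain ⟨p, hp, q, hq, r, hr, f1, f2, f3⟩ := E.H (-p1) p2 p3 (neg_mem hp1) hp2 hp3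
    (by rw [neg_mul]; exact e3.symm)
  have f1' : p1 = -(p * X - r * x) := by rw [← f1, neg_neg]
  refine ⟨q1 + (1 + d) • (p * T - d • (q * X - q * T)), ?_,
    q2 + (1 + d) • ((1 - d) • (q * X) + d • (q * T)), ?_,
    q3 + ((1 - d) • (p * x) + d • (p * y)) + (d • (q * x) - (1 + d) • (q * y)), ?_, ?_⟩
  · exact add_mem hq1 (Submodule.smul_mem _ _ (sub_mem (S.mT' hp)
      (Submodule.smul_mem _ _ (sub_mem (S.mX' hq) (S.mT' hq)))))
  · exact add_mem hq2 (Submodule.smul_mem _ _ (add_mem (Submodule.smul_mem _ _ (S.mX' hq))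
      (Submodule.smul_mem _ _ (S.mT' hq))))
  · exact add_mem (add_mem hq3 (add_mem (Submodule.smul_mem _ _ (S.mx' hp))
      (Submodule.smul_mem _ _ (S.my' hp)))) (sub_mem (Submodule.smul_mem _ _ (S.mx' hq))
      (Submodule.smul_mem _ _ (S.my' hq)))
  rw [f1', f3] at e1
  rw [f2, f3] at e2
  have p2h := congrArg (p * ·) S.rel.h2
  have p4h := congrArg (p * ·) S.rel.h4
  have p5h := congrArg (p * ·) S.rel.h5
  have p6h := congrArg (p * ·) S.rel.h6
  have q2h := congrArg (q * ·) S.rel.h2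
  have q4h := congrArg (q * ·) S.rel.h4
  have q5h := congrArg (q * ·) S.rel.h5
  have q6h := congrArg (q * ·) S.rel.h6
  have r1h := congrArg (r * ·) S.rel.h1
  have r3h := congrArg (r * ·) S.rel.h3
  have r4h := congrArg (r * ·) S.rel.h4
  simp only [mul_add, add_mul, mul_sub, sub_mul, smul_add, smul_sub, mul_smul_comm, smul_mul_assoc,
    mul_assoc, mul_neg, neg_mul, smul_neg] at p2h p4h p5h p6h q2h q4h q5h q6h r1h r3h r4h e1 e2 e4 ⊢
  refine ⟨?_, ?_, ?_⟩
  · linear_combination (norm := module) e1 - p2h - (1 - d) • p6h - d • q6h - r1h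
  · linear_combination (norm := module) e2 - d • p6h + q2h + (1 + d) • q6h - d • r3h +
      (1 + d) • r4h
  · linear_combination (norm := module) e4 - (1 + d) • ((1 - d) • p5h + d • p4h) -
      (1 + d) • (d • q5h - (1 + d) • q4h)

/-- step for `V` -/
lemma Setup.step_V (S : Setup d ω x y X T 𝒢) {j : ℕ} (E : Ex d ω x y X T 𝒢 j) :
    ∀ a b, a ∈ 𝒢 (j + 1) → b ∈ 𝒢 (j + 1) → a * y + b * (x - X) = 0 →
    ∃ p ∈ 𝒢 j, a = p * y ∧ b = -(p * (x + X)) := by
  intro a b ha hb h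
  obtain ⟨p, hp, q, hq, r, hr, f1, f2, f3⟩ := S.step_H E b a (-b) hb ha (neg_mem hb)
    (by rw [← h]; noncomm_ring)
  obtain ⟨c, hc, g1, g2⟩ := E.V q (-(p + r)) hq (neg_mem (add_mem hp hr)) (by
    simp only [mul_add, add_mul, mul_sub, sub_mul, smul_add, smul_sub, mul_smul_comm, smul_mul_assoc,
    mul_assoc, mul_neg, neg_mul, smul_neg] at f1 f3 ⊢
    linear_combination (norm := module) -f1 - f3)
  have hr' : r = c * (x + X) - p := by
    have : p + r = c * (x + X) := by rw [← neg_neg (p + r), g2, neg_neg]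
    rw [← this]; abel
  refine ⟨r - c * X, sub_mem hr (S.mX' hc), ?_, ?_⟩
  · rw [g1] at f2
    have c3h := congrArg (c * ·) S.rel.h3
    have c4h := congrArg (c * ·) S.rel.h4
    simp only [mul_add, add_mul, mul_sub, sub_mul, smul_add, smul_sub, mul_smul_comm, smul_mul_assoc,
    mul_assoc, mul_neg, neg_mul, smul_neg] at f2 c3h c4h ⊢
    linear_combination (norm := module) f2 - d • c3h + (1 + d) • c4h
  · have hp' : p = c * (x + X) - r := by rw [hr']; abel
    rw [hp'] at f1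
    have c1h := congrArg (c * ·) S.rel.h1
    simp only [mul_add, add_mul, mul_sub, sub_mul, smul_add, smul_sub, mul_smul_comm, smul_mul_assoc,
    mul_assoc, mul_neg, neg_mul, smul_neg] at f1 c1h ⊢
    linear_combination (norm := module) f1 - c1h

/-- step for `U` -/
lemma Setup.step_U (S : Setup d ω x y X T 𝒢) {j : ℕ} (E : Ex d ω x y X T 𝒢 j) :
    ∀ a b, a ∈ 𝒢 (j + 1) → b ∈ 𝒢 (j + 1) → a * y + b * (x + X) = 0 →
    ∃ p ∈ 𝒢 j, a = p * y ∧ b = -(p * (x - X)) := by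
  intro a b ha hb h
  obtain ⟨p, hp, q, hq, r, hr, f1, f2, f3⟩ := S.step_H E b a b hb ha hb
    (by rw [← h]; noncomm_ring)
  obtain ⟨c, hc, g1, g2⟩ := E.U (-q) (p - r) (neg_mem hq) (sub_mem hp hr) (by
    simp only [mul_add, add_mul, mul_sub, sub_mul, smul_add, smul_sub, mul_smul_comm, smul_mul_assoc,
    mul_assoc, mul_neg, neg_mul, smul_neg] at f1 f3 ⊢
    linear_combination (norm := module) f3 - f1)
  have hp' : p = r - c * (x - X) := by
    rw [sub_eq_add_neg, ← g2]; abel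
  have hq' : q = -(c * y) := by rw [← g1, neg_neg]
  refine ⟨r + c * X, add_mem hr (S.mX' hc), ?_, ?_⟩
  · rw [hq'] at f2
    have c3h := congrArg (c * ·) S.rel.h3
    have c4h := congrArg (c * ·) S.rel.h4
    simp only [mul_add, add_mul, mul_sub, sub_mul, smul_add, smul_sub, mul_smul_comm, smul_mul_assoc,
    mul_assoc, mul_neg, neg_mul, smul_neg] at f2 c3h c4h ⊢
    linear_combination (norm := module) f2 + d • c3h - (1 + d) • c4h
  · rw [hp'] at f1
    have c1h := congrArg (c * ·) S.rel.h1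
    simp only [mul_add, add_mul, mul_sub, sub_mul, smul_add, smul_sub, mul_smul_comm, smul_mul_assoc,
    mul_assoc, mul_neg, neg_mul, smul_neg] at f1 c1h ⊢
    linear_combination (norm := module) f1 + c1h

/-- step for `M` -/
lemma Setup.step_M (S : Setup d ω x y X T 𝒢) {j : ℕ} (E : Ex d ω x y X T 𝒢 j) :
    ∀ s : k, s = ω ∨ s = -ω → ∀ a b, a ∈ 𝒢 (j + 1) → b ∈ 𝒢 (j + 1) →
    a * y + b * (T + s • x) = 0 →
    ∃ p ∈ 𝒢 j, a = p * (d • (T + s • x) - (s * (1 + d)) • y) ∧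
      b = p * ((s * (1 + d)) • (T + s • x) + d • y) := by
  intro s hs a b ha hb h
  have hs2 : s ^ 2 * (1 + d) = 1 - d := by
    rcases hs with rfl | rfl
    · exact S.hω
    · rw [neg_sq]; exact S.hω
  have hd1 : (1 - d) = s * s * (1 + d) := by rw [← hs2]; ring
  obtain ⟨p, hp, q, hq, r, hr, f1, f2, f3⟩ := S.step_K E (s • b) a b
    (Submodule.smul_mem _ _ hb) ha hb (by
      rw [← h]
      simp only [mul_add, add_mul, mul_sub, sub_mul, smul_add, smul_sub, mul_smul_comm, smul_mul_assoc,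
    mul_assoc, mul_neg, neg_mul, smul_neg]
      module)
  have hs' : -s = ω ∨ -s = -ω := by
    rcases hs with rfl | rfl
    · right; rfl
    · left; simp
  obtain ⟨c, hc, g1, g2⟩ := E.M (-s) hs' (d • (r - s • p) + (s * (1 + d)) • q)
    (d • q - (s * (1 + d)) • (r - s • p))
    (add_mem (Submodule.smul_mem _ _ (sub_mem hr (Submodule.smul_mem _ _ hp)))
      (Submodule.smul_mem _ _ hq))
    (sub_mem (Submodule.smul_mem _ _ hq)
      (Submodule.smul_mem _ _ (sub_mem hr (Submodule.smul_mem _ _ hp)))) (by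
    have f3' := congrArg (s • ·) f3
    rw [hd1] at f1 f3'
    simp only [mul_add, add_mul, mul_sub, sub_mul, smul_add, smul_sub, mul_smul_comm, smul_mul_assoc,
    mul_assoc, mul_neg, neg_mul, smul_neg] at f1 f3' ⊢
    linear_combination (norm := module) f3' - f1)
  have hone : d * d + (s * (1 + d)) * (s * (1 + d)) = 1 := by
    linear_combination (1 + d) * hs2
  have ht : (d * d + (s * (1 + d)) * (s * (1 + d))) • (r - s • p) =
      (d * d + (s * (1 + d)) * (s * (1 + d))) • (c * (T + (-s) • x)) := by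
    simp only [mul_add, add_mul, mul_sub, sub_mul, smul_add, smul_sub, mul_smul_comm, smul_mul_assoc,
    mul_assoc, mul_neg, neg_mul, smul_neg] at g1 g2 ⊢
    linear_combination (norm := module) d • g1 - (s * (1 + d)) • g2
  have hq' : (d * d + (s * (1 + d)) * (s * (1 + d))) • q =
      (d * d + (s * (1 + d)) * (s * (1 + d))) • (c * y) := by
    simp only [mul_add, add_mul, mul_sub, sub_mul, smul_add, smul_sub, mul_smul_comm, smul_mul_assoc,
    mul_assoc, mul_neg, neg_mul, smul_neg] at g1 g2 ⊢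
    linear_combination (norm := module) (s * (1 + d)) • g1 + d • g2
  rw [hone, one_smul, one_smul] at ht hq'
  have hr' : r = s • p + c * (T + (-s) • x) := by rw [← ht]; abel
  rw [hq', hr'] at f2 f3
  refine ⟨p - c * x, sub_mem hp (S.mx' hc), ?_, ?_⟩
  · have c3h := congrArg (c * ·) S.rel.h3
    have c4h := congrArg (c * ·) S.rel.h4
    have c5h := congrArg (c * ·) S.rel.h5
    simp only [mul_add, add_mul, mul_sub, sub_mul, smul_add, smul_sub, mul_smul_comm, smul_mul_assoc,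
    mul_assoc, mul_neg, neg_mul, smul_neg] at f2 c3h c4h c5h ⊢
    linear_combination (norm := module) f2 + d • c5h - (1 + d) • c4h - (c3h - c4h)
  · have c6h := congrArg (c * ·) S.rel.h6
    rw [hd1] at f3 c6h
    simp only [mul_add, add_mul, mul_sub, sub_mul, smul_add, smul_sub, mul_smul_comm, smul_mul_assoc,
    mul_assoc, mul_neg, neg_mul, smul_neg] at f3 c6h ⊢
    linear_combination (norm := module) f3 + c6h

/-- step for `Y` and `V0` -/
lemma Setup.step_Y (S : Setup d ω x y X T 𝒢) {j : ℕ} (E : Ex d ω x y X T 𝒢 j) :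
    ∀ a, a ∈ 𝒢 (j + 1) → a * y = 0 → a = 0 := by
  intro a ha h
  obtain ⟨p, hp, e1, e2⟩ := S.step_U E a 0 ha (zero_mem _) (by simp [h])
  have : p = 0 := E.V0 p hp (by rw [← neg_eq_zero]; exact e2.symm)
  rw [e1, this, zero_mul]

lemma Setup.step_V0 (S : Setup d ω x y X T 𝒢) {j : ℕ} (E : Ex d ω x y X T 𝒢 j) :
    ∀ a, a ∈ 𝒢 (j + 1) → a * (x - X) = 0 → a = 0 := by
  intro a ha h
  obtain ⟨p, hp, e1, e2⟩ := S.step_V E 0 a (zero_mem _) ha (by simp [h])
  have : p = 0 := E.Y p hp e1.symm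
  rw [e2, this, zero_mul, neg_zero]

theorem Setup.ex (S : Setup d ω x y X T 𝒢) (j : ℕ) : Ex d ω x y X T 𝒢 j := by
  induction j with
  | zero => exact S.ex_zero
  | succ j E =>
    exact ⟨S.step_H E, S.step_K E, S.step_U E, S.step_V E, S.step_M E, S.step_Y E, S.step_V0 E⟩

/-! ### Higher syzygies -/

/-- second syzygies for the first point module -/
lemma Setup.H2 (S : Setup d ω x y X T 𝒢) (j : ℕ) :
    ∀ p q r, p ∈ 𝒢 j → q ∈ 𝒢 j → r ∈ 𝒢 j → p * X - r * x = 0 →
      q * ((1 + d) • T - d • X) + r * y = 0 → -(p * x) + q * y + r * X = 0 →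
    ∃ c ∈ 𝒢 (j - 1), p = c * x ∧ q = c * y ∧ r = c * X := by
  intro p q r hp hq hr e1 e2 e3
  obtain ⟨c, hc, g1, g2⟩ := (S.ex j).V q (-(p + r)) hq (neg_mem (add_mem hp hr)) (by
    simp only [mul_add, add_mul, mul_sub, sub_mul, smul_add, smul_sub, mul_smul_comm, smul_mul_assoc,
    mul_assoc, mul_neg, neg_mul, smul_neg] at e1 e3 ⊢
    linear_combination (norm := module) e1 + e3)
  have hp' : p = c * (x + X) - r := by
    have : p + r = c * (x + X) := by rw [← neg_neg (p + r), g2, neg_neg]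
    rw [← this]; abel
  have hz : r - c * X = 0 := by
    apply (S.ex j).Y _ (sub_mem hr (S.mX' hc))
    rw [g1] at e2
    have c3h := congrArg (c * ·) S.rel.h3
    have c4h := congrArg (c * ·) S.rel.h4
    simp only [mul_add, add_mul, mul_sub, sub_mul, smul_add, smul_sub, mul_smul_comm, smul_mul_assoc,
    mul_assoc, mul_neg, neg_mul, smul_neg] at e2 c3h c4h ⊢
    linear_combination (norm := module) e2 + d • c3h - (1 + d) • c4h
  have hr' : r = c * X := sub_eq_zero.mp hz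
  refine ⟨c, hc, ?_, g1, hr'⟩
  rw [hp', hr', mul_add]; abel

/-- second syzygies for the second point module -/
lemma Setup.K2 (S : Setup d ω x y X T 𝒢) (j : ℕ) :
    ∀ p q r, p ∈ 𝒢 j → q ∈ 𝒢 j → r ∈ 𝒢 j →
      (1 - d) • (p * T) + d • (q * T) + r * ((1 - d) • x + d • y) = 0 →
      d • (p * T) - q * (X + d • T) + r * (d • x - (1 + d) • y) = 0 →
      p * ((1 - d) • x + d • y) + q * (d • x - (1 + d) • y) + (1 + d) • (r * T) = 0 →
    ∃ c ∈ 𝒢 (j - 1), p = c * x ∧ q = c * y ∧ r = c * T := by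
  intro p q r hp hq hr f1 f2 f3
  have hd1 : (1 - d) = ω * ω * (1 + d) := by rw [← S.hω]; ring
  obtain ⟨c, hc, g1, g2⟩ := (S.ex j).M (-ω) (Or.inr rfl) (d • (r - ω • p) + (ω * (1 + d)) • q)
    (d • q - (ω * (1 + d)) • (r - ω • p))
    (add_mem (Submodule.smul_mem _ _ (sub_mem hr (Submodule.smul_mem _ _ hp)))
      (Submodule.smul_mem _ _ hq))
    (sub_mem (Submodule.smul_mem _ _ hq)
      (Submodule.smul_mem _ _ (sub_mem hr (Submodule.smul_mem _ _ hp)))) (by
    have f1' := f1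
    have f3' := congrArg (ω • ·) f3
    rw [hd1] at f1' f3'
    simp only [mul_add, add_mul, mul_sub, sub_mul, smul_add, smul_sub, mul_smul_comm, smul_mul_assoc,
    mul_assoc, mul_neg, neg_mul, smul_neg] at f1' f3' ⊢
    linear_combination (norm := module) f1' - f3')
  have hone : d * d + (ω * (1 + d)) * (ω * (1 + d)) = 1 := by
    linear_combination (1 + d) * S.hω
  have ht : (d * d + (ω * (1 + d)) * (ω * (1 + d))) • (r - ω • p) =
      (d * d + (ω * (1 + d)) * (ω * (1 + d))) • (c * (T + (-ω) • x)) := by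
    simp only [mul_add, add_mul, mul_sub, sub_mul, smul_add, smul_sub, mul_smul_comm, smul_mul_assoc,
    mul_assoc, mul_neg, neg_mul, smul_neg] at g1 g2 ⊢
    linear_combination (norm := module) d • g1 - (ω * (1 + d)) • g2
  have hq' : (d * d + (ω * (1 + d)) * (ω * (1 + d))) • q =
      (d * d + (ω * (1 + d)) * (ω * (1 + d))) • (c * y) := by
    simp only [mul_add, add_mul, mul_sub, sub_mul, smul_add, smul_sub, mul_smul_comm, smul_mul_assoc,
    mul_assoc, mul_neg, neg_mul, smul_neg] at g1 g2 ⊢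
    linear_combination (norm := module) (ω * (1 + d)) • g1 + d • g2
  rw [hone, one_smul, one_smul] at ht hq'
  have hr' : r = ω • p + c * (T + (-ω) • x) := by rw [← ht]; abel
  have hz1 : (p - c * x) * ((ω * (1 + d)) • (T + ω • x) + d • y) = 0 := by
    have c6h := congrArg (c * ·) S.rel.h6
    rw [hq', hr', hd1] at f3
    rw [hd1] at c6h
    simp only [mul_add, add_mul, mul_sub, sub_mul, smul_add, smul_sub, mul_smul_comm, smul_mul_assoc,
    mul_assoc, mul_neg, neg_mul, smul_neg] at f3 c6h ⊢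
    linear_combination (norm := module) f3 - c6h
  have hz2 : (p - c * x) * (d • (T + ω • x) - (ω * (1 + d)) • y) = 0 := by
    have c3h := congrArg (c * ·) S.rel.h3
    have c4h := congrArg (c * ·) S.rel.h4
    have c5h := congrArg (c * ·) S.rel.h5
    rw [hq', hr'] at f2
    simp only [mul_add, add_mul, mul_sub, sub_mul, smul_add, smul_sub, mul_smul_comm, smul_mul_assoc,
    mul_assoc, mul_neg, neg_mul, smul_neg] at f2 c3h c4h c5h ⊢
    linear_combination (norm := module) f2 - d • c5h + (1 + d) • c4h + (c3h - c4h)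
  have hz : p - c * x = 0 := by
    apply (S.ex j).Y _ (sub_mem hp (S.mx' hc))
    have : (d * d + (ω * (1 + d)) * (ω * (1 + d))) • ((p - c * x) * y) = 0 := by
      simp only [mul_add, add_mul, mul_sub, sub_mul, smul_add, smul_sub, mul_smul_comm, smul_mul_assoc,
    mul_assoc, mul_neg, neg_mul, smul_neg] at hz1 hz2 ⊢
      linear_combination (norm := module) d • hz1 - (ω * (1 + d)) • hz2
    rwa [hone, one_smul] at this
  have hp' : p = c * x := sub_eq_zero.mp hz
  refine ⟨c, hc, hp', hq', ?_⟩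
  rw [hr', hp', mul_add, mul_smul_comm]; module

/-- exactness at the middle spot -/
lemma Setup.F2 (S : Setup d ω x y X T 𝒢) (j : ℕ) :
    ∀ p1 p2 p3 q1 q2 q3, p1 ∈ 𝒢 j → p2 ∈ 𝒢 j → p3 ∈ 𝒢 j → q1 ∈ 𝒢 j → q2 ∈ 𝒢 j → q3 ∈ 𝒢 j →
      p1 * X - p3 * x + ((1 - d) • (q1 * T) + d • (q2 * T) + q3 * ((1 - d) • x + d • y)) = 0 →
      p2 * ((1 + d) • T - d • X) + p3 * y +
        (d • (q1 * T) - q2 * (X + d • T) + q3 * (d • x - (1 + d) • y)) = 0 →
      -(p1 * x) + p2 * y + p3 * X = 0 →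
      q1 * ((1 - d) • x + d • y) + q2 * (d • x - (1 + d) • y) + (1 + d) • (q3 * T) = 0 →
    ∃ a ∈ 𝒢 (j - 1), ∃ b ∈ 𝒢 (j - 1), ∃ c ∈ 𝒢 (j - 1), ∃ e ∈ 𝒢 (j - 1),
      p1 = c * x - a * X ∧ p2 = b * ((1 + d) • T - d • X) + c * y ∧
      p3 = -(a * x) + b * y + c * X ∧
      q1 = -((1 + d) • (a * T - d • (b * (X - T)) + e * x)) ∧
      q2 = -((1 + d) • (b * ((1 - d) • X + d • T) + e * y)) ∧
      q3 = -(a * ((1 - d) • x + d • y) + b * (d • x - (1 + d) • y) + (1 + d) • (e * T)) := by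
  intro p1 p2 p3 q1 q2 q3 hp1 hp2 hp3 hq1 hq2 hq3 e1 e2 e3 e4
  set g : k := (1 + d)⁻¹ with hg
  have hgg : g * (1 + d) = 1 := inv_mul_cancel₀ S.hγ
  obtain ⟨p, hp, q, hq, r, hr, f1, f2, f3⟩ := (S.ex j).K (g • ((1 - d) • q1 + d • q2))
    (g • (d • q1 - (1 + d) • q2)) q3
    (Submodule.smul_mem _ _ (add_mem (Submodule.smul_mem _ _ hq1) (Submodule.smul_mem _ _ hq2)))
    (Submodule.smul_mem _ _ (sub_mem (Submodule.smul_mem _ _ hq1) (Submodule.smul_mem _ _ hq2)))
    hq3 (by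
      have e5 : g • (q1 * ((1 - d) • x + d • y) + q2 * (d • x - (1 + d) • y) +
        (1 + d) • (q3 * T)) = 0 := by rw [e4, smul_zero]
      have e6 : g • ((1 + d) • (q3 * T)) = q3 * T := by rw [smul_smul, hgg, one_smul]
      simp only [mul_add, add_mul, mul_sub, sub_mul, smul_add, smul_sub, mul_smul_comm, smul_mul_assoc,
    mul_assoc, mul_neg, neg_mul, smul_neg] at e5 e6 ⊢
      linear_combination (norm := module) e5 - e6)
  have f1' : (1 - d) • q1 + d • q2 = (1 + d) •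
      ((1 - d) • (p * T) + d • (q * T) + r * ((1 - d) • x + d • y)) := by
    rw [← f1, smul_smul, mul_comm, hgg, one_smul]
  have f2' : d • q1 - (1 + d) • q2 = (1 + d) •
      (d • (p * T) - q * (X + d • T) + r * (d • x - (1 + d) • y)) := by
    rw [← f2, smul_smul, mul_comm, hgg, one_smul]
  have hq1' : q1 = (1 + d) • (p * T - d • (q * (X - T)) + r * x) := by
    simp only [mul_add, add_mul, mul_sub, sub_mul, smul_add, smul_sub, mul_smul_comm, smul_mul_assoc,
    mul_assoc, mul_neg, neg_mul, smul_neg] at f1' f2' ⊢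
    linear_combination (norm := module) (1 + d) • f1' + d • f2'
  have hq2' : q2 = (1 + d) • (q * ((1 - d) • X + d • T) + r * y) := by
    simp only [mul_add, add_mul, mul_sub, sub_mul, smul_add, smul_sub, mul_smul_comm, smul_mul_assoc,
    mul_assoc, mul_neg, neg_mul, smul_neg] at f1' f2' ⊢
    linear_combination (norm := module) d • f1' - (1 - d) • f2'
  have hA : (p1 - p * X) * X - (p3 - p * x + q * y) * x = 0 := by
    rw [hq1', hq2', f3] at e1
    have p2h := congrArg (p * ·) S.rel.h2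
    have p6h := congrArg (p * ·) S.rel.h6
    have q6h := congrArg (q * ·) S.rel.h6
    have r4h := congrArg (r * ·) S.rel.h4
    have r5h := congrArg (r * ·) S.rel.h5
    simp only [mul_add, add_mul, mul_sub, sub_mul, smul_add, smul_sub, mul_smul_comm, smul_mul_assoc,
    mul_assoc, mul_neg, neg_mul, smul_neg] at p2h p6h q6h r4h r5h e1 ⊢
    linear_combination (norm := module) e1 - p2h - (1 - d) • p6h - d • q6h -
      ((1 + d) * (1 - d)) • r5h - ((1 + d) * d) • r4h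
  have hB : (p2 + (q * ((1 + d) • T - d • X))) * ((1 + d) • T - d • X) +
      (p3 - p * x + q * y) * y = 0 := by
    rw [hq1', hq2', f3] at e2
    have p6h := congrArg (p * ·) S.rel.h6
    have q2h := congrArg (q * ·) S.rel.h2
    have q6h := congrArg (q * ·) S.rel.h6
    have r3h := congrArg (r * ·) S.rel.h3
    have r4h := congrArg (r * ·) S.rel.h4
    have r5h := congrArg (r * ·) S.rel.h5
    simp only [mul_add, add_mul, mul_sub, sub_mul, smul_add, smul_sub, mul_smul_comm, smul_mul_assoc,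
    mul_assoc, mul_neg, neg_mul, smul_neg] at p6h q2h q6h r3h r4h r5h e2 ⊢
    linear_combination (norm := module) e2 - d • p6h + q2h + (1 + d) • q6h -
      (1 + d) • (d • r5h - (1 + d) • r4h - (r3h - r4h))
  have hC : -((p1 - p * X) * x) + (p2 + (q * ((1 + d) • T - d • X))) * y +
      (p3 - p * x + q * y) * X = 0 := by
    have p1h := congrArg (p * ·) S.rel.h1
    have q3h := congrArg (q * ·) S.rel.h3
    simp only [mul_add, add_mul, mul_sub, sub_mul, smul_add, smul_sub, mul_smul_comm, smul_mul_assoc,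
    mul_assoc, mul_neg, neg_mul, smul_neg] at p1h q3h e3 ⊢
    linear_combination (norm := module) e3 + p1h + q3h
  obtain ⟨c, hc, k1, k2, k3⟩ := S.H2 j _ _ _ (sub_mem hp1 (S.mX' hp))
    (add_mem hp2 (by
      rw [mul_sub, mul_smul_comm, mul_smul_comm]
      exact sub_mem (Submodule.smul_mem _ _ (S.mT' hq)) (Submodule.smul_mem _ _ (S.mX' hq))))
    (add_mem (sub_mem hp3 (S.mx' hp)) (S.my' hq)) hA hB hC
  refine ⟨-p, neg_mem hp, -q, neg_mem hq, c, hc, -r, neg_mem hr, ?_, ?_, ?_, ?_, ?_, ?_⟩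
  · rw [← k1]; noncomm_ring
  · rw [← k2]; simp only [neg_mul]; abel
  · rw [← k3]; simp only [neg_mul]; abel
  · rw [hq1']; simp only [neg_mul]; module
  · rw [hq2']; simp only [neg_mul]; module
  · rw [f3]; simp only [neg_mul]; module

/-- exactness at the second spot -/
lemma Setup.F1 (S : Setup d ω x y X T 𝒢) (j : ℕ) :
    ∀ a b c e, a ∈ 𝒢 j → b ∈ 𝒢 j → c ∈ 𝒢 j → e ∈ 𝒢 j →
      c * x - a * X = 0 → b * ((1 + d) • T - d • X) + c * y = 0 →
      -(a * x) + b * y + c * X = 0 →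
      (1 + d) • (a * T - d • (b * (X - T)) + e * x) = 0 →
      (1 + d) • (b * ((1 - d) • X + d • T) + e * y) = 0 →
      a * ((1 - d) • x + d • y) + b * (d • x - (1 + d) • y) + (1 + d) • (e * T) = 0 →
    ∃ r ∈ 𝒢 (j - 1), a = r * x ∧ b = r * y ∧ c = r * X ∧ e = r * T := by
  intro a b c e ha hb hc he e1 e2 e3 e4 e5 e6
  rw [smul_eq_zero_iff_right S.hγ] at e4 e5
  obtain ⟨r, hr, h1, h2, h3⟩ := S.K2 j a b e ha hb he (by
      simp only [mul_add, add_mul, mul_sub, sub_mul, smul_add, smul_sub, mul_smul_comm, smul_mul_assoc,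
    mul_assoc, mul_neg, neg_mul, smul_neg] at e4 e5 ⊢
      linear_combination (norm := module) (1 - d) • e4 + d • e5) (by
      simp only [mul_add, add_mul, mul_sub, sub_mul, smul_add, smul_sub, mul_smul_comm, smul_mul_assoc,
    mul_assoc, mul_neg, neg_mul, smul_neg] at e4 e5 ⊢
      linear_combination (norm := module) d • e4 - (1 + d) • e5) e6
  have hz : c - r * X = 0 := by
    apply (S.ex j).Y _ (sub_mem hc (S.mX' hr))
    rw [h2] at e2
    have r3h := congrArg (r * ·) S.rel.h3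
    have r4h := congrArg (r * ·) S.rel.h4
    simp only [mul_add, add_mul, mul_sub, sub_mul, smul_add, smul_sub, mul_smul_comm, smul_mul_assoc,
    mul_assoc, mul_neg, neg_mul, smul_neg] at e2 r3h r4h ⊢
    linear_combination (norm := module) e2 + d • r3h - (1 + d) • r4h
  exact ⟨r, hr, h1, h2, sub_eq_zero.mp hz, h3⟩

end Pool.Agent.MP_a6a2ff_al
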