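import Pool.Agent.MP_a6a2ff_al.PointMod

/-!
# Classification of the point modules
-/

set_option linter.unusedSimpArgs false
set_option linter.unusedVariables false
set_option linter.unusedSectionVars false

universe u

namespace Pool.Agent.MP_a6a2ff_al

variable {k : Type u} [Field k] {R : Type u} [Ring R] [Algebra k R] {d ω : k} {x y X T : R}

section Structure

variable (P : PointModule (powGrading k x y X T))

instance : SMulCommClass k Rᵐᵒᵖ P.M := ⟨fun c r m => by
  rw [← algebraMap_smul Rᵐᵒᵖ c m, ← algebraMap_smul Rᵐᵒᵖ c (r • m), smul_smul, smul_smul,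
    Algebra.commutes]⟩

lemma PointModule.comp_eq_span {n : ℕ} {m : P.M} (hm : m ∈ P.comp n) (h0 : m ≠ 0) :
    P.comp n = Submodule.span k {m} := by
  have hne : (⟨m, hm⟩ : P.comp n) ≠ 0 := fun h => h0 (congrArg Subtype.val h)
  have H := (finrank_eq_one_iff_of_nonzero' (⟨m, hm⟩ : P.comp n) hne).mp (P.finrank_comp n)
  apply le_antisymm
  · intro z hz
    obtain ⟨c, hc⟩ := H ⟨z, hz⟩
    rw [Submodule.mem_span_singleton]
    exact ⟨c, congrArg Subtype.val hc⟩
  · rw [Submodule.span_singleton_le_iff_mem]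
    exact hm

lemma PointModule.exists_ne (n : ℕ) : ∃ m ∈ P.comp n, m ≠ 0 := by
  have h1 : P.comp n ≠ ⊥ := by
    intro h
    have := P.finrank_comp n
    rw [h, finrank_bot] at this
    exact zero_ne_one this
  exact Submodule.exists_mem_ne_zero_of_ne_bot h1

lemma PointModule.smul_mem_one {n : ℕ} {m : P.M} (hm : m ∈ P.comp n) (v : R)
    (hv : v ∈ genSpan k x y X T) : MulOpposite.op v • m ∈ P.comp (n + 1) :=
  P.smul_mem 1 n v m (mem_one_of_mem hv) hm

lemma PointModule.exists_smul_ne (h : IsPres k R d x y X T) {n : ℕ} {m : P.M}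
    (hm : m ∈ P.comp n) (h0 : m ≠ 0) :
    ∃ j, MulOpposite.op (gens x y X T j) • m ≠ 0 := by
  by_contra hcon
  push Not at hcon
  -- the span of the components up to degree n is a submodule
  let N : Submodule k P.M := ⨆ i : {i : ℕ // i ≤ n}, P.comp i
  have hgen : ∀ j, ∀ z ∈ N, MulOpposite.op (gens x y X T j) • z ∈ N := by
    intro j z hz
    induction hz using Submodule.iSup_induction' with
    | mem i z hz =>
      rcases Nat.lt_or_ge i.1 n with hi | hi
      · exact (le_iSup (fun i : {i : ℕ // i ≤ n} => P.comp i) ⟨i.1 + 1, hi⟩)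
          (P.smul_mem_one hz _ (gens_mem j))
      · have hin : i.1 = n := le_antisymm i.2 hi
        rw [hin, P.comp_eq_span hm h0, Submodule.mem_span_singleton] at hz
        obtain ⟨c, rfl⟩ := hz
        rw [smul_comm, hcon j, smul_zero]
        exact zero_mem _
    | zero => rw [smul_zero]; exact zero_mem _
    | add a b _ _ iha ihb => rw [smul_add]; exact add_mem iha ihb
  have hall : ∀ r : R, ∀ z ∈ N, MulOpposite.op r • z ∈ N := by
    intro r
    refine h.induction (fun r => ∀ z ∈ N, MulOpposite.op r • z ∈ N) hgen ?_ ?_ ?_ r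
    · intro c z hz
      have : MulOpposite.op (algebraMap k R c) = algebraMap k Rᵐᵒᵖ c := rfl
      rw [this, algebraMap_smul]
      exact Submodule.smul_mem _ _ hz
    · intro a b ha hb z hz
      rw [MulOpposite.op_add, add_smul]
      exact add_mem (ha z hz) (hb z hz)
    · intro a b ha hb z hz
      rw [MulOpposite.op_mul, mul_smul]
      exact hb _ (ha z hz)
  have htop : ∀ z : P.M, z ∈ N := by
    intro z
    have hz : z ∈ Submodule.span Rᵐᵒᵖ (P.comp 0 : Set P.M) := by
      rw [P.generated]; trivial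
    induction hz using Submodule.span_induction with
    | mem z hz => exact (le_iSup (fun i : {i : ℕ // i ≤ n} => P.comp i) ⟨0, Nat.zero_le n⟩) hz
    | zero => exact zero_mem _
    | add a b _ _ iha ihb => exact add_mem iha ihb
    | smul r a _ iha => exact hall r.unop a iha
  obtain ⟨m', hm', hm'0⟩ := P.exists_ne (n + 1)
  have hdisj := P.isInternal.submodule_iSupIndep (n + 1)
  have hle : N ≤ ⨆ j, ⨆ (_ : j ≠ n + 1), P.comp j := by
    refine iSup_le fun i => ?_
    refine le_iSup₂_of_le i.1 ?_ le_rfl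
    have := i.2
    omega
  exact hm'0 ((Submodule.disjoint_def.mp hdisj) m' hm' (hle (htop m')))

/-- one step -/
lemma PointModule.exists_step (h : IsPres k R d x y X T) {n : ℕ} {m : P.M}
    (hm : m ∈ P.comp n) (h0 : m ≠ 0) :
    ∃ (l : Fin 4 → k) (m' : P.M), l ≠ 0 ∧ m' ∈ P.comp (n + 1) ∧ m' ≠ 0 ∧
      ∀ j, MulOpposite.op (gens x y X T j) • m = l j • m' := by
  obtain ⟨m', hm', hm'0⟩ := P.exists_ne (n + 1)
  have h1 : ∀ j, ∃ c : k, c • m' = MulOpposite.op (gens x y X T j) • m := by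
    intro j
    have := P.smul_mem_one hm _ (gens_mem j)
    rw [P.comp_eq_span hm' hm'0, Submodule.mem_span_singleton] at this
    exact this
  choose l hl using h1
  refine ⟨l, m', ?_, hm', hm'0, fun j => (hl j).symm⟩
  rintro rfl
  obtain ⟨j, hj⟩ := P.exists_smul_ne h hm h0
  exact hj (by rw [← hl j, Pi.zero_apply, zero_smul])

lemma PointModule.smul_smul_gens {m m' m'' : P.M} {l l' : Fin 4 → k}
    (hl : ∀ j, MulOpposite.op (gens x y X T j) • m = l j • m')
    (hl' : ∀ j, MulOpposite.op (gens x y X T j) • m' = l' j • m'') (i j : Fin 4) :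
    (MulOpposite.op (gens x y X T j) * MulOpposite.op (gens x y X T i)) • m =
      (l i * l' j) • m'' := by
  rw [mul_smul, hl, smul_comm, hl', smul_smul]

lemma PointModule.gam (h : IsPres k R d x y X T) {m m' m'' : P.M} {l l' : Fin 4 → k}
    (hm'' : m'' ≠ 0)
    (hl : ∀ j, MulOpposite.op (gens x y X T j) • m = l j • m')
    (hl' : ∀ j, MulOpposite.op (gens x y X T j) • m' = l' j • m'') : Gam d l l' := by
  have key := P.smul_smul_gens hl hl'
  have h00 := key 0 0
  have h01 := key 0 1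
  have h02 := key 0 2
  have h03 := key 0 3
  have h10 := key 1 0
  have h11 := key 1 1
  have h12 := key 1 2
  have h13 := key 1 3
  have h20 := key 2 0
  have h21 := key 2 1
  have h22 := key 2 2
  have h30 := key 3 0
  have h31 := key 3 1
  have h33 := key 3 3
  simp only [gens, Matrix.cons_val_zero, Matrix.cons_val_one, Matrix.cons_val]
    at h00 h01 h02 h03 h10 h11 h12 h13 h20 h21 h22 h30 h31 h33
  have cancel : ∀ a b : k, a • m'' = b • m'' → a = b := fun a b hab => by
    have : (a - b) • m'' = 0 := by rw [sub_smul, hab, sub_self]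
    exact sub_eq_zero.mp ((smul_eq_zero.mp this).resolve_right hm'')
  constructor
  · apply cancel
    have := congrArg (fun r : R => MulOpposite.op r • m) h.rel.h1
    simp only [MulOpposite.op_mul] at this
    rw [h20, h02] at this
    exact this
  · apply cancel
    have := congrArg (fun r : R => MulOpposite.op r • m) h.rel.h2
    simp only [MulOpposite.op_mul, MulOpposite.op_add, add_smul, h11, h22, h00] at this
    rw [add_smul]
    exact this
  · apply cancel
    have := congrArg (fun r : R => MulOpposite.op r • m) h.rel.h3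
    simp only [sub_mul, MulOpposite.op_mul, MulOpposite.op_add, MulOpposite.op_sub,
      MulOpposite.op_smul, add_smul, sub_smul, smul_assoc, h12, h21, h31] at this
    linear_combination (norm := module) this
  · apply cancel
    have := congrArg (fun r : R => MulOpposite.op r • m) h.rel.h4
    simp only [sub_mul, MulOpposite.op_mul, MulOpposite.op_add, MulOpposite.op_sub,
      MulOpposite.op_smul, add_smul, sub_smul, smul_assoc, h13, h21, h31] at this
    linear_combination (norm := module) this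
  · apply cancel
    have := congrArg (fun r : R => MulOpposite.op r • m) h.rel.h5
    simp only [sub_mul, MulOpposite.op_mul, MulOpposite.op_add, MulOpposite.op_sub,
      MulOpposite.op_smul, add_smul, sub_smul, smul_assoc, h03, h30, h21, h31] at this
    linear_combination (norm := module) this
  · apply cancel
    have := congrArg (fun r : R => MulOpposite.op r • m) h.rel.h6
    simp only [sub_mul, MulOpposite.op_mul, MulOpposite.op_add, MulOpposite.op_sub,
      MulOpposite.op_smul, add_smul, sub_smul, smul_assoc, h33, h00, h01, h10, h11] at this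
    linear_combination (norm := module) this

/-- the state of the recursion -/
def PointModule.Good (n : ℕ) (m m' : P.M) (v : Fin 4 → k) : Prop :=
  m ∈ P.comp n ∧ m ≠ 0 ∧ m' ∈ P.comp (n + 1) ∧ m' ≠ 0 ∧
    ∀ j, MulOpposite.op (gens x y X T j) • m = v j • m'

lemma PointModule.good_zero (h : IsPres k R d x y X T) (hd : d ≠ 0) (hγ : 1 + d ≠ 0)
    (hω : ω ^ 2 * (1 + d) = 1 - d) :
    ∃ (i : Idx d ω) (m m' : P.M), P.Good 0 m m' (pt d ω i) := by
  obtain ⟨m, hm, hm0⟩ := P.exists_ne 0
  obtain ⟨l, m', hl0, hm', hm'0, hl⟩ := P.exists_step h hm hm0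
  obtain ⟨l', m'', hl'0, hm'', hm''0, hl'⟩ := P.exists_step h hm' hm'0
  obtain ⟨i, c, e, hc, he, h1, h2⟩ := gam_classify hd hγ hω l l' hl0 hl'0
    (P.gam h hm''0 hl hl')
  refine ⟨i, m, c • m', hm, hm0, Submodule.smul_mem _ _ hm', smul_ne_zero hc hm'0, fun j => ?_⟩
  rw [hl, h1, Pi.smul_apply, smul_eq_mul, smul_smul, mul_comm]

lemma PointModule.good_succ (h : IsPres k R d x y X T) (hd : d ≠ 0) (hγ : 1 + d ≠ 0)
    (hω : ω ^ 2 * (1 + d) = 1 - d) {n : ℕ} {m m' : P.M} {i : Idx d ω}
    (hg : P.Good n m m' (pt d ω i)) :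
    ∃ m'' : P.M, P.Good (n + 1) m' m'' (pt d ω (sig d ω i)) := by
  obtain ⟨hm, hm0, hm', hm'0, hl⟩ := hg
  obtain ⟨l', m'', hl'0, hm'', hm''0, hl'⟩ := P.exists_step h hm' hm'0
  obtain ⟨i', c, e, hc, he, h1, h2⟩ := gam_classify hd hγ hω _ l' (pt_ne_zero d ω i) hl'0
    (P.gam h hm''0 hl hl')
  have hi : i = i' := pt_inj i i' c h1
  subst hi
  refine ⟨e • m'', hm', hm'0, Submodule.smul_mem _ _ hm'', smul_ne_zero he hm''0, fun j => ?_⟩
  rw [hl', h2, Pi.smul_apply, smul_eq_mul, smul_smul, mul_comm]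

/-- the orbit of an index -/
def orb (d ω : k) (i : Idx d ω) : ℕ → Idx d ω
  | 0 => i
  | (n + 1) => sig d ω (orb d ω i n)

lemma PointModule.exists_seq (h : IsPres k R d x y X T) (hd : d ≠ 0) (hγ : 1 + d ≠ 0)
    (hω : ω ^ 2 * (1 + d) = 1 - d) :
    ∃ (i : Idx d ω) (m : ℕ → P.M), (∀ n, m n ∈ P.comp n) ∧ (∀ n, m n ≠ 0) ∧
      ∀ n j, MulOpposite.op (gens x y X T j) • m n = pt d ω (orb d ω i n) j • m (n + 1) := by
  obtain ⟨i, m0, m1, hg⟩ := P.good_zero h hd hγ hω
  have hs : ∀ (n : ℕ) (p : {p : P.M × P.M // P.Good n p.1 p.2 (pt d ω (orb d ω i n))}),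
      ∃ m'' : P.M, P.Good (n + 1) p.1.2 m'' (pt d ω (orb d ω i (n + 1))) :=
    fun n p => P.good_succ h hd hγ hω p.2
  choose nxt hnxt using hs
  let f : ∀ n, {p : P.M × P.M // P.Good n p.1 p.2 (pt d ω (orb d ω i n))} := fun n =>
    Nat.rec ⟨(m0, m1), hg⟩ (fun n p => ⟨(p.1.2, nxt n p), hnxt n p⟩) n
  refine ⟨i, fun n => (f n).1.1, fun n => (f n).2.1, fun n => (f n).2.2.1, fun n j => ?_⟩
  exact (f n).2.2.2.2.2 j

/-- the isomorphism with the standard module -/
theorem PointModule.iso_of_seq (h : IsPres k R d x y X T)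
    (ψ : Rᵐᵒᵖ →ₐ[k] Module.End k (ℕ →₀ k)) (l : ℕ → Fin 4 → k)
    (hψ : ∀ j, ψ (MulOpposite.op (gens x y X T j)) = shiftOp l j) (hl : ∀ n, l n ≠ 0)
    (m : ℕ → P.M) (hm : ∀ n, m n ∈ P.comp n) (hm0 : ∀ n, m n ≠ 0)
    (hs : ∀ n j, MulOpposite.op (gens x y X T j) • m n = l n j • m (n + 1)) :
    (mkPoint ψ l hψ hl).Iso P := by
  let f : (ℕ →₀ k) →ₗ[k] P.M := Finsupp.linearCombination k m
  have hf : ∀ n c, f (Finsupp.single n c) = c • m n := fun n c => by simp [f]
  have hsmul : ∀ (r : R) (z : ℕ →₀ k), f (ψ (MulOpposite.op r) z) = MulOpposite.op r • f z := by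
    intro r
    refine h.induction (fun r => ∀ z : ℕ →₀ k,
      f (ψ (MulOpposite.op r) z) = MulOpposite.op r • f z) ?_ ?_ ?_ ?_ r
    · intro j z
      induction z using Finsupp.induction_linear with
      | zero => simp
      | add a b ha hb => rw [map_add, map_add, ha, hb, map_add, smul_add]
      | single n c =>
        rw [hψ, shiftOp_single, hf, hf, smul_comm, hs, smul_smul]
    · intro c z
      have : MulOpposite.op (algebraMap k R c) = algebraMap k Rᵐᵒᵖ c := rfl
      rw [this, AlgHom.commutes, Module.algebraMap_end_apply, map_smul, algebraMap_smul]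
    · intro a b ha hb z
      rw [MulOpposite.op_add, map_add, LinearMap.add_apply, map_add, ha, hb, add_smul]
    · intro a b ha hb z
      rw [MulOpposite.op_mul, map_mul, Module.End.mul_apply, hb, ha, mul_smul]
  have hinj : Function.Injective f := by
    have hli : LinearIndependent k m :=
      iSupIndep.linearIndependent P.comp P.isInternal.submodule_iSupIndep hm hm0
    exact hli
  have hsurj : Function.Surjective f := by
    rw [← LinearMap.range_eq_top, eq_top_iff, ← P.isInternal.submodule_iSup_eq_top]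
    refine iSup_le fun n => ?_
    rw [P.comp_eq_span (hm n) (hm0 n), Submodule.span_singleton_le_iff_mem]
    exact ⟨Finsupp.single n 1, by rw [hf, one_smul]⟩
  let g : (mkPoint ψ l hψ hl).M →ₗ[Rᵐᵒᵖ] P.M :=
    { toFun := fun z => f z
      map_add' := fun a b => map_add f a b
      map_smul' := fun r z => hsmul r.unop z }
  refine ⟨LinearEquiv.ofBijective g ⟨hinj, hsurj⟩, fun n z => ?_⟩
  change z ∈ LinearMap.range (Finsupp.lsingle n : k →ₗ[k] ℕ →₀ k) ↔ f z ∈ P.comp n
  constructor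
  · rintro ⟨c, rfl⟩
    rw [Finsupp.lsingle_apply, hf]
    exact Submodule.smul_mem _ _ (hm n)
  · intro hz
    rw [P.comp_eq_span (hm n) (hm0 n), Submodule.mem_span_singleton] at hz
    obtain ⟨c, hc⟩ := hz
    refine ⟨c, hinj ?_⟩
    rw [Finsupp.lsingle_apply, hf, hc]

end Structure

/-- isomorphic standard modules have the same first point -/
theorem eq_smul_of_iso (ψ ψ' : Rᵐᵒᵖ →ₐ[k] Module.End k (ℕ →₀ k)) (l l' : ℕ → Fin 4 → k)
    (hψ : ∀ j, ψ (MulOpposite.op (gens x y X T j)) = shiftOp l j) (hl : ∀ n, l n ≠ 0)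
    (hψ' : ∀ j, ψ' (MulOpposite.op (gens x y X T j)) = shiftOp l' j) (hl' : ∀ n, l' n ≠ 0)
    (hiso : (mkPoint ψ l hψ hl).Iso (mkPoint ψ' l' hψ' hl')) : ∃ c : k, l 0 = c • l' 0 := by
  obtain ⟨f, hf⟩ := hiso
  have hsm : ∀ (c : k) (z : ℕ →₀ k), (f (c • z : ℕ →₀ k) : ℕ →₀ k) = c • (f z : ℕ →₀ k) := by
    intro c z
    have h1 := f.map_smul (algebraMap k Rᵐᵒᵖ c) z
    have h2 : (algebraMap k Rᵐᵒᵖ c) • (show (mkPoint ψ l hψ hl).M from z) =
        (c • z : ℕ →₀ k) := by
      change ψ (algebraMap k Rᵐᵒᵖ c) z = _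
      rw [AlgHom.commutes, Module.algebraMap_end_apply]
    have h3 : (algebraMap k Rᵐᵒᵖ c) • (f z) = (c • (f z : ℕ →₀ k) : ℕ →₀ k) := by
      change ψ' (algebraMap k Rᵐᵒᵖ c) (f z) = _
      rw [AlgHom.commutes]
      rfl
    rw [h2, h3] at h1
    exact h1
  obtain ⟨a, ha⟩ : ∃ a : k, (Finsupp.single 0 a : ℕ →₀ k) = f (Finsupp.single 0 1 : ℕ →₀ k) :=
    (hf 0 (Finsupp.single 0 1 : ℕ →₀ k)).mp ⟨1, rfl⟩
  obtain ⟨b, hb⟩ : ∃ b : k, (Finsupp.single 1 b : ℕ →₀ k) = f (Finsupp.single 1 1 : ℕ →₀ k) :=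
    (hf 1 (Finsupp.single 1 1 : ℕ →₀ k)).mp ⟨1, rfl⟩
  have hb0 : b ≠ 0 := by
    rintro rfl
    rw [Finsupp.single_zero] at hb
    have h1 : f (Finsupp.single 1 1 : ℕ →₀ k) = f 0 := by rw [← hb, map_zero]; rfl
    have h2 : (Finsupp.single 1 1 : ℕ →₀ k) = 0 := f.injective h1
    exact one_ne_zero (Finsupp.single_eq_zero.mp h2)
  refine ⟨a * b⁻¹, ?_⟩
  ext j
  have h1 := f.map_smul (MulOpposite.op (gens x y X T j)) (Finsupp.single 0 1 : ℕ →₀ k)
  have h2 : (MulOpposite.op (gens x y X T j)) • (show (mkPoint ψ l hψ hl).M from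
      (Finsupp.single 0 1 : ℕ →₀ k)) = (l 0 j • Finsupp.single 1 1 : ℕ →₀ k) := by
    change ψ (MulOpposite.op (gens x y X T j)) (Finsupp.single 0 1 : ℕ →₀ k) = _
    rw [hψ, shiftOp_single, Finsupp.smul_single]
    simp
  have h3 : (MulOpposite.op (gens x y X T j)) • f (Finsupp.single 0 1 : ℕ →₀ k) =
      (Finsupp.single 1 (a * l' 0 j) : ℕ →₀ k) := by
    rw [← ha]
    change ψ' (MulOpposite.op (gens x y X T j)) (Finsupp.single 0 a : ℕ →₀ k) = _
    rw [hψ', shiftOp_single]
  rw [h2, h3] at h1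
  have h4 : (Finsupp.single 1 (l 0 j * b) : ℕ →₀ k) = Finsupp.single 1 (a * l' 0 j) := by
    have h5 := (hsm (l 0 j) (Finsupp.single 1 1 : ℕ →₀ k)).symm.trans h1
    rw [← hb] at h5
    have h7 : (Finsupp.single 1 (l 0 j * b) : ℕ →₀ k) = l 0 j • (Finsupp.single 1 b : ℕ →₀ k) := by
      rw [Finsupp.smul_single, smul_eq_mul]
    exact h7.trans h5
  have h6 := Finsupp.single_injective 1 h4
  rw [Pi.smul_apply, smul_eq_mul]
  field_simp
  linear_combination h6

/-- The point modules up to isomorphism are indexed by the points. -/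
theorem IsPres.card_pointModuleClass (h : IsPres k R d x y X T) (hd : d ≠ 0) (hγ : 1 + d ≠ 0)
    (hω : ω ^ 2 * (1 + d) = 1 - d) :
    Nat.card (PointModuleClass (powGrading k x y X T)) = Nat.card (Idx d ω) := by
  have hgam : ∀ (i : Idx d ω) (n : ℕ), Gam d (pt d ω (orb d ω i n)) (pt d ω (orb d ω i (n + 1))) :=
    fun i n => gam_pt hω _
  have hact := fun i : Idx d ω => h.exists_act (fun n => pt d ω (orb d ω i n)) (hgam i)
  choose ψ hψ using hact
  let F : Idx d ω → PointModuleClass (powGrading k x y X T) := fun i =>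
    Quotient.mk (PointModule.setoid (powGrading k x y X T))
      (mkPoint (ψ i) (fun n => pt d ω (orb d ω i n)) (hψ i) (fun n => pt_ne_zero d ω _))
  refine (Nat.card_congr (Equiv.ofBijective F ⟨?_, ?_⟩)).symm
  · intro i j hij
    have h1 := Quotient.exact hij
    obtain ⟨c, hc⟩ := eq_smul_of_iso _ _ _ _ _ _ _ _ h1
    exact pt_inj i j c hc
  · intro q
    obtain ⟨P, rfl⟩ := Quotient.exists_rep q
    obtain ⟨i, m, hm, hm0, hs⟩ := P.exists_seq h hd hγ hω
    refine ⟨i, Quotient.sound ?_⟩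
    exact P.iso_of_seq h (ψ i) _ (hψ i) _ m hm hm0 hs

end Pool.Agent.MP_a6a2ff_al
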