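import Pool.Agent.MP_a6a2ff_al.Quadratic
import Pool.Agent.MP_a6a2ff_al.Count

/-!
# Point modules and points
-/

set_option linter.unusedSimpArgs false
set_option linter.unusedVariables false
set_option linter.unusedSectionVars false

universe u

namespace Pool.Agent.MP_a6a2ff_al

variable {k : Type u} [Field k] {R : Type u} [Ring R] [Algebra k R] {d ω : k} {x y X T : R}

/-- the shift operators -/
noncomputable def shiftOp (l : ℕ → Fin 4 → k) (j : Fin 4) : Module.End k (ℕ →₀ k) :=
  Finsupp.linearCombination k (fun n => Finsupp.single (n + 1) (l n j))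

lemma shiftOp_single (l : ℕ → Fin 4 → k) (j : Fin 4) (n : ℕ) (c : k) :
    shiftOp l j (Finsupp.single n c) = Finsupp.single (n + 1) (c * l n j) := by
  simp [shiftOp]

lemma shiftOp_rels (l : ℕ → Fin 4 → k) (hl : ∀ n, Gam d (l n) (l (n + 1))) :
    Rels d (MulOpposite.op (shiftOp l 0)) (MulOpposite.op (shiftOp l 1))
      (MulOpposite.op (shiftOp l 2)) (MulOpposite.op (shiftOp l 3)) := by
  constructor
  · apply MulOpposite.unop_injective
    refine Finsupp.lhom_ext fun n c => ?_
    simp only [MulOpposite.unop_mul, MulOpposite.unop_op, Module.End.mul_apply, shiftOp_single]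
    congr 1
    linear_combination c * (hl n).g1
  · apply MulOpposite.unop_injective
    refine Finsupp.lhom_ext fun n c => ?_
    simp only [MulOpposite.unop_mul, MulOpposite.unop_add, MulOpposite.unop_op,
      Module.End.mul_apply, LinearMap.add_apply, shiftOp_single, ← Finsupp.single_add]
    congr 1
    linear_combination c * (hl n).g2
  · apply MulOpposite.unop_injective
    refine Finsupp.lhom_ext fun n c => ?_
    simp only [MulOpposite.unop_mul, MulOpposite.unop_add, MulOpposite.unop_op,
      MulOpposite.unop_sub, MulOpposite.unop_smul, LinearMap.sub_apply, LinearMap.smul_apply,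
      Module.End.mul_apply, LinearMap.add_apply, shiftOp_single, ← Finsupp.single_add,
      ← Finsupp.single_sub, Finsupp.smul_single, smul_eq_mul]
    congr 1
    linear_combination c * (hl n).g3
  · apply MulOpposite.unop_injective
    refine Finsupp.lhom_ext fun n c => ?_
    simp only [MulOpposite.unop_mul, MulOpposite.unop_add, MulOpposite.unop_op,
      MulOpposite.unop_sub, MulOpposite.unop_smul, LinearMap.sub_apply, LinearMap.smul_apply,
      Module.End.mul_apply, LinearMap.add_apply, shiftOp_single, ← Finsupp.single_add,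
      ← Finsupp.single_sub, Finsupp.smul_single, smul_eq_mul]
    congr 1
    linear_combination c * (hl n).g4
  · apply MulOpposite.unop_injective
    refine Finsupp.lhom_ext fun n c => ?_
    simp only [MulOpposite.unop_mul, MulOpposite.unop_add, MulOpposite.unop_op,
      MulOpposite.unop_sub, MulOpposite.unop_smul, LinearMap.sub_apply, LinearMap.smul_apply,
      Module.End.mul_apply, LinearMap.add_apply, shiftOp_single, ← Finsupp.single_add,
      ← Finsupp.single_sub, Finsupp.smul_single, smul_eq_mul]
    congr 1
    linear_combination c * (hl n).g5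
  · apply MulOpposite.unop_injective
    refine Finsupp.lhom_ext fun n c => ?_
    simp only [MulOpposite.unop_mul, MulOpposite.unop_add, MulOpposite.unop_op,
      MulOpposite.unop_sub, MulOpposite.unop_smul, LinearMap.sub_apply, LinearMap.smul_apply,
      Module.End.mul_apply, LinearMap.add_apply, shiftOp_single, ← Finsupp.single_add,
      ← Finsupp.single_sub, Finsupp.smul_single, smul_eq_mul]
    congr 1
    linear_combination c * (hl n).g6

/-- the generators as a vector -/
def gens (x y X T : R) : Fin 4 → R := ![x, y, X, T]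

lemma gens_mem (j : Fin 4) : gens x y X T j ∈ genSpan k x y X T := by
  fin_cases j
  · exact x_mem
  · exact y_mem
  · exact X_mem
  · exact T_mem

lemma IsPres.exists_act (h : IsPres k R d x y X T) (l : ℕ → Fin 4 → k)
    (hl : ∀ n, Gam d (l n) (l (n + 1))) : ∃ ψ : Rᵐᵒᵖ →ₐ[k] Module.End k (ℕ →₀ k),
      ∀ j, ψ (MulOpposite.op (gens x y X T j)) = shiftOp l j := by
  obtain ⟨φ, e0, e1, e2, e3⟩ := h.univ _ _ _ _ _ (shiftOp_rels l hl)
  refine ⟨AlgHom.opComm φ, fun j => ?_⟩
  fin_cases j
  · simp [gens, e0]
  · simp [gens, e1]
  · simp [gens, e2]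
  · simp [gens, e3]

/-- induction over the algebra for properties of right multiplication -/
lemma IsPres.induction (h : IsPres k R d x y X T) (p : R → Prop)
    (hg : ∀ j, p (gens x y X T j)) (hc : ∀ c : k, p (algebraMap k R c))
    (ha : ∀ a b, p a → p b → p (a + b)) (hm : ∀ a b, p a → p b → p (a * b)) (r : R) : p r := by
  have hr : r ∈ Algebra.adjoin k ({x, y, X, T} : Set R) := by rw [h.gen]; trivial
  induction hr using Algebra.adjoin_induction with
  | mem z hz =>
    simp only [Set.mem_insert_iff, Set.mem_singleton_iff] at hz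
    rcases hz with rfl | rfl | rfl | rfl
    · exact hg 0
    · exact hg 1
    · exact hg 2
    · exact hg 3
  | algebraMap c => exact hc c
  | add a b _ _ iha ihb => exact ha a b iha ihb
  | mul a b _ _ iha ihb => exact hm a b iha ihb

/-- a linear form acts by a combination of the shift operators -/
lemma act_mem (ψ : Rᵐᵒᵖ →ₐ[k] Module.End k (ℕ →₀ k)) (l : ℕ → Fin 4 → k)
    (hψ : ∀ j, ψ (MulOpposite.op (gens x y X T j)) = shiftOp l j) (v : R)
    (hv : v ∈ genSpan k x y X T) (n : ℕ) (m : ℕ →₀ k)
    (hm : m ∈ LinearMap.range (Finsupp.lsingle n : k →ₗ[k] ℕ →₀ k)) :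
    ψ (MulOpposite.op v) m ∈ LinearMap.range (Finsupp.lsingle (n + 1) : k →ₗ[k] ℕ →₀ k) := by
  obtain ⟨c, rfl⟩ := hm
  rw [Finsupp.lsingle_apply]
  have key : ∀ j, ψ (MulOpposite.op (gens x y X T j)) (Finsupp.single n c : ℕ →₀ k) ∈
      LinearMap.range (Finsupp.lsingle (n + 1) : k →ₗ[k] ℕ →₀ k) := by
    intro j
    rw [hψ, shiftOp_single]
    exact ⟨_, rfl⟩
  unfold genSpan at hv
  induction hv using Submodule.span_induction with
  | mem z hz =>
    simp only [Set.mem_insert_iff, Set.mem_singleton_iff] at hz
    rcases hz with rfl | rfl | rfl | rfl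
    · exact key 0
    · exact key 1
    · exact key 2
    · exact key 3
  | zero => simp
  | add a b _ _ iha ihb =>
    rw [MulOpposite.op_add, map_add, LinearMap.add_apply]
    exact add_mem iha ihb
  | smul c a _ iha =>
    rw [MulOpposite.op_smul, map_smul, LinearMap.smul_apply]
    exact Submodule.smul_mem _ _ iha

/-- the point module of a sequence of points -/
noncomputable def mkPoint (ψ : Rᵐᵒᵖ →ₐ[k] Module.End k (ℕ →₀ k)) (l : ℕ → Fin 4 → k)
    (hψ : ∀ j, ψ (MulOpposite.op (gens x y X T j)) = shiftOp l j) (hl : ∀ n, l n ≠ 0) :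
    PointModule (powGrading k x y X T) :=
  letI inst : Module Rᵐᵒᵖ (ℕ →₀ k) := Module.compHom (ℕ →₀ k) ψ.toRingHom
  have hact : ∀ (r : Rᵐᵒᵖ) (m : ℕ →₀ k), r • m = ψ r m := fun r m => rfl
  { M := ℕ →₀ k
    rmodule := inst
    tower := ⟨fun c r m => by
      rw [hact, hact, map_smul, LinearMap.smul_apply]⟩
    comp := fun n => LinearMap.range (Finsupp.lsingle n : k →ₗ[k] ℕ →₀ k)
    isInternal := by
      apply DirectSum.isInternal_submodule_of_iSupIndep_of_iSup_eq_top
      · exact iSupIndep_range_lsingle _ _ _
      · exact Finsupp.iSup_lsingle_range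
    smul_mem := by
      intro i j a m ha hm
      rw [hact]
      change a ∈ genSpan k x y X T ^ i at ha
      induction ha using Submodule.pow_induction_on_right' generalizing m with
      | algebraMap c =>
        have : MulOpposite.op (algebraMap k R c) = algebraMap k Rᵐᵒᵖ c := rfl
        rw [this, AlgHom.commutes, Module.algebraMap_end_apply]
        exact Submodule.smul_mem _ _ hm
      | add a b i _ _ iha ihb =>
        rw [MulOpposite.op_add, map_add, LinearMap.add_apply]
        exact add_mem (iha m hm) (ihb m hm)
      | mul_mem i a _ iha v hv =>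
        rw [MulOpposite.op_mul, map_mul, Module.End.mul_apply]
        exact act_mem ψ l hψ v hv (j + i) _ (iha m hm)
    generated := by
      rw [eq_top_iff]
      have key : ∀ n, Finsupp.single n (1 : k) ∈ Submodule.span Rᵐᵒᵖ
          ((LinearMap.range (Finsupp.lsingle 0 : k →ₗ[k] ℕ →₀ k) : Submodule k (ℕ →₀ k)) :
            Set (ℕ →₀ k)) := by
        intro n
        induction n with
        | zero => exact Submodule.subset_span ⟨1, rfl⟩
        | succ n ih =>
          obtain ⟨j, hj⟩ : ∃ j, l n j ≠ 0 := by
            by_contra hcon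
            push Not at hcon
            exact hl n (funext hcon)
          have h1 : Finsupp.single (n + 1) (1 : k) =
              ((l n j)⁻¹ • MulOpposite.op (gens x y X T j) : Rᵐᵒᵖ) •
                (Finsupp.single n (1 : k) : ℕ →₀ k) := by
            rw [hact, map_smul, LinearMap.smul_apply, hψ, shiftOp_single, Finsupp.smul_single]
            congr 1
            rw [smul_eq_mul, one_mul, inv_mul_cancel₀ hj]
          rw [h1]
          exact Submodule.smul_mem _ _ ih
      intro m _
      induction m using Finsupp.induction_linear with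
      | zero => exact zero_mem _
      | add a b ha hb => exact add_mem (ha trivial) (hb trivial)
      | single n c =>
        have h1 : (Finsupp.single n c : ℕ →₀ k) =
            (algebraMap k Rᵐᵒᵖ c) • (Finsupp.single n (1 : k) : ℕ →₀ k) := by
          rw [hact, AlgHom.commutes, Module.algebraMap_end_apply, Finsupp.smul_single,
            smul_eq_mul, mul_one]
        rw [h1]
        exact Submodule.smul_mem _ _ (key n)
    finrank_comp := by
      intro n
      rw [LinearMap.finrank_range_of_inj, Module.finrank_self]
      exact Finsupp.single_injective n }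

end Pool.Agent.MP_a6a2ff_al
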