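import Pool.Agent.MP_a6a2ff_al.Koszul

/-!
# The algebra by generators and relations, its grading, and the presentation lemma
-/

set_option linter.unusedSimpArgs false
set_option linter.unusedVariables false

universe u

open DirectSum

namespace Pool.Agent.MP_a6a2ff_al

/-- `R` is presented by the generators `x, y, X, T` and the relations `Rels d`. -/
structure IsPres (k : Type u) [Field k] (R : Type u) [Ring R] [Algebra k R] (d : k)
    (x y X T : R) : Prop where
  rel : Rels d x y X T
  gen : Algebra.adjoin k ({x, y, X, T} : Set R) = ⊤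
  univ : ∀ (S : Type u) [Ring S] [Algebra k S] (x' y' X' T' : S), Rels d x' y' X' T' →
    ∃ φ : R →ₐ[k] S, φ x = x' ∧ φ y = y' ∧ φ X = X' ∧ φ T = T'

section Existence

variable (k : Type u) [Field k] (d : k)

/-- the relations on the free algebra -/
inductive FreeRel : FreeAlgebra k (Fin 4) → FreeAlgebra k (Fin 4) → Prop
  | r1 : FreeRel (FreeAlgebra.ι k 2 * FreeAlgebra.ι k 0) (FreeAlgebra.ι k 0 * FreeAlgebra.ι k 2)
  | r2 : FreeRel (FreeAlgebra.ι k 1 * FreeAlgebra.ι k 1 + FreeAlgebra.ι k 2 * FreeAlgebra.ι k 2)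
      (FreeAlgebra.ι k 0 * FreeAlgebra.ι k 0)
  | r3 : FreeRel (FreeAlgebra.ι k 1 * FreeAlgebra.ι k 2 + FreeAlgebra.ι k 2 * FreeAlgebra.ι k 1)
      ((1 + d) • ((FreeAlgebra.ι k 2 - FreeAlgebra.ι k 3) * FreeAlgebra.ι k 1))
  | r4 : FreeRel (FreeAlgebra.ι k 1 * FreeAlgebra.ι k 3 + FreeAlgebra.ι k 3 * FreeAlgebra.ι k 1)
      ((d - 1) • ((FreeAlgebra.ι k 2 - FreeAlgebra.ι k 3) * FreeAlgebra.ι k 1))
  | r5 : FreeRel (FreeAlgebra.ι k 0 * FreeAlgebra.ι k 3 + FreeAlgebra.ι k 3 * FreeAlgebra.ι k 0)
      (d • ((FreeAlgebra.ι k 2 - FreeAlgebra.ι k 3) * FreeAlgebra.ι k 1))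
  | r6 : FreeRel ((1 + d) • (FreeAlgebra.ι k 3 * FreeAlgebra.ι k 3) +
      (1 - d) • (FreeAlgebra.ι k 0 * FreeAlgebra.ι k 0) +
      d • (FreeAlgebra.ι k 0 * FreeAlgebra.ι k 1 + FreeAlgebra.ι k 1 * FreeAlgebra.ι k 0))
      ((1 + d) • (FreeAlgebra.ι k 1 * FreeAlgebra.ι k 1))

theorem exists_isPres : ∃ (R : Type u) (_ : Ring R) (_ : Algebra k R) (x y X T : R),
    IsPres k R d x y X T := by
  let π := RingQuot.mkAlgHom k (FreeRel k d)
  refine ⟨RingQuot (FreeRel k d), inferInstance, inferInstance, π (FreeAlgebra.ι k 0),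
    π (FreeAlgebra.ι k 1), π (FreeAlgebra.ι k 2), π (FreeAlgebra.ι k 3), ?_, ?_, ?_⟩
  · have key : ∀ {a b}, FreeRel k d a b → π a = π b := fun h => RingQuot.mkAlgHom_rel k h
    constructor
    · simpa using key FreeRel.r1
    · simpa using key FreeRel.r2
    · simpa using key FreeRel.r3
    · simpa using key FreeRel.r4
    · simpa using key FreeRel.r5
    · simpa using key FreeRel.r6
  · have hs : Function.Surjective π := RingQuot.mkAlgHom_surjective k _
    have h1 : Algebra.adjoin k (Set.range (FreeAlgebra.ι k : Fin 4 → _)) = ⊤ :=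
      FreeAlgebra.adjoin_range_ι k (Fin 4)
    have h2 := congrArg (Subalgebra.map π) h1
    rw [Algebra.map_top, (AlgHom.range_eq_top π).mpr hs, AlgHom.map_adjoin] at h2
    rw [← h2]
    congr 1
    ext a
    simp only [Set.mem_insert_iff, Set.mem_singleton_iff, Set.mem_image, Set.mem_range]
    constructor
    · rintro (rfl | rfl | rfl | rfl)
      · exact ⟨_, ⟨0, rfl⟩, rfl⟩
      · exact ⟨_, ⟨1, rfl⟩, rfl⟩
      · exact ⟨_, ⟨2, rfl⟩, rfl⟩
      · exact ⟨_, ⟨3, rfl⟩, rfl⟩
    · rintro ⟨_, ⟨i, rfl⟩, rfl⟩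
      fin_cases i <;> simp
  · intro S _ _ x' y' X' T' h
    let f : FreeAlgebra k (Fin 4) →ₐ[k] S := FreeAlgebra.lift k ![x', y', X', T']
    have hf : ∀ ⦃a b⦄, FreeRel k d a b → f a = f b := by
      intro a b hab
      cases hab
      · simpa [f] using h.h1
      · simpa [f] using h.h2
      · simpa [f] using h.h3
      · simpa [f] using h.h4
      · simpa [f] using h.h5
      · simpa [f] using h.h6
    refine ⟨RingQuot.liftAlgHom k ⟨f, hf⟩, ?_, ?_, ?_, ?_⟩ <;>
      rw [RingQuot.liftAlgHom_mkAlgHom_apply] <;> simp [f]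

end Existence

variable {k : Type u} [Field k] {R : Type u} [Ring R] [Algebra k R] {d : k} {x y X T : R}

lemma Rels.op (h : Rels d x y X T) : Rels d (MulOpposite.op x) (MulOpposite.op y)
    (MulOpposite.op X) (MulOpposite.op T) := by
  have hc := h.comm
  constructor
  · simp only [← MulOpposite.op_mul, h.h1]
  · simp only [← MulOpposite.op_mul, ← MulOpposite.op_add, h.h2]
  · simp only [← MulOpposite.op_mul, ← MulOpposite.op_add, ← MulOpposite.op_sub,
      ← MulOpposite.op_smul, hc, ← h.h3]
    rw [add_comm]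
  · simp only [← MulOpposite.op_mul, ← MulOpposite.op_add, ← MulOpposite.op_sub,
      ← MulOpposite.op_smul, hc, ← h.h4]
    rw [add_comm]
  · simp only [← MulOpposite.op_mul, ← MulOpposite.op_add, ← MulOpposite.op_sub,
      ← MulOpposite.op_smul, hc, ← h.h5]
    rw [add_comm]
  · simp only [← MulOpposite.op_mul, ← MulOpposite.op_add, ← MulOpposite.op_sub,
      ← MulOpposite.op_smul, ← h.h6]
    rw [add_comm (y * x)]

theorem IsPres.op (h : IsPres k R d x y X T) : IsPres k Rᵐᵒᵖ d (MulOpposite.op x)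
    (MulOpposite.op y) (MulOpposite.op X) (MulOpposite.op T) := by
  refine ⟨h.rel.op, ?_, ?_⟩
  · have h1 := congrArg Subalgebra.op h.gen
    rw [Subalgebra.op_adjoin, Subalgebra.op_top] at h1
    rw [← h1]
    congr 1
    ext a
    simp [← MulOpposite.unop_inj]
  · intro S _ _ x' y' X' T' h'
    obtain ⟨φ, e1, e2, e3, e4⟩ := h.univ Sᵐᵒᵖ _ _ _ _ h'.op
    refine ⟨AlgHom.opComm φ, ?_, ?_, ?_, ?_⟩
    · simp [e1]
    · simp [e2]
    · simp [e3]
    · simp [e4]

/-! ### The grading -/

/-- the space of linear forms -/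
def genSpan (k : Type u) [Field k] {R : Type u} [Ring R] [Algebra k R] (x y X T : R) :
    Submodule k R := Submodule.span k {x, y, X, T}

/-- the grading by powers of the space of linear forms -/
def powGrading (k : Type u) [Field k] {R : Type u} [Ring R] [Algebra k R] (x y X T : R) :
    ℕ → Submodule k R := fun n => genSpan k x y X T ^ n

instance : SetLike.GradedMonoid (powGrading k x y X T) :=
  Submodule.nat_power_gradedMonoid (genSpan k x y X T)

lemma mem_one_of_mem {v : R} (hv : v ∈ genSpan k x y X T) : v ∈ powGrading k x y X T 1 := by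
  simpa [powGrading] using hv

/-- the inclusion of linear forms into the direct sum -/
def degOne (k : Type u) [Field k] {R : Type u} [Ring R] [Algebra k R] (x y X T : R) :
    genSpan k x y X T →ₗ[k] ⨁ i, powGrading k x y X T i :=
  DirectSum.lof k ℕ (fun i => powGrading k x y X T i) 1 ∘ₗ
    (Submodule.inclusion (le_of_eq (pow_one (genSpan k x y X T)).symm))

lemma coe_degOne (v : genSpan k x y X T) :
    DirectSum.coeAlgHom (powGrading k x y X T) (degOne k x y X T v) = v := by
  unfold degOne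
  rw [LinearMap.comp_apply, DirectSum.lof_eq_of, DirectSum.coeAlgHom_of]
  rfl

lemma degOne_mul_mem (v w : genSpan k x y X T) :
    degOne k x y X T v * degOne k x y X T w ∈
      LinearMap.range (DirectSum.lof k ℕ (fun i => powGrading k x y X T i) 2) := by
  unfold degOne
  simp only [LinearMap.comp_apply, DirectSum.lof_eq_of, DirectSum.of_mul_of]
  exact ⟨_, rfl⟩

lemma eq_of_mem_lof {n : ℕ} {s t : ⨁ i, powGrading k x y X T i}
    (hs : s ∈ LinearMap.range (DirectSum.lof k ℕ (fun i => powGrading k x y X T i) n))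
    (ht : t ∈ LinearMap.range (DirectSum.lof k ℕ (fun i => powGrading k x y X T i) n))
    (h0 : DirectSum.coeAlgHom (powGrading k x y X T) s =
      DirectSum.coeAlgHom (powGrading k x y X T) t) : s = t := by
  obtain ⟨s, rfl⟩ := hs
  obtain ⟨t, rfl⟩ := ht
  rw [DirectSum.lof_eq_of, DirectSum.lof_eq_of, DirectSum.coeAlgHom_of,
    DirectSum.coeAlgHom_of] at h0
  rw [Subtype.ext (a1 := s) (a2 := t) h0]

lemma x_mem : x ∈ genSpan k x y X T := Submodule.subset_span (by simp)
lemma y_mem : y ∈ genSpan k x y X T := Submodule.subset_span (by simp)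
lemma X_mem : X ∈ genSpan k x y X T := Submodule.subset_span (by simp)
lemma T_mem : T ∈ genSpan k x y X T := Submodule.subset_span (by simp)

lemma Rels.degOne (h : Rels d x y X T) :
    Rels d (degOne k x y X T ⟨x, x_mem⟩) (degOne k x y X T ⟨y, y_mem⟩)
      (degOne k x y X T ⟨X, X_mem⟩) (degOne k x y X T ⟨T, T_mem⟩) := by
  have hZ : (MP_a6a2ff_al.degOne k x y X T ⟨X, X_mem⟩) - (MP_a6a2ff_al.degOne k x y X T ⟨T, T_mem⟩) =
      MP_a6a2ff_al.degOne k x y X T ⟨X - T, sub_mem X_mem T_mem⟩ := by
    rw [sub_eq_iff_eq_add, ← map_add]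
    congr 1
    ext
    simp
  constructor
  · refine eq_of_mem_lof (n := 2) ?_ ?_ ?_
    · exact degOne_mul_mem _ _
    · exact degOne_mul_mem _ _
    · simp only [map_add, map_mul, map_smul, coe_degOne]
      exact h.h1
  · refine eq_of_mem_lof (n := 2) ?_ ?_ ?_
    · exact add_mem (degOne_mul_mem _ _) (degOne_mul_mem _ _)
    · exact degOne_mul_mem _ _
    · simp only [map_add, map_mul, map_smul, coe_degOne]
      exact h.h2
  · rw [hZ]
    refine eq_of_mem_lof (n := 2) ?_ ?_ ?_
    · exact add_mem (degOne_mul_mem _ _) (degOne_mul_mem _ _)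
    · exact Submodule.smul_mem _ _ (degOne_mul_mem _ _)
    · simp only [map_add, map_mul, map_smul, coe_degOne]
      exact h.h3
  · rw [hZ]
    refine eq_of_mem_lof (n := 2) ?_ ?_ ?_
    · exact add_mem (degOne_mul_mem _ _) (degOne_mul_mem _ _)
    · exact Submodule.smul_mem _ _ (degOne_mul_mem _ _)
    · simp only [map_add, map_mul, map_smul, coe_degOne]
      exact h.h4
  · rw [hZ]
    refine eq_of_mem_lof (n := 2) ?_ ?_ ?_
    · exact add_mem (degOne_mul_mem _ _) (degOne_mul_mem _ _)
    · exact Submodule.smul_mem _ _ (degOne_mul_mem _ _)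
    · simp only [map_add, map_mul, map_smul, coe_degOne]
      exact h.h5
  · refine eq_of_mem_lof (n := 2) ?_ ?_ ?_
    · exact add_mem (add_mem (Submodule.smul_mem _ _ (degOne_mul_mem _ _))
        (Submodule.smul_mem _ _ (degOne_mul_mem _ _))) (Submodule.smul_mem _ _
        (add_mem (degOne_mul_mem _ _) (degOne_mul_mem _ _)))
    · exact Submodule.smul_mem _ _ (degOne_mul_mem _ _)
    · simp only [map_add, map_mul, map_smul, coe_degOne]
      exact h.h6

/-- the algebra map to the direct sum of homogeneous components -/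
lemma IsPres.exists_decompose (h : IsPres k R d x y X T) :
    ∃ φ : R →ₐ[k] ⨁ i, powGrading k x y X T i,
      ∀ v : genSpan k x y X T, φ v = degOne k x y X T v := by
  obtain ⟨φ, e1, e2, e3, e4⟩ := h.univ _ _ _ _ _ h.rel.degOne
  refine ⟨φ, ?_⟩
  rintro ⟨v, hv⟩
  unfold genSpan at hv
  induction hv using Submodule.span_induction with
  | mem z hz =>
    simp only [Set.mem_insert_iff, Set.mem_singleton_iff] at hz
    rcases hz with rfl | rfl | rfl | rfl
    · exact e1
    · exact e2
    · exact e3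
    · exact e4
  | zero =>
    have : (⟨0, zero_mem _⟩ : genSpan k x y X T) = 0 := rfl
    simp [this]
  | add a b ha hb iha ihb =>
    have : (⟨a + b, add_mem ha hb⟩ : genSpan k x y X T) = ⟨a, ha⟩ + ⟨b, hb⟩ := rfl
    rw [this, map_add, ← iha, ← ihb, ← map_add]
    rfl
  | smul c a ha iha =>
    have : (⟨c • a, Submodule.smul_mem _ c ha⟩ : genSpan k x y X T) = c • ⟨a, ha⟩ := rfl
    rw [this, map_smul, ← iha, ← map_smul]
    rfl

/-- The grading. -/
noncomputable abbrev IsPres.gradedAlgebra (h : IsPres k R d x y X T) :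
    GradedAlgebra (powGrading k x y X T) :=
  GradedAlgebra.ofAlgHom _ h.exists_decompose.choose
    (by
      apply AlgHom.ext_of_adjoin_eq_top h.gen
      intro a ha
      simp only [Set.mem_insert_iff, Set.mem_singleton_iff] at ha
      have hmem : a ∈ genSpan k x y X T := Submodule.subset_span (by simpa using ha)
      rw [AlgHom.comp_apply, AlgHom.id_apply]
      exact (congrArg _ (h.exists_decompose.choose_spec ⟨a, hmem⟩)).trans (coe_degOne _))
    (fun i z => by
      obtain ⟨z, hz⟩ := z
      change z ∈ genSpan k x y X T ^ i at hz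
      induction hz using Submodule.pow_induction_on_left' with
      | algebraMap r =>
        dsimp only
        rw [AlgHom.commutes, DirectSum.algebraMap_apply]; rfl
      | add x y i hx hy ihx ihy =>
        dsimp only at ihx ihy ⊢
        rw [map_add, ihx, ihy, ← map_add]
        rfl
      | mem_mul m hm i x hx ih =>
        dsimp only at ih ⊢
        rw [map_mul, ih, h.exists_decompose.choose_spec ⟨m, hm⟩]
        unfold degOne
        rw [LinearMap.comp_apply, DirectSum.lof_eq_of, DirectSum.of_mul_of]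
        exact DirectSum.of_eq_of_gradedMonoid_eq (Sigma.subtype_ext (add_comm _ _) rfl))

end Pool.Agent.MP_a6a2ff_al
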