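import Pool.Agent.MP_a6a2ff_al.Defs
import Pool.Agent.MP_a6a2ff_al.Pres

/-!
# The algebra is quadratic
-/

set_option linter.unusedSimpArgs false
set_option linter.unusedVariables false
set_option linter.unusedSectionVars false

universe u

namespace Pool.Agent.MP_a6a2ff_al

variable {k : Type u} [Field k] {R : Type u} [Ring R] [Algebra k R] {d : k} {x y X T : R}

theorem IsPres.isQuadratic (h : IsPres k R d x y X T) : IsQuadratic (powGrading k x y X T) where
  surjective := by
    rw [← AlgHom.range_eq_top, ← top_le_iff, ← h.gen]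
    refine Algebra.adjoin_le ?_
    intro a ha
    have hm : a ∈ powGrading k x y X T 1 := mem_one_of_mem (Submodule.subset_span ha)
    exact ⟨TensorAlgebra.ι k ⟨a, hm⟩, by simp⟩
  relations := by
    apply le_antisymm
    · intro t ht
      rw [TwoSidedIdeal.mem_ker] at ht
      obtain ⟨L, hL⟩ : ∃ L, L = TensorAlgebra.lift k (powGrading k x y X T 1).subtype := ⟨_, rfl⟩
      rw [← hL] at ht ⊢
      obtain ⟨I, hI⟩ : ∃ I, I = TwoSidedIdeal.span {t : TensorAlgebra k (powGrading k x y X T 1) |
        t ∈ (LinearMap.range (TensorAlgebra.ι k : powGrading k x y X T 1 →ₗ[k]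
          TensorAlgebra k (powGrading k x y X T 1))) ^ 2 ∧ L t = 0} := ⟨_, rfl⟩
      rw [← hI]
      have hι : ∀ v : powGrading k x y X T 1, L (TensorAlgebra.ι k v) = v := by
        intro v
        rw [hL, TensorAlgebra.lift_ι_apply]
        rfl
      obtain ⟨π, hπ⟩ : ∃ π, π = RingCon.mkₐ k I.ringCon := ⟨_, rfl⟩
      have hπ0 : ∀ s, π s = 0 ↔ s ∈ I := by
        intro s
        have h1 : TwoSidedIdeal.ker I.ringCon.mk' = I := TwoSidedIdeal.ker_ringCon_mk' I
        have h2 : s ∈ TwoSidedIdeal.ker I.ringCon.mk' ↔ I.ringCon.mk' s = 0 :=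
          TwoSidedIdeal.mem_ker _
        rw [h1] at h2
        rw [h2, hπ]
        rfl
      have hmul : ∀ v w : powGrading k x y X T 1,
          TensorAlgebra.ι k v * TensorAlgebra.ι k w ∈
          (LinearMap.range (TensorAlgebra.ι k : powGrading k x y X T 1 →ₗ[k]
          TensorAlgebra k (powGrading k x y X T 1))) ^ 2 := by
        intro v w
        rw [pow_two]
        exact Submodule.mul_mem_mul ⟨v, rfl⟩ ⟨w, rfl⟩
      have hrel : ∀ s t, s ∈ (LinearMap.range (TensorAlgebra.ι k : powGrading k x y X T 1 →ₗ[k]
          TensorAlgebra k (powGrading k x y X T 1))) ^ 2 →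
          t ∈ (LinearMap.range (TensorAlgebra.ι k : powGrading k x y X T 1 →ₗ[k]
          TensorAlgebra k (powGrading k x y X T 1))) ^ 2 → L s = L t → π s = π t := by
        intro s t hs ht hst
        rw [← sub_eq_zero, ← map_sub, hπ0, hI]
        exact TwoSidedIdeal.subset_span ⟨sub_mem hs ht, by rw [map_sub, hst, sub_self]⟩
      obtain ⟨x1, hx1⟩ : ∃ x1 : powGrading k x y X T 1, (x1 : R) = x :=
        ⟨⟨x, mem_one_of_mem x_mem⟩, rfl⟩
      obtain ⟨y1, hy1⟩ : ∃ y1 : powGrading k x y X T 1, (y1 : R) = y :=
        ⟨⟨y, mem_one_of_mem y_mem⟩, rfl⟩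
      obtain ⟨X1, hX1⟩ : ∃ X1 : powGrading k x y X T 1, (X1 : R) = X :=
        ⟨⟨X, mem_one_of_mem X_mem⟩, rfl⟩
      obtain ⟨T1, hT1⟩ : ∃ T1 : powGrading k x y X T 1, (T1 : R) = T :=
        ⟨⟨T, mem_one_of_mem T_mem⟩, rfl⟩
      have hR : Rels d (π (TensorAlgebra.ι k x1)) (π (TensorAlgebra.ι k y1))
          (π (TensorAlgebra.ι k X1)) (π (TensorAlgebra.ι k T1)) := by
        have hd : ∀ v w u : powGrading k x y X T 1,
            (TensorAlgebra.ι k v - TensorAlgebra.ι k w) * TensorAlgebra.ι k u ∈
            (LinearMap.range (TensorAlgebra.ι k : powGrading k x y X T 1 →ₗ[k]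
            TensorAlgebra k (powGrading k x y X T 1))) ^ 2 := by
          intro v w u
          rw [← map_sub]
          exact hmul _ _
        constructor
        · have := hrel _ _ (hmul X1 x1) (hmul x1 X1) (by
            simp only [map_add, map_mul, map_smul, map_sub, hι, hx1, hy1, hX1, hT1]
            exact h.rel.h1)
          simpa only [map_add, map_mul, map_smul, map_sub] using this
        · have := hrel _ _ (add_mem (hmul y1 y1) (hmul X1 X1)) (hmul x1 x1) (by
            simp only [map_add, map_mul, map_smul, map_sub, hι, hx1, hy1, hX1, hT1]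
            exact h.rel.h2)
          simpa only [map_add, map_mul, map_smul, map_sub] using this
        · have := hrel _ _ (add_mem (hmul y1 X1) (hmul X1 y1))
            (Submodule.smul_mem _ (1 + d) (hd X1 T1 y1)) (by
            simp only [map_add, map_mul, map_smul, map_sub, hι, hx1, hy1, hX1, hT1]
            exact h.rel.h3)
          simpa only [map_add, map_mul, map_smul, map_sub] using this
        · have := hrel _ _ (add_mem (hmul y1 T1) (hmul T1 y1))
            (Submodule.smul_mem _ (d - 1) (hd X1 T1 y1)) (by
            simp only [map_add, map_mul, map_smul, map_sub, hι, hx1, hy1, hX1, hT1]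
            exact h.rel.h4)
          simpa only [map_add, map_mul, map_smul, map_sub] using this
        · have := hrel _ _ (add_mem (hmul x1 T1) (hmul T1 x1))
            (Submodule.smul_mem _ d (hd X1 T1 y1)) (by
            simp only [map_add, map_mul, map_smul, map_sub, hι, hx1, hy1, hX1, hT1]
            exact h.rel.h5)
          simpa only [map_add, map_mul, map_smul, map_sub] using this
        · have := hrel _ _ (add_mem (add_mem (Submodule.smul_mem _ (1 + d) (hmul T1 T1))
            (Submodule.smul_mem _ (1 - d) (hmul x1 x1))) (Submodule.smul_mem _ d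
            (add_mem (hmul x1 y1) (hmul y1 x1))))
            (Submodule.smul_mem _ (1 + d) (hmul y1 y1)) (by
            simp only [map_add, map_mul, map_smul, map_sub, hι, hx1, hy1, hX1, hT1]
            exact h.rel.h6)
          simpa only [map_add, map_mul, map_smul, map_sub] using this
      obtain ⟨φ, e0, e1, e2, e3⟩ := h.univ _ _ _ _ _ hR
      have hφ : ∀ v : R, (hv : v ∈ genSpan k x y X T) →
          φ v = π (TensorAlgebra.ι k ⟨v, mem_one_of_mem hv⟩) := by
        intro v hv
        have hv' := hv
        unfold genSpan at hv'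
        induction hv' using Submodule.span_induction with
        | mem z hz =>
          simp only [Set.mem_insert_iff, Set.mem_singleton_iff] at hz
          rcases hz with rfl | rfl | rfl | rfl
          · rw [e0]; congr 2; exact Subtype.ext hx1
          · rw [e1]; congr 2; exact Subtype.ext hy1
          · rw [e2]; congr 2; exact Subtype.ext hX1
          · rw [e3]; congr 2; exact Subtype.ext hT1
        | zero =>
          have : (⟨0, mem_one_of_mem hv⟩ : powGrading k x y X T 1) = 0 := rfl
          rw [this, map_zero, map_zero, map_zero]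
        | add a b ha hb iha ihb =>
          have : (⟨a + b, mem_one_of_mem hv⟩ : powGrading k x y X T 1) =
            ⟨a, mem_one_of_mem ha⟩ + ⟨b, mem_one_of_mem hb⟩ := rfl
          rw [this, map_add, map_add, map_add, iha ha, ihb hb]
        | smul c a ha iha =>
          have : (⟨c • a, mem_one_of_mem hv⟩ : powGrading k x y X T 1) =
            c • ⟨a, mem_one_of_mem ha⟩ := rfl
          rw [this, map_smul, map_smul, map_smul, iha ha]
      have hcomp : φ.comp L = π := by
        apply TensorAlgebra.hom_ext
        ext v
        obtain ⟨v, hv⟩ := v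
        simp only [AlgHom.comp_toLinearMap, LinearMap.comp_apply, AlgHom.toLinearMap_apply]
        rw [hι]
        exact hφ v (by simpa [powGrading] using hv)
      rw [← hπ0, ← hcomp, AlgHom.comp_apply, ht, map_zero]
    · rw [TwoSidedIdeal.span_le]
      rintro t ⟨-, ht⟩
      exact (TwoSidedIdeal.mem_ker _).mpr ht

end Pool.Agent.MP_a6a2ff_al
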