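import Pool.Agent.MP_a6a2ff_al.GldimLe

/-!
# Artin-Schelter regularity
-/

set_option linter.unusedSimpArgs false
set_option linter.unusedVariables false
set_option linter.unusedSectionVars false

universe u

open CategoryTheory Module

namespace Pool.Agent.MP_a6a2ff_al

section Growth

/-- Sequences with vanishing fourth difference grow polynomially. -/
lemma growth_of_rec (f : ℕ → ℕ)
    (hf : ∀ n, f (n + 4) + 6 * f (n + 2) + f n = 4 * f (n + 3) + 4 * f (n + 1)) :
    ∃ C e : ℕ, ∀ n : ℕ, f n ≤ C * (n + 1) ^ e := by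
  obtain ⟨c0, hc0⟩ : ∃ c : ℤ, c = f 0 := ⟨_, rfl⟩
  obtain ⟨c1, hc1⟩ : ∃ c : ℤ, c = f 1 - f 0 := ⟨_, rfl⟩
  obtain ⟨c2, hc2⟩ : ∃ c : ℤ, c = f 2 - 2 * f 1 + f 0 := ⟨_, rfl⟩
  obtain ⟨c3, hc3⟩ : ∃ c : ℤ, c = f 3 - 3 * f 2 + 3 * f 1 - f 0 := ⟨_, rfl⟩
  have key : ∀ n : ℕ, 6 * (f n : ℤ) = 6 * c0 + 6 * c1 * n + 3 * c2 * (n * (n - 1)) +
      c3 * (n * (n - 1) * (n - 2)) := by
    intro n
    induction n using Nat.strong_induction_on with
    | _ n ih =>
      match n, ih with
      | 0, _ => push_cast; linarith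
      | 1, _ => push_cast; linarith
      | 2, _ => push_cast; linarith
      | 3, _ => push_cast; linarith
      | (n + 4), ih =>
        have h := hf n
        have e0 := ih n (by omega)
        have e1 := ih (n + 1) (by omega)
        have e2 := ih (n + 2) (by omega)
        have e3 := ih (n + 3) (by omega)
        have h' : (f (n + 4) : ℤ) = 4 * f (n + 3) + 4 * f (n + 1) - 6 * f (n + 2) - f n := by
          have : ((f (n + 4) + 6 * f (n + 2) + f n : ℕ) : ℤ) =
            ((4 * f (n + 3) + 4 * f (n + 1) : ℕ) : ℤ) := by rw [h]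
          push_cast at this
          linarith
        push_cast at e0 e1 e2 e3 ⊢
        rw [h']
        linear_combination 4 * e3 + 4 * e1 - 6 * e2 - e0
  refine ⟨(|c0| + |c1| + |c2| + |c3|).toNat, 3, fun n => ?_⟩
  have hn : (0 : ℤ) ≤ n := Int.natCast_nonneg n
  have h := key n
  have hC : (((|c0| + |c1| + |c2| + |c3|).toNat : ℕ) : ℤ) = |c0| + |c1| + |c2| + |c3| :=
    Int.toNat_of_nonneg (by positivity)
  have p0 : (1 : ℤ) ≤ (n + 1) ^ 3 := one_le_pow₀ (by linarith)
  have p1 : (n : ℤ) ≤ (n + 1) ^ 3 := by nlinarith [mul_nonneg hn hn, mul_nonneg hn (mul_nonneg hn hn)]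
  have b0 : c0 ≤ |c0| * (n + 1) ^ 3 := by
    calc c0 ≤ |c0| := le_abs_self c0
      _ ≤ |c0| * (n + 1) ^ 3 := le_mul_of_one_le_right (abs_nonneg _) p0
  have b1 : c1 * n ≤ |c1| * (n + 1) ^ 3 := by
    calc c1 * n ≤ |c1| * n := mul_le_mul_of_nonneg_right (le_abs_self c1) hn
      _ ≤ |c1| * (n + 1) ^ 3 := mul_le_mul_of_nonneg_left p1 (abs_nonneg _)
  have q2 : (0 : ℤ) ≤ n * (n - 1) := by
    rcases Nat.eq_zero_or_pos n with h0 | h0
    · subst h0; simp
    · have : (1 : ℤ) ≤ n := by exact_mod_cast h0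
      exact mul_nonneg hn (by linarith)
  have q3 : (0 : ℤ) ≤ n * (n - 1) * (n - 2) := by
    rcases Nat.lt_or_ge n 2 with h0 | h0
    · interval_cases n <;> simp
    · have : (2 : ℤ) ≤ n := by exact_mod_cast h0
      exact mul_nonneg q2 (by linarith)
  have b2 : c2 * (n * (n - 1)) ≤ |c2| * (2 * (n + 1) ^ 3) := by
    calc c2 * (n * (n - 1)) ≤ |c2| * (n * (n - 1)) :=
          mul_le_mul_of_nonneg_right (le_abs_self c2) q2
      _ ≤ |c2| * (2 * (n + 1) ^ 3) := by
          refine mul_le_mul_of_nonneg_left ?_ (abs_nonneg _)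
          nlinarith [mul_nonneg hn hn, mul_nonneg hn (mul_nonneg hn hn)]
  have b3 : c3 * (n * (n - 1) * (n - 2)) ≤ |c3| * (6 * (n + 1) ^ 3) := by
    calc c3 * (n * (n - 1) * (n - 2)) ≤ |c3| * (n * (n - 1) * (n - 2)) :=
          mul_le_mul_of_nonneg_right (le_abs_self c3) q3
      _ ≤ |c3| * (6 * (n + 1) ^ 3) := by
          refine mul_le_mul_of_nonneg_left ?_ (abs_nonneg _)
          nlinarith [mul_nonneg hn hn, mul_nonneg hn (mul_nonneg hn hn)]
  have : (f n : ℤ) ≤ (|c0| + |c1| + |c2| + |c3|) * (n + 1) ^ 3 := by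
    nlinarith
  zify
  rw [hC]
  exact this

end Growth

section DegMap

variable {k : Type u} [Field k] {R : Type u} [Ring R] [Algebra k R]
variable (𝒜 : ℕ → Submodule k R) [GradedAlgebra 𝒜]

/-- the map given by a matrix of linear forms in degree `j` -/
def degMap {m n : ℕ} (A : Matrix (Fin m) (Fin n) R) (hA : ∀ i j, A i j ∈ 𝒜 1) (j : ℕ) :
    (Fin m → 𝒜 j) →ₗ[k] (Fin n → 𝒜 (j + 1)) :=
  LinearMap.pi fun i =>
    LinearMap.codRestrict (𝒜 (j + 1))
      (∑ l, LinearMap.mulRight k (A l i) ∘ₗ (𝒜 j).subtype ∘ₗ LinearMap.proj l)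
      (fun a => by
        rw [LinearMap.sum_apply]
        exact sum_mem fun l _ => SetLike.mul_mem_graded (a l).2 (hA l i))

lemma coe_degMap {m n : ℕ} (A : Matrix (Fin m) (Fin n) R) (hA : ∀ i j, A i j ∈ 𝒜 1) (j : ℕ)
    (a : Fin m → 𝒜 j) (i : Fin n) :
    (degMap 𝒜 A hA j a i : R) = Matrix.vecMul (fun l => (a l : R)) A i := by
  simp [degMap, Matrix.vecMul, dotProduct]

lemma degMap_exact {l m n : ℕ} (A : Matrix (Fin l) (Fin m) R) (B : Matrix (Fin m) (Fin n) R)
    (hA : ∀ i j, A i j ∈ 𝒜 1) (hB : ∀ i j, B i j ∈ 𝒜 1)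
    (h : Function.Exact A.vecMulLinear B.vecMulLinear) (j : ℕ) :
    LinearMap.ker (degMap 𝒜 B hB (j + 1)) = LinearMap.range (degMap 𝒜 A hA j) := by
  ext a
  rw [LinearMap.mem_ker, LinearMap.mem_range]
  constructor
  · intro ha
    have h1 : B.vecMulLinear (fun l => (a l : R)) = 0 := by
      rw [Matrix.vecMulLinear_apply]
      ext i
      rw [← coe_degMap 𝒜 B hB, ha]
      rfl
    obtain ⟨b, hb⟩ := (h _).mp h1
    rw [Matrix.vecMulLinear_apply] at hb
    refine ⟨fun i => ⟨pr 𝒜 (j + 1) (b i), pr_mem 𝒜 (j + 1) (b i)⟩, ?_⟩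
    ext i
    rw [coe_degMap]
    change Matrix.vecMul (fun l => pr 𝒜 (j + 1) (b l)) A i = _
    rw [← pr_vecMul 𝒜 A hA b (j + 1), hb]
    exact pr_of_mem 𝒜 (j := j + 2) (a i).2
  · rintro ⟨b, rfl⟩
    ext i
    rw [coe_degMap]
    have h1 : (fun l => (degMap 𝒜 A hA j b l : R)) = A.vecMulLinear (fun l => (b l : R)) := by
      ext l
      rw [coe_degMap, Matrix.vecMulLinear_apply]
    rw [h1, ← Matrix.vecMulLinear_apply, (h _).mpr ⟨_, rfl⟩]
    rfl

lemma degMap_rank {l m n : ℕ} (A : Matrix (Fin l) (Fin m) R) (B : Matrix (Fin m) (Fin n) R)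
    (hA : ∀ i j, A i j ∈ 𝒜 1) (hB : ∀ i j, B i j ∈ 𝒜 1)
    (h : Function.Exact A.vecMulLinear B.vecMulLinear) (j : ℕ) [Module.Finite k (𝒜 (j + 1))] :
    finrank k (LinearMap.range (degMap 𝒜 B hB (j + 1))) +
      finrank k (LinearMap.range (degMap 𝒜 A hA j)) = m * finrank k (𝒜 (j + 1)) := by
  have := (degMap 𝒜 B hB (j + 1)).finrank_range_add_finrank_ker
  rw [degMap_exact 𝒜 A B hA hB h, Module.finrank_pi_fintype] at this
  simpa using this

end DegMap

section Main

variable {k : Type u} [Field k] {R : Type u} [Ring R] [Algebra k R] {d ω : k} {x y X T : R}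

lemma finite_powGrading (n : ℕ) : Module.Finite k (powGrading k x y X T n) := by
  rw [Module.Finite.iff_fg]
  exact Submodule.FG.pow (Submodule.fg_span (Set.toFinite _)) n

lemma IsPres.degMap_surj (h : IsPres k R d x y X T) (j : ℕ) :
    let := h.gradedAlgebra
    LinearMap.range (degMap (powGrading k x y X T) (mat3 x y X T)
      (fun i j => mem_one_of_mem (mat3_mem i j)) j) = ⊤ := by
  intro inst
  rw [LinearMap.range_eq_top]
  intro b
  have hmem : (b 0 : R) ∈ augIdeal (powGrading k x y X T) :=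
    Submodule.subset_span ⟨j + 1, Nat.succ_pos j, (b 0).2⟩
  have h1 : lastMap (powGrading k x y X T) (fun _ => (b 0 : R)) = 0 := by
    change (augIdeal (powGrading k x y X T)).mkQ (b 0 : R) = 0
    rw [Submodule.mkQ_apply, Submodule.Quotient.mk_eq_zero]
    exact hmem
  obtain ⟨c, hc⟩ := (h.exact34 (powGrading k x y X T) (fun _ => rfl) _).mp h1
  rw [Matrix.vecMulLinear_apply] at hc
  refine ⟨fun i => ⟨pr (powGrading k x y X T) (j + 1) (c i),
    pr_mem (powGrading k x y X T) (j + 1) (c i)⟩, ?_⟩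
  ext i
  fin_cases i
  rw [coe_degMap]
  change Matrix.vecMul (fun l => pr (powGrading k x y X T) (j + 1) (c l)) (mat3 x y X T) 0 = _
  rw [← pr_vecMul (powGrading k x y X T) (mat3 x y X T)
    (fun i j => mem_one_of_mem (mat3_mem i j)) c (j + 1), hc]
  exact pr_of_mem (powGrading k x y X T) (j := j + 2) (b 0).2

theorem IsPres.hilbert (h : IsPres k R d x y X T) (hγ : 1 + d ≠ 0)
    (hω : ω ^ 2 * (1 + d) = 1 - d) (n : ℕ) :
    finrank k (powGrading k x y X T (n + 4)) + 6 * finrank k (powGrading k x y X T (n + 2)) +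
      finrank k (powGrading k x y X T n) =
    4 * finrank k (powGrading k x y X T (n + 3)) +
      4 * finrank k (powGrading k x y X T (n + 1)) := by
  let := h.gradedAlgebra
  have hfin : ∀ n, Module.Finite k (powGrading k x y X T n) := finite_powGrading
  have g0 : ∀ i j, mat0 x y X T i j ∈ powGrading k x y X T 1 := fun i j =>
    mem_one_of_mem (mat0_mem i j)
  have g1 : ∀ i j, mat1 d x y X T i j ∈ powGrading k x y X T 1 := fun i j =>
    mem_one_of_mem (mat1_mem i j)
  have g2 : ∀ i j, mat2 d x y X T i j ∈ powGrading k x y X T 1 := fun i j =>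
    mem_one_of_mem (mat2_mem i j)
  have g3 : ∀ i j, mat3 x y X T i j ∈ powGrading k x y X T 1 := fun i j =>
    mem_one_of_mem (mat3_mem i j)
  have e1 := degMap_rank (powGrading k x y X T) (mat0 x y X T) (mat1 d x y X T) g0 g1
    (h.exact01 hγ hω) n
  have e2 := degMap_rank (powGrading k x y X T) (mat1 d x y X T) (mat2 d x y X T) g1 g2
    (h.exact12 hγ hω) (n + 1)
  have e3 := degMap_rank (powGrading k x y X T) (mat2 d x y X T) (mat3 x y X T) g2 g3
    h.exact23 (n + 2)
  have e4 : finrank k (LinearMap.range (degMap (powGrading k x y X T) (mat3 x y X T) g3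
      (n + 2 + 1))) = finrank k (powGrading k x y X T (n + 4)) := by
    rw [h.degMap_surj, finrank_top, Module.finrank_pi_fintype]
    simp
  have hinj : Function.Injective (degMap (powGrading k x y X T) (mat0 x y X T) g0 n) := by
    rw [injective_iff_map_eq_zero]
    intro a ha
    have h1 : (mat0 x y X T).vecMulLinear (fun l => (a l : R)) = 0 := by
      rw [Matrix.vecMulLinear_apply]
      ext i
      rw [← coe_degMap (powGrading k x y X T) _ g0, ha]
      rfl
    have h2 := (injective_iff_map_eq_zero (mat0 x y X T).vecMulLinear).mp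
      (h.injective0 hγ hω) _ h1
    ext i
    exact congrFun h2 i
  have e0 : finrank k (LinearMap.range (degMap (powGrading k x y X T) (mat0 x y X T) g0 n)) =
      finrank k (powGrading k x y X T n) := by
    rw [LinearMap.finrank_range_of_inj hinj, Module.finrank_pi_fintype]
    simp
  rw [e0] at e1
  rw [e4] at e3
  have e2' : finrank k (LinearMap.range (degMap (powGrading k x y X T) (mat2 d x y X T) g2
      (n + 2))) + finrank k (LinearMap.range (degMap (powGrading k x y X T) (mat1 d x y X T) g1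
      (n + 1))) = 6 * finrank k (powGrading k x y X T (n + 2)) := e2
  have e3' : finrank k (powGrading k x y X T (n + 4)) + finrank k (LinearMap.range (degMap
      (powGrading k x y X T) (mat2 d x y X T) g2 (n + 2))) =
      4 * finrank k (powGrading k x y X T (n + 3)) := e3
  omega

theorem IsPres.isLeftRegular (h : IsPres k R d x y X T) (hγ : 1 + d ≠ 0)
    (hω : ω ^ 2 * (1 + d) = 1 - d)
    (ℬ : ℕ → Submodule k R) (hℬ : ∀ n, ℬ n = genSpan k x y X T ^ n) : IsLeftRegular ℬ 4 where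
  gldim_le := fun M => h.pd_le hγ hω M
  gldim_ge := ⟨_, h.not_pd_lt_four hγ hω ℬ hℬ⟩
  ext_eq_zero := h.ext_ne_four hγ hω ℬ hℬ
  ext_finrank := h.ext_four hγ hω ℬ hℬ

lemma opGrading_powGrading (n : ℕ) : opGrading (powGrading k x y X T) n =
    genSpan k (MulOpposite.op x) (MulOpposite.op y) (MulOpposite.op X) (MulOpposite.op T) ^ n := by
  unfold opGrading powGrading genSpan
  refine (Submodule.map_op_pow _ _).trans ?_
  congr 1
  refine (Submodule.map_span _ _).trans ?_
  congr 1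
  ext a
  simp only [Set.mem_image, Set.mem_insert_iff, Set.mem_singleton_iff]
  constructor
  · rintro ⟨b, rfl | rfl | rfl | rfl, rfl⟩ <;> simp
  · rintro (rfl | rfl | rfl | rfl)
    · exact ⟨x, by simp, rfl⟩
    · exact ⟨y, by simp, rfl⟩
    · exact ⟨X, by simp, rfl⟩
    · exact ⟨T, by simp, rfl⟩

theorem IsPres.isASRegular (h : IsPres k R d x y X T) (hγ : 1 + d ≠ 0)
    (hω : ω ^ 2 * (1 + d) = 1 - d) : IsASRegular (powGrading k x y X T) 4 where
  connected := pow_zero _
  nontrivial := by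
    obtain ⟨ε, -⟩ := h.exists_aug
    exact ε.toRingHom.domain_nontrivial
  finite := finite_powGrading
  growth := growth_of_rec _ (h.hilbert hγ hω)
  left := h.isLeftRegular hγ hω _ (fun _ => rfl)
  right := h.op.isLeftRegular hγ hω _ opGrading_powGrading

end Main

end Pool.Agent.MP_a6a2ff_al
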